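import Pool.Agent.Q76.LG.Hasse

/-!
# Isotropic vectors which are primitive against `A_2`
-/

set_option autoImplicit false

namespace Pool.Agent.Q76.LG

/-- Chinese remainders for prime numbers -/
theorem crt (S : Finset ℕ) (hS : ∀ p ∈ S, p.Prime) (c : ℕ → ℤ) :
    ∃ k : ℤ, ∀ p ∈ S, (p : ℤ) ∣ k - c p := by
  classical
  induction S using Finset.induction_on with
  | empty => exact ⟨0, by simp⟩
  | insert p S hp ih =>
    obtain ⟨k, hk⟩ := ih fun q hq => hS q (Finset.mem_insert_of_mem hq)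
    have hcop : IsCoprime (p : ℤ) (∏ q ∈ S, (q : ℤ)) := by
      refine IsCoprime.prod_right fun q hq => ?_
      rw [Nat.isCoprime_iff_coprime]
      exact (Nat.coprime_primes (hS p (Finset.mem_insert_self _ _))
        (hS q (Finset.mem_insert_of_mem hq))).2 fun e => hp (e ▸ hq)
    obtain ⟨r, s, hrs⟩ := hcop
    set M := ∏ q ∈ S, (q : ℤ) with hM
    refine ⟨k + s * M * (c p - k), fun q hq => ?_⟩
    rcases Finset.mem_insert.1 hq with rfl | hq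
    · exact ⟨-(r * (c q - k)), by linear_combination (c q - k) * hrs⟩
    · have h1 : (q : ℤ) ∣ M := Finset.dvd_prod_of_mem (fun q : ℕ => (q : ℤ)) hq
      have h2 : k + s * M * (c p - k) - c q = (k - c q) + M * (s * (c p - k)) := by ring
      rw [h2]
      exact dvd_add (hk q hq) (h1.mul_right _)

namespace IQ

variable {L : Type*} [AddCommGroup L] (Q : IQ L)

/-- the isotropic vectors `f + m - q(m) e` -/
theorem q_par {e f m : L} (he : Q.q e = 0) (hf : Q.q f = 0) (hef : Q.b e f = 1)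
    (hem : Q.b e m = 0) (hfm : Q.b f m = 0) (r s : ℤ) :
    Q.q (r ^ 2 • f + (r * s) • m - (s ^ 2 * Q.q m) • e) = 0 := by
  have hfe : Q.b f e = 1 := (Q.b_comm _ _).trans hef
  have hme : Q.b m e = 0 := (Q.b_comm _ _).trans hem
  rw [Q.q_sub, Q.q_add, Q.q_smul, Q.q_smul, Q.q_smul, Q.b_smul, Q.b_smul', Q.b_smul', Q.b_add,
    Q.b_smul, Q.b_smul, he, hf, hfm, hfe, hme]
  ring

/-- **An isotropic vector which is primitive against `A_2`.** -/
theorem exists_prim {l l' e f : L} (hl : Q.q l = 1) (hl' : Q.q l' = 1) (hll : Q.b l l' = 1)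
    (hdef : ∀ w, Q.q w = 0 → Q.b w l = 0 → Q.b w l' = 0 → w = 0)
    (he : Q.q e = 0) (hf : Q.q f = 0) (hef : Q.b e f = 1) :
    ∃ w, Q.q w = 0 ∧ IsCoprime (Q.b w l) (Q.b w l') := by
  classical
  have hfe : Q.b f e = 1 := (Q.b_comm _ _).trans hef
  have hll' : Q.b l' l = 1 := (Q.b_comm _ _).trans hll
  obtain ⟨E1, hE1⟩ : ∃ z, z = Q.b e l := ⟨_, rfl⟩
  obtain ⟨E2, hE2⟩ : ∃ z, z = Q.b e l' := ⟨_, rfl⟩
  obtain ⟨F1, hF1⟩ : ∃ z, z = Q.b f l := ⟨_, rfl⟩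
  obtain ⟨F2, hF2⟩ : ∃ z, z = Q.b f l' := ⟨_, rfl⟩
  have hE1' : Q.b l e = E1 := (Q.b_comm _ _).trans hE1.symm
  have hE2' : Q.b l' e = E2 := (Q.b_comm _ _).trans hE2.symm
  have hF1' : Q.b l f = F1 := (Q.b_comm _ _).trans hF1.symm
  have hF2' : Q.b l' f = F2 := (Q.b_comm _ _).trans hF2.symm
  have hee : Q.b e e = 0 := by rw [Q.b_self, he]; ring
  have hff : Q.b f f = 0 := by rw [Q.b_self, hf]; ring
  have hlls : Q.b l l = 2 := by rw [Q.b_self, hl]; ring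
  have hlls' : Q.b l' l' = 2 := by rw [Q.b_self, hl']; ring
  have hne : ∀ w, Q.b w e ≠ 0 ∨ Q.b w f ≠ 0 → w ≠ 0 := by
    rintro w hw rfl
    have h0 : ∀ z, Q.b 0 z = 0 := by
      intro z
      rw [Q.b_comm]
      exact (Q.bh z).map_zero
    rcases hw with h | h
    · exact h (h0 _)
    · exact h (h0 _)
  have hE0 : ¬ (E1 = 0 ∧ E2 = 0) := by
    rintro ⟨h1, h2⟩
    exact hne e (Or.inr (by rw [hef]; exact one_ne_zero))
      (hdef e he (by rw [← hE1, h1]) (by rw [← hE2, h2]))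
  have hF0 : ¬ (F1 = 0 ∧ F2 = 0) := by
    rintro ⟨h1, h2⟩
    exact hne f (Or.inl (by rw [hfe]; exact one_ne_zero))
      (hdef f hf (by rw [← hF1, h1]) (by rw [← hF2, h2]))
  -- the vectors `m`, `m'`
  obtain ⟨m, hm⟩ : ∃ m, m = l - F1 • e - E1 • f := ⟨_, rfl⟩
  obtain ⟨m', hm'⟩ : ∃ m', m' = l' - F2 • e - E2 • f := ⟨_, rfl⟩
  have hme : Q.b m e = 0 := by
    rw [hm, Q.b_sub, Q.b_sub, Q.b_smul, Q.b_smul, hE1', hee, hfe]; ring
  have hmf : Q.b m f = 0 := by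
    rw [hm, Q.b_sub, Q.b_sub, Q.b_smul, Q.b_smul, hF1', hff, hef]; ring
  have hme' : Q.b m' e = 0 := by
    rw [hm', Q.b_sub, Q.b_sub, Q.b_smul, Q.b_smul, hE2', hee, hfe]; ring
  have hmf' : Q.b m' f = 0 := by
    rw [hm', Q.b_sub, Q.b_sub, Q.b_smul, Q.b_smul, hF2', hff, hef]; ring
  have hml : Q.b m l = 2 - 2 * E1 * F1 := by
    rw [hm, Q.b_sub, Q.b_sub, Q.b_smul, Q.b_smul, hlls, ← hE1, ← hF1]; ring
  have hml' : Q.b m l' = 1 - F1 * E2 - E1 * F2 := by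
    rw [hm, Q.b_sub, Q.b_sub, Q.b_smul, Q.b_smul, hll, ← hE2, ← hF2]
  have hm'l : Q.b m' l = 1 - F2 * E1 - E2 * F1 := by
    rw [hm', Q.b_sub, Q.b_sub, Q.b_smul, Q.b_smul, hll', ← hE1, ← hF1]
  have hm'l' : Q.b m' l' = 2 - 2 * E2 * F2 := by
    rw [hm', Q.b_sub, Q.b_sub, Q.b_smul, Q.b_smul, hlls', ← hE2, ← hF2]; ring
  have hmm : Q.q m = 1 - E1 * F1 := by
    have h1 := Q.b_self m
    have h2 : Q.b m m = 2 - 2 * E1 * F1 := by
      have h3 : Q.b m m = Q.b (l - F1 • e - E1 • f) m := by rw [← hm]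
      rw [h3, Q.b_sub, Q.b_sub, Q.b_smul, Q.b_smul, Q.b_comm e m, Q.b_comm f m, hme, hmf,
        Q.b_comm l m, hml]
      ring
    linarith
  have hmm' : Q.q m' = 1 - E2 * F2 := by
    have h1 := Q.b_self m'
    have h2 : Q.b m' m' = 2 - 2 * E2 * F2 := by
      have h3 : Q.b m' m' = Q.b (l' - F2 • e - E2 • f) m' := by rw [← hm']
      rw [h3, Q.b_sub, Q.b_sub, Q.b_smul, Q.b_smul, Q.b_comm e m', Q.b_comm f m', hme', hmf',
        Q.b_comm l' m', hm'l']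
      ring
    linarith
  have hmmb : Q.b m m' = 1 - E1 * F2 - E2 * F1 := by
    conv_lhs => rw [hm]
    rw [Q.b_sub, Q.b_sub, Q.b_smul, Q.b_smul, Q.b_comm e m', Q.b_comm f m', hme', hmf',
      Q.b_comm l m', hm'l]
    ring
  -- the choice of `r`
  obtain ⟨g, hg⟩ : ∃ g : ℕ, g = Int.gcd F1 F2 := ⟨_, rfl⟩
  have hg0 : g ≠ 0 := by
    intro h
    rw [h] at hg
    exact hF0 (Int.gcd_eq_zero_iff.1 hg.symm)
  have hgd : ∀ p : ℕ, p ∣ g ↔ (p : ℤ) ∣ F1 ∧ (p : ℤ) ∣ F2 := by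
    intro p
    rw [hg]
    constructor
    · intro h
      have h1 : (p : ℤ) ∣ (Int.gcd F1 F2 : ℤ) := by exact_mod_cast h
      exact ⟨h1.trans (Int.gcd_dvd_left _ _), h1.trans (Int.gcd_dvd_right _ _)⟩
    · rintro ⟨h1, h2⟩
      have := Int.dvd_coe_gcd h1 h2
      exact_mod_cast this
  obtain ⟨r0, hr0⟩ := crt g.primeFactors (fun p hp => Nat.prime_of_mem_primeFactors hp)
    fun p => if (p : ℤ) ∣ 2 - E1 ∧ (p : ℤ) ∣ 1 - E2 then 0 else 1
  -- the direction `n r = r m + (1 - r) m'`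
  let n : ℤ → L := fun r => r • m + (1 - r) • m'
  have hne' : ∀ r, Q.b (n r) e = 0 := by
    intro r
    simp only [n]
    rw [Q.b_add, Q.b_smul, Q.b_smul, hme, hme']; ring
  have hnf : ∀ r, Q.b (n r) f = 0 := by
    intro r
    simp only [n]
    rw [Q.b_add, Q.b_smul, Q.b_smul, hmf, hmf']; ring
  have hnl : ∀ r, Q.b (n r) l = r * (2 - 2 * E1 * F1) + (1 - r) * (1 - F2 * E1 - E2 * F1) := by
    intro r
    simp only [n]
    rw [Q.b_add, Q.b_smul, Q.b_smul, hml, hm'l]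
  have hnl' : ∀ r, Q.b (n r) l' = r * (1 - F1 * E2 - E1 * F2) + (1 - r) * (2 - 2 * E2 * F2) := by
    intro r
    simp only [n]
    rw [Q.b_add, Q.b_smul, Q.b_smul, hml', hm'l']
  have hnq : ∀ r, Q.q (n r) = r ^ 2 * (1 - E1 * F1) + (1 - r) ^ 2 * (1 - E2 * F2) +
      r * (1 - r) * (1 - E1 * F2 - E2 * F1) := by
    intro r
    simp only [n]
    rw [Q.q_add, Q.q_smul, Q.q_smul, Q.b_smul, Q.b_smul', hmm, hmm', hmmb]; ring
  obtain ⟨α, hα⟩ : ∃ α, α = F1 * E2 - F2 * E1 := ⟨_, rfl⟩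
  -- `D r = E × π (n r)`
  obtain ⟨r, hr, hD⟩ : ∃ r : ℤ, (∀ p ∈ g.primeFactors, (p : ℤ) ∣ r - r0) ∧
      (α ≠ 0 ∨ E1 * Q.b (n r) l' - E2 * Q.b (n r) l ≠ 0) := by
    by_cases hα0 : α = 0
    swap
    · exact ⟨r0, fun p _ => by simp, Or.inl hα0⟩
    by_cases h1 : E1 * Q.b (n r0) l' - E2 * Q.b (n r0) l = 0
    swap
    · exact ⟨r0, fun p _ => by simp, Or.inr h1⟩
    refine ⟨r0 + g, fun p hp => ?_, Or.inr fun h2 => hE0 ?_⟩
    · rw [add_sub_cancel_left]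
      exact_mod_cast Nat.dvd_of_mem_primeFactors hp
    · rw [hnl, hnl'] at h1 h2
      have hg0' : (g : ℤ) ≠ 0 := by exact_mod_cast hg0
      -- difference
      have e1 : (g : ℤ) * (E1 + E2) = 0 := by
        rw [hα] at hα0
        linear_combination (h1 - h2) + (g : ℤ) * (E1 - E2) * hα0
      have e2 := (mul_eq_zero.1 e1).resolve_left hg0'
      have e3 : 2 * E1 - E2 = 0 := by
        rw [hα] at hα0
        linear_combination h1 + r0 * e2 - (E2 + r0 * (E1 - E2)) * hα0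
      constructor
      · omega
      · omega
  obtain ⟨u, hu⟩ : ∃ u, u = n r := ⟨_, rfl⟩
  have hue : Q.b e u = 0 := by rw [Q.b_comm, hu, hne']
  have huf : Q.b f u = 0 := by rw [Q.b_comm, hu, hnf]
  obtain ⟨U1, hU1⟩ : ∃ z, z = Q.b u l := ⟨_, rfl⟩
  obtain ⟨U2, hU2⟩ : ∃ z, z = Q.b u l' := ⟨_, rfl⟩
  obtain ⟨q0, hq0⟩ : ∃ z, z = Q.q u := ⟨_, rfl⟩
  obtain ⟨Δ, hΔ⟩ : ∃ z, z = E1 * U2 - E2 * U1 := ⟨_, rfl⟩
  obtain ⟨β, hβ⟩ : ∃ z, z = F1 * U2 - F2 * U1 := ⟨_, rfl⟩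
  rw [← hu, ← hU1, ← hU2, ← hΔ] at hD
  -- the vector with parameter `k`
  let w : ℤ → L := fun k => (1 : ℤ) ^ 2 • f + (1 * k) • u - (k ^ 2 * Q.q u) • e
  have hw : ∀ k, Q.q (w k) = 0 := fun k => Q.q_par he hf hef hue huf 1 k
  have hwl : ∀ k, Q.b (w k) l = F1 + k * U1 - k ^ 2 * q0 * E1 := by
    intro k
    simp only [w]
    rw [Q.b_sub, Q.b_add, Q.b_smul, Q.b_smul, Q.b_smul, ← hF1, ← hU1, ← hE1, ← hq0]; ring
  have hwl' : ∀ k, Q.b (w k) l' = F2 + k * U2 - k ^ 2 * q0 * E2 := by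
    intro k
    simp only [w]
    rw [Q.b_sub, Q.b_add, Q.b_smul, Q.b_smul, Q.b_smul, ← hF2, ← hU2, ← hE2, ← hq0]; ring
  -- the resultant
  obtain ⟨R, hR0, hR⟩ : ∃ R : ℤ, R ≠ 0 ∧ ∀ (p k : ℤ), p ∣ F1 + k * U1 - k ^ 2 * q0 * E1 →
      p ∣ F2 + k * U2 - k ^ 2 * q0 * E2 → p ∣ R := by
    by_cases hΔ0 : Δ = 0
    · refine ⟨α, hD.resolve_right (not_not.2 hΔ0), fun p k h1 h2 => ?_⟩
      have e1 : α = E2 * (F1 + k * U1 - k ^ 2 * q0 * E1) - E1 * (F2 + k * U2 - k ^ 2 * q0 * E2)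
          + k * Δ := by rw [hα, hΔ]; ring
      rw [e1, hΔ0, mul_zero, add_zero]
      exact (h1.mul_left _).sub (h2.mul_left _)
    · refine ⟨β * Δ - q0 * α ^ 2, fun hR => ?_, fun p k h1 h2 => ?_⟩
      · -- the isotropic vector `Δ² f + α Δ u - α² q0 e`
        have h3 := Q.q_par he hf hef hue huf Δ α
        have hl1 : Q.b (Δ ^ 2 • f + (Δ * α) • u - (α ^ 2 * Q.q u) • e) l =
            Δ ^ 2 * F1 + Δ * α * U1 - α ^ 2 * q0 * E1 := by
          rw [Q.b_sub, Q.b_add, Q.b_smul, Q.b_smul, Q.b_smul, ← hF1, ← hU1, ← hE1, ← hq0]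
        have hl2 : Q.b (Δ ^ 2 • f + (Δ * α) • u - (α ^ 2 * Q.q u) • e) l' =
            Δ ^ 2 * F2 + Δ * α * U2 - α ^ 2 * q0 * E2 := by
          rw [Q.b_sub, Q.b_add, Q.b_smul, Q.b_smul, Q.b_smul, ← hF2, ← hU2, ← hE2, ← hq0]
        -- cross products
        have c1 : (Δ ^ 2 * F1 + Δ * α * U1 - α ^ 2 * q0 * E1) * E2 -
            (Δ ^ 2 * F2 + Δ * α * U2 - α ^ 2 * q0 * E2) * E1 = 0 := by
          have : (Δ ^ 2 * F1 + Δ * α * U1 - α ^ 2 * q0 * E1) * E2 -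
            (Δ ^ 2 * F2 + Δ * α * U2 - α ^ 2 * q0 * E2) * E1 =
            Δ ^ 2 * (F1 * E2 - F2 * E1) - Δ * α * (E1 * U2 - E2 * U1) := by ring
          rw [this, ← hα, ← hΔ]; ring
        have c2 : (Δ ^ 2 * F1 + Δ * α * U1 - α ^ 2 * q0 * E1) * U2 -
            (Δ ^ 2 * F2 + Δ * α * U2 - α ^ 2 * q0 * E2) * U1 = 0 := by
          have : (Δ ^ 2 * F1 + Δ * α * U1 - α ^ 2 * q0 * E1) * U2 -
            (Δ ^ 2 * F2 + Δ * α * U2 - α ^ 2 * q0 * E2) * U1 =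
            Δ ^ 2 * (F1 * U2 - F2 * U1) - α ^ 2 * q0 * (E1 * U2 - E2 * U1) := by ring
          rw [this, ← hβ, ← hΔ]
          linear_combination Δ * hR
        obtain ⟨V1, hV1⟩ : ∃ z, z = Δ ^ 2 * F1 + Δ * α * U1 - α ^ 2 * q0 * E1 := ⟨_, rfl⟩
        obtain ⟨V2, hV2⟩ : ∃ z, z = Δ ^ 2 * F2 + Δ * α * U2 - α ^ 2 * q0 * E2 := ⟨_, rfl⟩
        rw [← hV1, ← hV2] at c1 c2
        rw [← hV1] at hl1
        rw [← hV2] at hl2
        have z1 : V1 = 0 := by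
          have : Δ * V1 = 0 := by
            rw [hΔ]
            linear_combination E1 * c2 - U1 * c1
          exact (mul_eq_zero.1 this).resolve_left hΔ0
        have z2 : V2 = 0 := by
          have : Δ * V2 = 0 := by
            rw [hΔ]
            linear_combination E2 * c2 - U2 * c1
          exact (mul_eq_zero.1 this).resolve_left hΔ0
        refine hne (Δ ^ 2 • f + (Δ * α) • u - (α ^ 2 * Q.q u) • e) (Or.inl ?_)
          (hdef _ h3 (hl1.trans z1) (hl2.trans z2))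
        rw [Q.b_sub, Q.b_add, Q.b_smul, Q.b_smul, Q.b_smul, hfe, Q.b_comm u e, hue, hee]
        have : Δ ^ 2 ≠ 0 := pow_ne_zero 2 hΔ0
        simpa using this
      · -- `p` divides `α - k Δ` and `β - k² q0 Δ`
        have d1 : p ∣ α - k * Δ := by
          have e1 : α - k * Δ = E2 * (F1 + k * U1 - k ^ 2 * q0 * E1) -
            E1 * (F2 + k * U2 - k ^ 2 * q0 * E2) := by rw [hα, hΔ]; ring
          rw [e1]
          exact (h1.mul_left _).sub (h2.mul_left _)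
        have d2 : p ∣ β - k ^ 2 * q0 * Δ := by
          have e1 : β - k ^ 2 * q0 * Δ = U2 * (F1 + k * U1 - k ^ 2 * q0 * E1) -
            U1 * (F2 + k * U2 - k ^ 2 * q0 * E2) := by rw [hβ, hΔ]; ring
          rw [e1]
          exact (h1.mul_left _).sub (h2.mul_left _)
        have e2 : β * Δ - q0 * α ^ 2 = Δ * (β - k ^ 2 * q0 * Δ) -
          q0 * (α + k * Δ) * (α - k * Δ) := by ring
        rw [e2]
        exact (d2.mul_left _).sub (d1.mul_left _)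
  -- the choice of `k`
  obtain ⟨k, hk⟩ := crt R.natAbs.primeFactors (fun p hp => Nat.prime_of_mem_primeFactors hp)
    fun p => if p ∣ g then 1 else 0
  refine ⟨w k, hw k, ?_⟩
  rw [hwl, hwl', Int.isCoprime_iff_gcd_eq_one]
  by_contra hgcd
  obtain ⟨p, hp, hpd⟩ := Nat.exists_prime_and_dvd hgcd
  have hpd' : (p : ℤ) ∣ (Int.gcd (F1 + k * U1 - k ^ 2 * q0 * E1)
    (F2 + k * U2 - k ^ 2 * q0 * E2) : ℤ) := by exact_mod_cast hpd
  have h1 := hpd'.trans (Int.gcd_dvd_left _ _)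
  have h2 := hpd'.trans (Int.gcd_dvd_right _ _)
  have hpi := Nat.prime_iff_prime_int.1 hp
  have hpR : p ∈ R.natAbs.primeFactors :=
    Nat.mem_primeFactors.2 ⟨hp, Int.natCast_dvd.1 (hR p k h1 h2), Int.natAbs_ne_zero.2 hR0⟩
  have hkp := hk p hpR
  by_cases hpg : p ∣ g
  · rw [if_pos hpg] at hkp
    have hF := (hgd p).1 hpg
    have hpg' : p ∈ g.primeFactors := Nat.mem_primeFactors.2 ⟨hp, hpg, hg0⟩
    have hrp := hr p hpg'
    have hr0p := hr0 p hpg'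
    have : Fact p.Prime := ⟨hp⟩
    have hU1' : U1 = r * (2 - 2 * E1 * F1) + (1 - r) * (1 - F2 * E1 - E2 * F1) := by
      rw [hU1, hu, hnl]
    have hU2' : U2 = r * (1 - F1 * E2 - E1 * F2) + (1 - r) * (2 - 2 * E2 * F2) := by
      rw [hU2, hu, hnl']
    have hq0' : q0 = r ^ 2 * (1 - E1 * F1) + (1 - r) ^ 2 * (1 - E2 * F2) +
        r * (1 - r) * (1 - E1 * F2 - E2 * F1) := by
      rw [hq0, hu, hnq]
    rw [hU1', hq0'] at h1
    rw [hU2', hq0'] at h2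
    rw [← ZMod.intCast_zmod_eq_zero_iff_dvd] at h1 h2 hkp hrp
    have hFa := (ZMod.intCast_zmod_eq_zero_iff_dvd F1 p).2 hF.1
    have hFb := (ZMod.intCast_zmod_eq_zero_iff_dvd F2 p).2 hF.2
    push_cast at h1 h2 hkp hrp
    rw [hFa] at h1 h2
    rw [hFb] at h1 h2
    have hk1 : (k : ZMod p) = 1 := by linear_combination hkp
    rw [hk1] at h1 h2
    by_cases hc : (p : ℤ) ∣ 2 - E1 ∧ (p : ℤ) ∣ 1 - E2
    · rw [if_pos hc, sub_zero, ← ZMod.intCast_zmod_eq_zero_iff_dvd] at hr0p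
      have hr1 : (r : ZMod p) = 0 := by linear_combination hrp + hr0p
      have hc1 := (ZMod.intCast_zmod_eq_zero_iff_dvd _ p).2 hc.1
      push_cast at hc1
      rw [hr1] at h1
      have : (1 : ZMod p) = 0 := by linear_combination hc1 - h1
      exact one_ne_zero this
    · rw [if_neg hc, ← ZMod.intCast_zmod_eq_zero_iff_dvd] at hr0p
      push_cast at hr0p
      have hr1 : (r : ZMod p) = 1 := by linear_combination hrp + hr0p
      rw [hr1] at h1 h2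
      apply hc
      rw [← ZMod.intCast_zmod_eq_zero_iff_dvd, ← ZMod.intCast_zmod_eq_zero_iff_dvd]
      push_cast
      constructor
      · linear_combination h1
      · linear_combination h2
  · rw [if_neg hpg, sub_zero] at hkp
    apply hpg
    rw [hgd]
    obtain ⟨κ, rfl⟩ := hkp
    constructor
    · have e1 : F1 + p * κ * U1 - (p * κ) ^ 2 * q0 * E1 = F1 + p * (κ * U1 - p * κ ^ 2 * q0 * E1) := by
        ring
      rw [e1] at h1
      exact (dvd_add_left (dvd_mul_right _ _)).1 h1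
    · have e1 : F2 + p * κ * U2 - (p * κ) ^ 2 * q0 * E2 = F2 + p * (κ * U2 - p * κ ^ 2 * q0 * E2) := by
        ring
      rw [e1] at h2
      exact (dvd_add_left (dvd_mul_right _ _)).1 h2

end IQ

end Pool.Agent.Q76.LG
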