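import Pool.Agent.Q76.LG.Crit
import Pool.Agent.Q76.LG.Prim
import Pool.Agent.Q76.FH.Eq

/-!
# Hyperbolic planes in the algebraic Mukai lattice and admissible discriminants
-/

set_option autoImplicit false

namespace Pool.Agent.Q76.LG

open Pool.Agent.Y95.Q Pool.Agent.Y95.Q.H4 Pool.Agent.Q76.FH

variable {X : CubicFourfold} {H : H4 X}

section arith

theorem four_ndvd {M d m n : ℤ} (hc : IsCoprime m n) (h : M ^ 2 * d = 2 * (m ^ 2 + m * n + n ^ 2)) :
    ¬ 4 ∣ d := by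
  rintro ⟨e, rfl⟩
  have h1 : (2 : ℤ) ∣ m ^ 2 + m * n + n ^ 2 := by
    refine ⟨M ^ 2 * e, ?_⟩
    linarith
  have key : ∀ x y : ZMod 2, x ^ 2 + x * y + y ^ 2 = 0 → x = 0 ∧ y = 0 := by decide
  have h2 := (ZMod.intCast_zmod_eq_zero_iff_dvd _ 2).2 h1
  push_cast at h2
  obtain ⟨h3, h4⟩ := key _ _ h2
  rw [ZMod.intCast_zmod_eq_zero_iff_dvd] at h3 h4
  have h5 := hc.isUnit_of_dvd' h3 h4
  norm_num [Int.isUnit_iff] at h5

theorem nine_ndvd {M d m n : ℤ} (hc : IsCoprime m n) (h : M ^ 2 * d = 2 * (m ^ 2 + m * n + n ^ 2)) :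
    ¬ 9 ∣ d := by
  rintro ⟨e, rfl⟩
  have h1 : (9 : ℤ) ∣ 2 * (m ^ 2 + m * n + n ^ 2) := ⟨M ^ 2 * e, by linarith⟩
  have key : ∀ x y : ZMod 9, 2 * (x ^ 2 + x * y + y ^ 2) = 0 → 3 * x = 0 ∧ 3 * y = 0 := by decide
  have h2 := (ZMod.intCast_zmod_eq_zero_iff_dvd _ 9).2 h1
  push_cast at h2
  obtain ⟨h3, h4⟩ := key _ _ h2
  have h3' : ((3 * m : ℤ) : ZMod 9) = 0 := by push_cast; exact h3
  have h4' : ((3 * n : ℤ) : ZMod 9) = 0 := by push_cast; exact h4
  rw [ZMod.intCast_zmod_eq_zero_iff_dvd] at h3' h4'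
  have h5 : (3 : ℤ) ∣ m := by omega
  have h6 : (3 : ℤ) ∣ n := by omega
  have h7 := hc.isUnit_of_dvd' h5 h6
  norm_num [Int.isUnit_iff] at h7

theorem prime_ndvd {M d m n : ℤ} (hc : IsCoprime m n)
    (h : M ^ 2 * d = 2 * (m ^ 2 + m * n + n ^ 2)) {p : ℕ} (hp : p.Prime)
    (hp2 : p ≠ 2) (hd : (p : ℤ) ∣ d) : p % 3 ≠ 2 := by
  have : Fact p.Prime := ⟨hp⟩
  intro h3
  have h1 : (p : ℤ) ∣ 2 * (m ^ 2 + m * n + n ^ 2) := h ▸ hd.mul_left _
  have h2 := (ZMod.intCast_zmod_eq_zero_iff_dvd _ p).2 h1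
  push_cast at h2
  obtain ⟨x, hx⟩ : ∃ x : ZMod p, x = (m : ZMod p) := ⟨_, rfl⟩
  obtain ⟨y, hy⟩ : ∃ y : ZMod p, y = (n : ZMod p) := ⟨_, rfl⟩
  rw [← hx, ← hy] at h2
  have h20 : (2 : ZMod p) ≠ 0 := by
    intro h4
    have h5 : ((2 : ℕ) : ZMod p) = 0 := by exact_mod_cast h4
    rw [ZMod.natCast_eq_zero_iff] at h5
    exact hp2 ((Nat.prime_dvd_prime_iff_eq hp Nat.prime_two).1 h5)
  have h4 : x ^ 2 + x * y + y ^ 2 = 0 := (mul_eq_zero.1 h2).resolve_left h20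
  have hy0 : y ≠ 0 := by
    intro h5
    rw [h5] at h4
    have hx0 : x = 0 := by
      have : x ^ 2 = 0 := by linear_combination h4
      exact pow_eq_zero_iff (two_ne_zero) |>.1 this
    rw [hx] at hx0
    rw [hy] at h5
    rw [ZMod.intCast_zmod_eq_zero_iff_dvd] at hx0 h5
    have h7 := hc.isUnit_of_dvd' hx0 h5
    exact (Nat.prime_iff_prime_int.1 hp).not_isUnit h7
  set t := x / y with ht
  have h4 : t ^ 2 + t + 1 = 0 := by
    rw [ht]
    field_simp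
    linear_combination h4
  have h5 : t ^ 3 = 1 := by linear_combination (t - 1) * h4
  have h6 : t ≠ 1 := by
    intro h7
    rw [h7] at h4
    have h8 : ((3 : ℕ) : ZMod p) = 0 := by
      push_cast
      linear_combination h4
    rw [ZMod.natCast_eq_zero_iff] at h8
    have h9 := (Nat.prime_dvd_prime_iff_eq hp Nat.prime_three).1 h8
    rw [h9] at h3
    norm_num at h3
  have h7 : t ≠ 0 := by
    intro h8
    rw [h8] at h4
    simp at h4
  have h8 : orderOf t = 3 := by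
    have : Fact (Nat.Prime 3) := ⟨Nat.prime_three⟩
    exact orderOf_eq_prime h5 h6
  have h9 := ZMod.orderOf_dvd_card_sub_one h7
  rw [h8] at h9
  have := hp.two_le
  omega

end arith

/-- a primitive isotropic class gives an admissible discriminant -/
theorem hasK3_of_coprime (hH : H.IsCohomology) {x : ℤ} {v : Fin 23 → ℤ} (hv : H.IsHodge v)
    (h0 : x ^ 2 + x * H.ip H.h v + cc H v = 0) (hc : IsCoprime x (H.ip H.h v)) : H.HasK3 := by
  have hd : H.disc v = 2 * ((H.ip H.h v + x) ^ 2 + (H.ip H.h v + x) * x + x ^ 2) := by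
    rw [disc_cc hH]
    linear_combination (-6) * h0
  have hc' : IsCoprime (H.ip H.h v + x) x := by
    have := hc.symm.add_mul_left_left 1
    rwa [mul_one] at this
  have hpos : 0 < H.disc v := by
    rw [hd]
    have h1 : ¬ (x = 0 ∧ H.ip H.h v = 0) := by
      rintro ⟨h1, h2⟩
      rw [h1, h2] at hc
      exact not_isCoprime_zero_zero hc
    by_contra hcon
    push Not at hcon
    apply h1
    have hx : x = 0 := by
      nlinarith [sq_nonneg (2 * H.ip H.h v + 3 * x), sq_nonneg x]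
    refine ⟨hx, ?_⟩
    rw [hx] at hcon
    nlinarith [sq_nonneg (H.ip H.h v)]
  obtain ⟨w, M, l, hM, hs, hw⟩ := hH.exists_saturated v hpos
  have hdw : M ^ 2 * H.disc w = H.disc v := by
    rw [hw, hH.disc_comb]
  have hwh : H.IsHodge w := by
    apply H.isHodge_of_smul hM.ne'
    have : M • w = v - l • H.h := by rw [hw]; abel
    rw [this]
    exact H.isHodge_sub hv (H.isHodge_smul _ hH.h_hodge)
  have hd2 : M ^ 2 * H.disc w = 2 * ((H.ip H.h v + x) ^ 2 + (H.ip H.h v + x) * x + x ^ 2) :=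
    hdw.trans hd
  have hpw : 0 < H.disc w := by
    by_contra hcon
    push Not at hcon
    have : M ^ 2 * H.disc w ≤ 0 := mul_nonpos_of_nonneg_of_nonpos (by positivity) hcon
    linarith
  exact ⟨w, hwh, hs, hH.six_lt hwh hpw, four_ndvd hc' hd2, nine_ndvd hc' hd2,
    fun p hp hp2 hpd => prime_ndvd hc' hd2 hp hp2 hpd⟩

/-- **Addington–Thomas**: a hyperbolic plane gives an admissible discriminant -/
theorem hasK3_of_isK3 (hH : H.IsCohomology) (h : IsK3 H) : H.HasK3 := by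
  obtain ⟨x, v, y, u, hv, hu, h0, h1⟩ := h
  have hq : (muk hH).q (x, ⟨v, hv⟩) = 0 := by
    have h2 := cc_of_iso hH h0
    rw [q_eq]
    exact h2
  -- the second isotropic vector
  obtain ⟨e, he⟩ : ∃ e : ℤ × hodge H, e = (x, ⟨v, hv⟩) := ⟨_, rfl⟩
  obtain ⟨z, hz⟩ : ∃ z : ℤ × hodge H, z = (y, ⟨u, hu⟩) := ⟨_, rfl⟩
  rw [← he] at hq
  have hez : (muk hH).b e z = 1 := by rw [he, hz]; exact h1
  have hze : (muk hH).b z e = 1 := ((muk hH).b_comm _ _).trans hez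
  have hf : (muk hH).q (z - (muk hH).q z • e) = 0 := by
    rw [(muk hH).q_sub, (muk hH).q_smul, (muk hH).b_smul', hq, hze]
    ring
  have hef : (muk hH).b e (z - (muk hH).q z • e) = 1 := by
    rw [(muk hH).b_sub', (muk hH).b_smul', (muk hH).b_self, hq, hez]
    ring
  have hcch : cc H H.h = 3 := by
    have := two_cc hH H.h
    rw [hH.h_self] at this
    linarith
  have b1 : ∀ (s : ℤ) {t : Fin 23 → ℤ} (ht : H.IsHodge t),
      (muk hH).b (s, ⟨t, ht⟩) (1, ⟨0, H.isHodge_zero⟩) = 2 * s + H.ip H.h t := fun s t ht =>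
    b_one hH s ht
  have b2 : ∀ (s : ℤ) {t : Fin 23 → ℤ} (ht : H.IsHodge t),
      (muk hH).b (s, ⟨t, ht⟩) (-1, ⟨H.h, hH.h_hodge⟩) = s + H.ip H.h t := by
    intro s t ht
    rw [b_eq]
    simp only [hH.h_self, hH.comm t H.h]
    ring
  obtain ⟨⟨s, ⟨t, ht⟩⟩, hw0, hwc⟩ := (muk hH).exists_prim (l := (1, ⟨0, H.isHodge_zero⟩))
    (l' := (-1, ⟨H.h, hH.h_hodge⟩)) (e := e) (f := z - (muk hH).q z • e)
    (by
      rw [q_eq]
      simp only [ip_zero_right, cc]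
      norm_num)
    (by
      rw [q_eq, hcch, hH.h_self]
      norm_num)
    (by
      rw [b2, ip_zero_right, add_zero])
    (by
      rintro ⟨s, ⟨t, ht⟩⟩ h2 h3 h4
      replace h3 := (b1 s ht).symm.trans h3
      replace h4 := (b2 s ht).symm.trans h4
      replace h2 := (q_eq hH s ht).symm.trans h2
      have ha : H.ip H.h t = 0 := by linarith
      have hs : s = 0 := by linarith
      have ht0 : t = 0 := by
        by_contra hne
        have h5 := hH.pos t ht hne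
        have h6 := two_cc hH t
        rw [ha] at h6
        rw [hs, ha] at h2
        linarith
      subst hs
      subst ht0
      rfl) hq hf hef
  replace hw0 := (q_eq hH s ht).symm.trans hw0
  refine hasK3_of_coprime hH ht hw0 ?_
  obtain ⟨α, β, hαβ⟩ := hwc
  have hαβ' : α * (2 * s + H.ip H.h t) + β * (s + H.ip H.h t) = 1 :=
    (congrArg₂ (fun a b => α * a + β * b) (b1 s ht) (b2 s ht)).symm.trans hαβ
  exact ⟨2 * α + β, α + β, by linear_combination hαβ'⟩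

/-- **The local criterion for Hassett's discriminants.** -/
theorem hasK3_iff (hH : H.IsCohomology)
    (ht : ∃ v, H.IsHodge v ∧ H.disc v ≠ 0 ∧ ∃ m n : ℤ, H.disc v = 2 * (m ^ 2 + m * n + n ^ 2)) :
    H.HasK3 ↔ (∃ v, H.IsHodge v ∧ ¬ 4 ∣ H.disc v) ∧
      (∃ v, H.IsHodge v ∧ H.disc v % 9 ≠ 0 ∧ H.disc v % 9 ≠ 3) ∧
      ∀ p : ℕ, p.Prime → p ≠ 2 → p % 3 = 2 → ∃ v, H.IsHodge v ∧ ¬ (p : ℤ) ∣ H.disc v := by
  constructor
  · rintro ⟨v, hv, -, hd⟩
    refine ⟨⟨v, hv, hd.2.1⟩, ⟨v, hv, ?_⟩, fun p hp hp2 hp3 => ⟨v, hv, fun h =>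
      hd.2.2.2 p hp hp2 h hp3⟩⟩
    have h1 := admissible_mod hd (disc_even hH v)
    have h2 := disc_even hH v
    omega
  · rintro ⟨h2, h3, hp⟩
    exact hasK3_of_isK3 hH ((crit hH).2 ⟨(twisted_iff hH).2 ht, h2, h3, hp⟩)

/-- isotropic classes from discriminants -/
theorem exists_iso (hH : H.IsCohomology) {v : Fin 23 → ℤ} (hv : H.IsHodge v) {m n : ℤ}
    (h : H.disc v = 2 * (m ^ 2 + m * n + n ^ 2)) :
    ∃ u, H.IsHodge u ∧ pair H n u n u = 0 ∧ H.ip H.h u = m - n := by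
  obtain ⟨a, ha⟩ : ∃ a, a = H.ip H.h v := ⟨_, rfl⟩
  have h2 := disc_cc hH v
  rw [← ha] at h2
  have h3 : (3 : ℤ) ∣ (m - n - a) * (m - n + a) := by
    refine ⟨-cc H v - m * n, ?_⟩
    linarith
  have h4 : ∃ ε k : ℤ, ε * ε = 1 ∧ m - n = ε * a + 3 * k := by
    rcases Int.prime_three.dvd_or_dvd h3 with ⟨k, hk⟩ | ⟨k, hk⟩
    · exact ⟨1, k, by norm_num, by linear_combination hk⟩
    · exact ⟨-1, k, by norm_num, by linear_combination hk⟩
  obtain ⟨ε, k, hε, hk⟩ := h4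
  have hu : H.IsHodge (ε • v + k • H.h) :=
    H.isHodge_add (H.isHodge_smul _ hv) (H.isHodge_smul _ hH.h_hodge)
  have hau : H.ip H.h (ε • v + k • H.h) = m - n := by
    rw [ip_add_right, ip_smul_right, ip_smul_right, hH.h_self, ← ha, hk]
    ring
  have hdu : H.disc (ε • v + k • H.h) = H.disc v := by
    rw [hH.disc_comb]
    linear_combination H.disc v * hε
  refine ⟨ε • v + k • H.h, hu, ?_, hau⟩
  have h5 := disc_cc hH (ε • v + k • H.h)
  have h6 := two_cc hH (ε • v + k • H.h)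
  rw [hdu, h, hau] at h5
  rw [hau] at h6
  rw [pair, hau]
  linarith

theorem not_dvd_of_iso (hH : H.IsCohomology) {p : ℕ} (hp : p.Prime) {v : Fin 23 → ℤ}
    (hv : H.IsHodge v) {k m n : ℤ} (hk : ¬ (p : ℤ) ∣ k) (hmn : IsCoprime m n)
    (hd : H.disc v = 2 * k ^ 2 * (m ^ 2 + m * n + n ^ 2)) :
    ∃ x v y u, H.IsHodge v ∧ H.IsHodge u ∧ pair H x v x v = 0 ∧ ¬ (p : ℤ) ∣ pair H x v y u := by
  obtain ⟨u, hu, h1, h2⟩ := exists_iso hH hv (m := k * m) (n := k * n) (by rw [hd]; ring)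
  have hpi := Nat.prime_iff_prime_int.1 hp
  have e1 : pair H (k * n) u 1 0 = k * (m + n) := by
    rw [pair, ip_zero_right, ip_zero_right, h2]; ring
  have e2 : pair H (k * n) u (-1) H.h = k * m := by
    rw [pair, hH.h_self, hH.comm u H.h, h2]; ring
  by_cases h3 : (p : ℤ) ∣ pair H (k * n) u 1 0
  · refine ⟨k * n, u, -1, H.h, hu, hH.h_hodge, h1, fun h4 => ?_⟩
    rw [e1] at h3
    rw [e2] at h4
    have h5 := (hpi.dvd_or_dvd h3).resolve_left hk
    have h6 := (hpi.dvd_or_dvd h4).resolve_left hk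
    have h7 := (dvd_add_right h6).1 h5
    exact hpi.not_isUnit (hmn.isUnit_of_dvd' h6 h7)
  · exact ⟨k * n, u, 1, 0, hu, H.isHodge_zero, h1, h3⟩

/-- **Coprime orders, with discriminants.** -/
theorem hasK3_of_two (hH : H.IsCohomology) {v v' : Fin 23 → ℤ} (hv : H.IsHodge v)
    (hv' : H.IsHodge v') {k k' m n m' n' : ℤ} (hk : IsCoprime k k') (hmn : IsCoprime m n)
    (hmn' : IsCoprime m' n') (hd : H.disc v = 2 * k ^ 2 * (m ^ 2 + m * n + n ^ 2))
    (hd' : H.disc v' = 2 * k' ^ 2 * (m' ^ 2 + m' * n' + n' ^ 2)) : IsK3 H := by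
  refine coprime_orders hH fun p hp => ?_
  have hpi := Nat.prime_iff_prime_int.1 hp
  by_cases h : (p : ℤ) ∣ k
  · have h' : ¬ (p : ℤ) ∣ k' := fun h' => hpi.not_isUnit (hk.isUnit_of_dvd' h h')
    exact not_dvd_of_iso hH hp hv' h' hmn' hd'
  · exact not_dvd_of_iso hH hp hv h hmn hd

end Pool.Agent.Q76.LG
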