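import Pool.Agent.Q76.LG.Mukai
import Pool.Agent.Helper88.SE3.P_prim_rep

/-!
# Admissible numbers are primitively represented by the norm form
-/

set_option autoImplicit false

namespace Pool.Agent.Q76.LG

/-- lifting of roots of `x ^ 2 + x + 1` -/
theorem lift_root {p : ℕ} (hp : p.Prime) (h : p % 3 = 1) (k : ℕ) :
    ∃ x : ℤ, ((p : ℤ) ^ k) ∣ x ^ 2 + x + 1 ∧ ¬ (p : ℤ) ∣ 2 * x + 1 := by
  have hpi := Nat.prime_iff_prime_int.1 hp
  have hnd : ∀ x : ℤ, (p : ℤ) ∣ x ^ 2 + x + 1 → ¬ (p : ℤ) ∣ 2 * x + 1 := by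
    intro x h1 h2
    have h3 : (p : ℤ) ∣ 3 := by
      have h4 : (3 : ℤ) = 4 * (x ^ 2 + x + 1) - (2 * x + 1) * (2 * x + 1) := by ring
      rw [h4]
      exact dvd_sub (h1.mul_left _) (h2.mul_left _)
    have h5 : p ∣ 3 := by exact_mod_cast h3
    have h6 := (Nat.prime_dvd_prime_iff_eq hp Nat.prime_three).1 h5
    rw [h6] at h
    norm_num at h
  obtain ⟨w, hw⟩ := exists_omega hp h
  obtain ⟨x0, rfl⟩ := ZMod.intCast_surjective w
  have hx0 : (p : ℤ) ∣ x0 ^ 2 + x0 + 1 := by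
    rw [← ZMod.intCast_zmod_eq_zero_iff_dvd]
    push_cast
    exact hw
  have key : ∀ k : ℕ, ∃ x : ℤ, ((p : ℤ) ^ (k + 1)) ∣ x ^ 2 + x + 1 := by
    intro k
    induction k with
    | zero => exact ⟨x0, by simpa using hx0⟩
    | succ k ih =>
      obtain ⟨x, c, hc⟩ := ih
      have h1 : (p : ℤ) ∣ x ^ 2 + x + 1 := ⟨(p : ℤ) ^ k * c, by rw [hc]; ring⟩
      have h2 := hpi.coprime_iff_not_dvd.2 (hnd x h1)
      obtain ⟨α, β, hαβ⟩ := h2
      refine ⟨x - (p : ℤ) ^ (k + 1) * (β * c), ?_⟩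
      refine ⟨α * c + (p : ℤ) ^ k * (β * c) ^ 2, ?_⟩
      linear_combination hc - (p : ℤ) ^ (k + 1) * c * hαβ
  obtain ⟨x, hx⟩ := key k
  refine ⟨x, (pow_dvd_pow _ (Nat.le_succ k)).trans hx, hnd x ?_⟩
  exact (dvd_pow_self (p : ℤ) (Nat.succ_ne_zero k)).trans hx

theorem exists_root (n : ℕ) : 0 < n → ¬ 9 ∣ n → (∀ p : ℕ, p.Prime → p ∣ n → p % 3 ≠ 2) →
    ∃ x : ℤ, (n : ℤ) ∣ x ^ 2 + x + 1 := by
  induction n using Nat.recOnPosPrimePosCoprime with
  | prime_pow p k hp hk =>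
    intro _ h9 hp2
    have h2 := hp2 p hp (dvd_pow_self p hk.ne')
    rcases Nat.lt_or_ge k 2 with h | h
    · have hk1 : k = 1 := by omega
      subst hk1
      by_cases h3 : p % 3 = 0
      · have h4 := (Nat.prime_dvd_prime_iff_eq Nat.prime_three hp).1 (Nat.dvd_of_mod_eq_zero h3)
        subst h4
        exact ⟨1, by norm_num⟩
      · obtain ⟨x, hx, -⟩ := lift_root hp (by omega) 1
        exact ⟨x, by push_cast; exact hx⟩
    · have h3 : p % 3 ≠ 0 := by
        intro h3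
        have h4 := (Nat.prime_dvd_prime_iff_eq Nat.prime_three hp).1 (Nat.dvd_of_mod_eq_zero h3)
        subst h4
        apply h9
        have : (9 : ℕ) = 3 ^ 2 := by norm_num
        rw [this]
        exact pow_dvd_pow 3 h
      obtain ⟨x, hx, -⟩ := lift_root hp (by omega) k
      exact ⟨x, by push_cast; exact hx⟩
  | zero => intro h; exact absurd h (lt_irrefl 0)
  | one => intro _ _ _; exact ⟨0, by norm_num⟩
  | coprime a b ha hb hab iha ihb =>
    intro _ h9 hp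
    obtain ⟨x, hx⟩ := iha (by omega) (fun h => h9 (h.mul_right _))
      (fun p h1 h2 => hp p h1 (h2.mul_right _))
    obtain ⟨y, hy⟩ := ihb (by omega) (fun h => h9 (h.mul_left _))
      (fun p h1 h2 => hp p h1 (h2.mul_left _))
    have hc : IsCoprime (a : ℤ) (b : ℤ) := Nat.isCoprime_iff_coprime.2 hab
    obtain ⟨r, s, hrs⟩ := hc
    refine ⟨x + r * a * (y - x), ?_⟩
    push_cast
    refine IsCoprime.mul_dvd ⟨r, s, hrs⟩ ?_ ?_
    · obtain ⟨c, hc⟩ := hx
      refine ⟨c + r * (y - x) * (2 * x + 1 + r * a * (y - x)), ?_⟩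
      linear_combination hc
    · obtain ⟨c, hc⟩ := hy
      have e1 : x + r * a * (y - x) = y - s * b * (y - x) := by
        linear_combination (y - x) * hrs
      rw [e1]
      refine ⟨c - s * (y - x) * (2 * y + 1 - s * b * (y - x)), ?_⟩
      linear_combination hc

/-- primitive representations -/
theorem exists_rep {n : ℕ} (hn : 0 < n) (h9 : ¬ 9 ∣ n)
    (hp : ∀ p : ℕ, p.Prime → p ∣ n → p % 3 ≠ 2) :
    ∃ x y : ℤ, (n : ℤ) = x ^ 2 + x * y + y ^ 2 ∧ IsCoprime x y := by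
  obtain ⟨t, ht⟩ := exists_root n hn h9 hp
  have h1 := Pool.Agent.Helper88.SE.prim_rep n hn
  have h2 : 0 < Pool.Agent.Helper88.SE.rho n := by
    unfold Pool.Agent.Helper88.SE.rho
    rw [Finset.card_pos]
    refine ⟨(t % n).toNat, ?_⟩
    have hn' : (0 : ℤ) < n := by exact_mod_cast hn
    have h3 := Int.emod_nonneg t hn'.ne'
    have h4 := Int.emod_lt_of_pos t hn'
    have h5 : (((t % n).toNat : ℕ) : ℤ) = t % n := Int.toNat_of_nonneg h3
    rw [Finset.mem_filter, Finset.mem_range]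
    refine ⟨by omega, ?_⟩
    have h6 : (n : ℤ) ∣ (t % n) ^ 2 + (t % n) + 1 := by
      obtain ⟨c, hc⟩ := ht
      have h7 : t % n = t - n * (t / n) := by
        have := Int.emod_add_mul_ediv t n
        linarith
      rw [h7]
      refine ⟨c - (t / n) * (2 * t + 1 - n * (t / n)), ?_⟩
      linear_combination hc
    rw [← h5] at h6
    exact_mod_cast h6
  have h3 : Nat.card {z : ℤ × ℤ // Pool.Agent.Helper88.SE.hq z = n ∧ IsCoprime z.1 z.2} ≠ 0 := by
    rw [h1]; omega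
  obtain ⟨⟨⟨x, y⟩, hz, hc⟩⟩ := (Nat.card_ne_zero.1 h3).1
  exact ⟨x, y, hz.symm, hc⟩

end Pool.Agent.Q76.LG
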