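import Pool.Agent.Q76.LG.Mukai

/-!
# Twisted K3 surfaces and K3 surfaces: the local conditions
-/

set_option autoImplicit false

namespace Pool.Agent.Q76.LG

open Pool.Agent.Y95.Q Pool.Agent.Y95.Q.H4

variable {X : CubicFourfold} {H : H4 X}

theorem cc_add (hH : H.IsCohomology) (v u : Fin 23 → ℤ) :
    cc H (v + u) = cc H v + cc H u + (H.ip H.h v * H.ip H.h u - H.ip v u) := by
  have h1 := two_cc hH v
  have h2 := two_cc hH u
  have h3 := two_cc hH (v + u)
  simp only [ip_add_left, ip_add_right, hH.comm u v] at h3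
  linarith

theorem cc_of_iso (hH : H.IsCohomology) {x : ℤ} {v : Fin 23 → ℤ} (h : pair H x v x v = 0) :
    x ^ 2 + x * H.ip H.h v + cc H v = 0 := by
  have h1 := two_cc hH v
  rw [pair] at h
  linarith

theorem conv_two (hH : H.IsCohomology) (h : IsK3 H) : ∃ v, H.IsHodge v ∧ ¬ 4 ∣ H.disc v := by
  obtain ⟨x, v, y, u, hv, hu, h0, h1⟩ := h
  by_contra hcon
  push Not at hcon
  have key : ∀ t, H.IsHodge t → (H.ip H.h t + cc H t) % 2 = 0 := by
    intro t ht
    have h2 := hcon t ht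
    rw [disc_cc hH] at h2
    have hsq : H.ip H.h t ^ 2 % 2 = H.ip H.h t % 2 := by
      rcases Int.emod_two_eq_zero_or_one (H.ip H.h t) with h | h
      · rw [pow_two, Int.mul_emod, h]; norm_num
      · rw [pow_two, Int.mul_emod, h]; norm_num
    omega
  have hx := cc_of_iso hH h0
  have kv := key v hv
  have ku := key u hu
  have kvu := key (v + u) (H.isHodge_add hv hu)
  rw [cc_add hH, ip_add_right] at kvu
  rw [pair] at h1
  obtain ⟨a, ha⟩ : ∃ a, a = H.ip H.h v := ⟨_, rfl⟩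
  obtain ⟨b, hb⟩ : ∃ b, b = H.ip H.h u := ⟨_, rfl⟩
  obtain ⟨c, hc⟩ : ∃ c, c = cc H v := ⟨_, rfl⟩
  obtain ⟨d, hd⟩ : ∃ d, d = cc H u := ⟨_, rfl⟩
  obtain ⟨g, hg⟩ : ∃ g, g = H.ip v u := ⟨_, rfl⟩
  rw [← ha, ← hc] at hx kv
  rw [← hb, ← hd] at ku
  rw [← ha, ← hb, ← hc, ← hd, ← hg] at kvu
  rw [← ha, ← hb, ← hg] at h1
  rcases Int.even_or_odd' a with ⟨a', rfl | rfl⟩ <;> rcases Int.even_or_odd' x with ⟨x', rfl | rfl⟩
  · -- both even
    have e1 : 2 * a' * b = 2 * (a' * b) := by ring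
    have e2 : 2 * (2 * x') * y + 2 * x' * b + y * (2 * a') + 2 * a' * b - g =
      2 * (2 * x' * y + x' * b + y * a' + a' * b) - g := by ring
    rw [e2] at h1
    rw [e1] at kvu
    omega
  · have e1 : (2 * x' + 1) ^ 2 + (2 * x' + 1) * (2 * a') + c =
      2 * (2 * x' ^ 2 + 2 * x' + (2 * x' + 1) * a') + 1 + c := by ring
    rw [e1] at hx
    omega
  · have e1 : (2 * x') ^ 2 + (2 * x') * (2 * a' + 1) + c =
      2 * (2 * x' ^ 2 + x' * (2 * a' + 1)) + c := by ring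
    rw [e1] at hx
    omega
  · have e1 : (2 * x' + 1) ^ 2 + (2 * x' + 1) * (2 * a' + 1) + c =
      2 * (2 * x' ^ 2 + 2 * x' + (2 * x' + 1) * a' + x' + 1) + c := by ring
    rw [e1] at hx
    omega

theorem conv_three (hH : H.IsCohomology) (h : IsK3 H) :
    ∃ v, H.IsHodge v ∧ H.disc v % 9 ≠ 0 ∧ H.disc v % 9 ≠ 3 := by
  obtain ⟨x, v, y, u, hv, hu, h0, h1⟩ := h
  by_contra hcon
  push Not at hcon
  have key : ∀ t, H.IsHodge t → H.ip H.h t % 3 = 0 ∧ cc H t % 3 ≠ 2 := by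
    intro t ht
    have h2 := hcon t ht
    rw [disc_cc hH] at h2
    obtain ⟨a, ha⟩ : ∃ a, a = H.ip H.h t := ⟨_, rfl⟩
    obtain ⟨c, hc⟩ : ∃ c, c = cc H t := ⟨_, rfl⟩
    rw [← ha, ← hc] at h2 ⊢
    have ha3 : a % 3 = 0 := by
      by_contra ha3
      have hsq : (a ^ 2) % 3 = 1 := by
        rcases (show a % 3 = 1 ∨ a % 3 = 2 by omega) with h | h
        · rw [pow_two, Int.mul_emod, h]; norm_num
        · rw [pow_two, Int.mul_emod, h]; norm_num
      by_cases h3 : 2 * (a ^ 2 - 3 * c) % 9 = 0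
      · omega
      · have := h2 h3
        omega
    refine ⟨ha3, ?_⟩
    obtain ⟨a', rfl⟩ := Int.dvd_of_emod_eq_zero ha3
    have e : (2 * ((3 * a') ^ 2 - 3 * c)) = 9 * (2 * a' ^ 2) - 6 * c := by ring
    rw [e] at h2
    by_cases h3 : (9 * (2 * a' ^ 2) - 6 * c) % 9 = 0
    · omega
    · have := h2 h3
      omega
  have hx := cc_of_iso hH h0
  have kv := key v hv
  have ku := key u hu
  have kvu := key (v + u) (H.isHodge_add hv hu)
  have kvu2 := key (-v + u) (H.isHodge_add (H.isHodge_neg hv) hu)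
  have hneg : cc H (-v) = cc H v := by
    have h1 := two_cc hH v
    have h2 := two_cc hH (-v)
    simp only [ip_neg_left, ip_neg_right] at h2
    linarith
  rw [cc_add hH, ip_add_right] at kvu kvu2
  rw [hneg] at kvu2
  simp only [ip_neg_left, ip_neg_right] at kvu2
  rw [pair] at h1
  obtain ⟨a, ha⟩ : ∃ a, a = H.ip H.h v := ⟨_, rfl⟩
  obtain ⟨b, hb⟩ : ∃ b, b = H.ip H.h u := ⟨_, rfl⟩
  obtain ⟨c, hc⟩ : ∃ c, c = cc H v := ⟨_, rfl⟩
  obtain ⟨d, hd⟩ : ∃ d, d = cc H u := ⟨_, rfl⟩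
  obtain ⟨g, hg⟩ : ∃ g, g = H.ip v u := ⟨_, rfl⟩
  rw [← ha, ← hc] at hx kv
  rw [← hb, ← hd] at ku
  rw [← ha, ← hb, ← hc, ← hd, ← hg] at kvu kvu2
  rw [← ha, ← hb, ← hg] at h1
  obtain ⟨a', rfl⟩ := Int.dvd_of_emod_eq_zero kv.1
  obtain ⟨b', rfl⟩ := Int.dvd_of_emod_eq_zero ku.1
  have hx3 : x % 3 = 0 ∧ c % 3 = 0 := by
    have e : x ^ 2 + x * (3 * a') + c = x ^ 2 + 3 * (x * a') + c := by ring
    rw [e] at hx
    by_cases hx0 : x % 3 = 0
    · obtain ⟨x', rfl⟩ := Int.dvd_of_emod_eq_zero hx0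
      have e : (3 * x') ^ 2 = 3 * (3 * x' ^ 2) := by ring
      rw [e] at hx
      exact ⟨hx0, by omega⟩
    · have hsq : (x ^ 2) % 3 = 1 := by
        rcases (show x % 3 = 1 ∨ x % 3 = 2 by omega) with h | h
        · rw [pow_two, Int.mul_emod, h]; norm_num
        · rw [pow_two, Int.mul_emod, h]; norm_num
      have := kv.2
      omega
  obtain ⟨x', rfl⟩ := Int.dvd_of_emod_eq_zero hx3.1
  have e1 : 2 * (3 * x') * y + 3 * x' * (3 * b') + y * (3 * a') + 3 * a' * (3 * b') - g =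
      3 * (2 * x' * y + 3 * x' * b' + y * a' + 3 * a' * b') - g := by ring
  rw [e1] at h1
  have e2 : 3 * a' * (3 * b') = 3 * (3 * a' * b') := by ring
  have e3 : -(3 * a') * (3 * b') = 3 * (-3 * a' * b') := by ring
  rw [e2] at kvu
  rw [e3] at kvu2
  have := kvu.2
  have := kvu2.2
  have := hx3.2
  have := ku.2
  omega

theorem conv_p (hH : H.IsCohomology) (h : IsK3 H) {p : ℕ} (hp : p.Prime) (hp2 : p ≠ 2)
    (hp3 : p % 3 = 2) : ∃ v, H.IsHodge v ∧ ¬ (p : ℤ) ∣ H.disc v := by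
  have : Fact p.Prime := ⟨hp⟩
  obtain ⟨x, v, y, u, hv, hu, h0, h1⟩ := h
  by_contra hcon
  push Not at hcon
  have h2 : (2 : ZMod p) ≠ 0 := by
    intro h
    have h5 : ((2 : ℕ) : ZMod p) = 0 := by exact_mod_cast h
    rw [ZMod.natCast_eq_zero_iff] at h5
    exact hp2 ((Nat.prime_dvd_prime_iff_eq hp Nat.prime_two).1 h5)
  have h3 : (3 : ZMod p) ≠ 0 := by
    intro h
    have h5 : ((3 : ℕ) : ZMod p) = 0 := by exact_mod_cast h
    rw [ZMod.natCast_eq_zero_iff] at h5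
    have := (Nat.prime_dvd_prime_iff_eq hp Nat.prime_three).1 h5
    rw [this] at hp3
    norm_num at hp3
  have hx := cc_of_iso hH h0
  have kv := hcon v hv
  have ku := hcon u hu
  have kvu := hcon (v + u) (H.isHodge_add hv hu)
  rw [disc_cc hH, ← ZMod.intCast_zmod_eq_zero_iff_dvd] at kv ku kvu
  rw [cc_add hH, ip_add_right] at kvu
  rw [pair] at h1
  have hx' := congrArg (Int.cast : ℤ → ZMod p) hx
  have h1' := congrArg (Int.cast : ℤ → ZMod p) h1
  push_cast at kv ku kvu hx' h1'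
  obtain ⟨a, ha⟩ : ∃ a : ZMod p, a = (H.ip H.h v : ℤ) := ⟨_, rfl⟩
  obtain ⟨b, hb⟩ : ∃ b : ZMod p, b = (H.ip H.h u : ℤ) := ⟨_, rfl⟩
  obtain ⟨c, hc⟩ : ∃ c : ZMod p, c = (cc H v : ℤ) := ⟨_, rfl⟩
  obtain ⟨d, hd⟩ : ∃ d : ZMod p, d = (cc H u : ℤ) := ⟨_, rfl⟩
  obtain ⟨g, hg⟩ : ∃ g : ZMod p, g = (H.ip v u : ℤ) := ⟨_, rfl⟩
  obtain ⟨x0, hx0⟩ : ∃ x0 : ZMod p, x0 = (x : ℤ) := ⟨_, rfl⟩
  obtain ⟨y0, hy0⟩ : ∃ y0 : ZMod p, y0 = (y : ℤ) := ⟨_, rfl⟩
  rw [← ha, ← hc] at kv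
  rw [← hb, ← hd] at ku
  rw [← ha, ← hb, ← hc, ← hd, ← hg] at kvu
  rw [← ha, ← hc, ← hx0] at hx'
  rw [← ha, ← hb, ← hg, ← hx0, ← hy0] at h1'
  have kv' : a ^ 2 = 3 * c := by
    have := (mul_eq_zero.1 kv).resolve_left h2
    linear_combination this
  have ku' : b ^ 2 = 3 * d := by
    have := (mul_eq_zero.1 ku).resolve_left h2
    linear_combination this
  have kvu' : a * b = 3 * (a * b - g) - a * b := by
    have := (mul_eq_zero.1 kvu).resolve_left h2
    linear_combination this - kv' - ku'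
  -- `3 x0^2 + 3 x0 a + a^2 = 0`
  have hn : 3 * x0 ^ 2 + 3 * x0 * a + a ^ 2 = 0 := by linear_combination 3 * hx' + kv'
  have ha0 : a = 0 := by
    by_contra ha0
    -- `t = 3 x0 / a + 1`, `t^2 + t + 1 = ...`
    have h3a : (3 * x0 / a + 1) ^ 2 + (3 * x0 / a + 1) + 1 = 0 := by
      field_simp
      linear_combination 3 * hn
    set t := 3 * x0 / a + 1
    have h5 : t ^ 3 = 1 := by linear_combination (t - 1) * h3a
    have h6 : t ≠ 1 := by
      intro h7
      rw [h7] at h3a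
      apply h3
      linear_combination h3a
    have h7 : t ≠ 0 := by
      intro h8
      rw [h8] at h3a
      simp at h3a
    have h8 : orderOf t = 3 := by
      have : Fact (Nat.Prime 3) := ⟨Nat.prime_three⟩
      exact orderOf_eq_prime h5 h6
    have h9 := ZMod.orderOf_dvd_card_sub_one h7
    rw [h8] at h9
    have := hp.two_le
    omega
  have hx00 : x0 = 0 := by
    rw [ha0] at hn
    have : 3 * x0 ^ 2 = 0 := by linear_combination hn
    exact pow_eq_zero_iff (two_ne_zero) |>.1 ((mul_eq_zero.1 this).resolve_left h3)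
  rw [ha0] at kvu'
  have hg0 : g = 0 := by
    have : 3 * g = 0 := by linear_combination kvu'
    exact (mul_eq_zero.1 this).resolve_left h3
  rw [ha0, hx00, hg0] at h1'
  simp at h1'

/-- isotropic classes and discriminants -/
theorem twisted_iff (hH : H.IsCohomology) :
    IsTwistedK3 H ↔ ∃ v, H.IsHodge v ∧ H.disc v ≠ 0 ∧
      ∃ m n : ℤ, H.disc v = 2 * (m ^ 2 + m * n + n ^ 2) := by
  constructor
  · rintro ⟨x, v, hv, hne, h0⟩
    have h1 := cc_of_iso hH h0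
    have h2 := disc_cc hH v
    have h3 : H.disc v = 2 * ((H.ip H.h v + x) ^ 2 + (H.ip H.h v + x) * x + x ^ 2) := by
      rw [h2]
      linear_combination (-6) * h1
    refine ⟨v, hv, fun hd => ?_, _, _, h3⟩
    -- `3 v = (h.v) h`
    have h4 : H.ip (3 • v - H.ip H.h v • H.h) (3 • v - H.ip H.h v • H.h) = 3 * H.disc v := by
      have e : (3 • v : Fin 23 → ℤ) = (3 : ℤ) • v := by norm_num
      rw [e, disc]
      simp only [ip_sub_left, ip_sub_right, ip_smul_left, ip_smul_right, hH.h_self, hH.comm v H.h]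
      ring
    rw [hd, mul_zero] at h4
    have hhod : H.IsHodge (3 • v - H.ip H.h v • H.h) := by
      have e : (3 • v : Fin 23 → ℤ) = (3 : ℤ) • v := by norm_num
      rw [e]
      exact H.isHodge_sub (H.isHodge_smul _ hv) (H.isHodge_smul _ hH.h_hodge)
    have hz : (H.ip H.h v + x) ^ 2 + (H.ip H.h v + x) * x + x ^ 2 = 0 := by
      rw [hd] at h3
      linarith
    have hx : x = 0 := by nlinarith [sq_nonneg (2 * H.ip H.h v + 3 * x), sq_nonneg x]
    have ha : H.ip H.h v = 0 := by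
      rw [hx] at hz
      have : H.ip H.h v ^ 2 = 0 := by linear_combination hz
      exact pow_eq_zero_iff (two_ne_zero) |>.1 this
    have hv0 : v ≠ 0 := by
      rcases hne with h | h
      · exact absurd hx h
      · exact h
    have h5 := hH.pos v hv hv0
    rw [disc, ha] at hd
    linarith
  · rintro ⟨v, hv, hd, m, n, h⟩
    obtain ⟨a, ha⟩ : ∃ a, a = H.ip H.h v := ⟨_, rfl⟩
    have h2 := disc_cc hH v
    rw [← ha] at h2
    have h3 : (3 : ℤ) ∣ (m - n - a) * (m - n + a) := by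
      refine ⟨-cc H v - m * n, ?_⟩
      linarith
    -- `m - n = ε a + 3 k`
    have h4 : ∃ ε k : ℤ, ε * ε = 1 ∧ m - n = ε * a + 3 * k := by
      rcases Int.prime_three.dvd_or_dvd h3 with ⟨k, hk⟩ | ⟨k, hk⟩
      · exact ⟨1, k, by norm_num, by linear_combination hk⟩
      · exact ⟨-1, k, by norm_num, by linear_combination hk⟩
    obtain ⟨ε, k, hε, hk⟩ := h4
    have hu : H.IsHodge (ε • v + k • H.h) :=
      H.isHodge_add (H.isHodge_smul _ hv) (H.isHodge_smul _ hH.h_hodge)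
    have hau : H.ip H.h (ε • v + k • H.h) = m - n := by
      rw [ip_add_right, ip_smul_right, ip_smul_right, hH.h_self, ← ha, hk]
      ring
    have hdu : H.disc (ε • v + k • H.h) = H.disc v := by
      rw [hH.disc_comb]
      linear_combination H.disc v * hε
    refine ⟨n, ε • v + k • H.h, hu, ?_, ?_⟩
    · by_contra hcon
      push Not at hcon
      apply hd
      rw [← hdu, hcon.2, disc]
      simp [ip_zero_right]
    · have h5 := disc_cc hH (ε • v + k • H.h)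
      have h6 := two_cc hH (ε • v + k • H.h)
      rw [hdu, h, hau] at h5
      rw [hau] at h6
      rw [pair, hau]
      linarith

/-- **The local criterion.** -/
theorem crit (hH : H.IsCohomology) :
    IsK3 H ↔ IsTwistedK3 H ∧ (∃ v, H.IsHodge v ∧ ¬ 4 ∣ H.disc v) ∧
      (∃ v, H.IsHodge v ∧ H.disc v % 9 ≠ 0 ∧ H.disc v % 9 ≠ 3) ∧
      ∀ p : ℕ, p.Prime → p ≠ 2 → p % 3 = 2 → ∃ v, H.IsHodge v ∧ ¬ (p : ℤ) ∣ H.disc v := by
  constructor
  · intro h
    refine ⟨?_, conv_two hH h, conv_three hH h, fun p hp hp2 hp3 => conv_p hH h hp hp2 hp3⟩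
    obtain ⟨x, v, y, u, hv, hu, h0, h1⟩ := h
    refine ⟨x, v, hv, ?_, h0⟩
    by_contra hcon
    push Not at hcon
    rw [hcon.1, hcon.2, pair] at h1
    simp [ip_zero_left, ip_zero_right] at h1
  · rintro ⟨ht, h2, h3, hp⟩
    refine isK3_of_local hH ht fun p hpp => ?_
    by_cases hp2 : p = 2
    · subst hp2
      exact local_two hH h2
    by_cases hp3 : p = 3
    · subst hp3
      exact local_three hH h3
    rcases (show p % 3 = 0 ∨ p % 3 = 1 ∨ p % 3 = 2 by omega) with h | h | h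
    · exact absurd ((Nat.prime_dvd_prime_iff_eq Nat.prime_three hpp).1
        (Nat.dvd_of_mod_eq_zero h)).symm hp3
    · exact local_one_mod hH hpp h
    · exact local_two_mod hH hpp hp2 hp3 (hp p hpp hp2 h)

/-- **Coprime orders.** -/
theorem coprime_orders (hH : H.IsCohomology)
    (h : ∀ p : ℕ, p.Prime → ∃ x v y u, H.IsHodge v ∧ H.IsHodge u ∧ pair H x v x v = 0 ∧
      ¬ (p : ℤ) ∣ pair H x v y u) : IsK3 H := by
  refine isK3_of_local hH ?_ fun p hp => ?_
  · obtain ⟨x, v, y, u, hv, hu, h0, h1⟩ := h 2 Nat.prime_two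
    refine ⟨x, v, hv, ?_, h0⟩
    by_contra hcon
    push Not at hcon
    rw [hcon.1, hcon.2, pair] at h1
    simp [ip_zero_left, ip_zero_right] at h1
  · obtain ⟨x, v, y, u, hv, hu, h0, h1⟩ := h p hp
    refine ⟨(x, ⟨v, hv⟩), (y, ⟨u, hu⟩), ?_, h1⟩
    have h2 := (muk hH).b_self (x, ⟨v, hv⟩)
    have h3 : (muk hH).b (x, ⟨v, hv⟩) (x, ⟨v, hv⟩) = pair H x v x v := rfl
    rw [h3, h0] at h2
    have h4 : (muk hH).q (x, ⟨v, hv⟩) = 0 := by linarith
    rw [h4]
    exact dvd_zero _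

end Pool.Agent.Q76.LG
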