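import Mathlib

/-!
# A Hasse principle for isotropic vectors of divisibility one
-/

set_option autoImplicit false

namespace Pool.Agent.Q76.LG

/-- an integral quadratic form `q` with its polar form `b` -/
structure IQ (L : Type*) [AddCommGroup L] where
  /-- the quadratic form -/
  q : L → ℤ
  /-- the bilinear form -/
  b : L → L → ℤ
  b_add : ∀ x y z, b (x + y) z = b x z + b y z
  b_comm : ∀ x y, b x y = b y x
  q_add : ∀ x y, q (x + y) = q x + q y + b x y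
  q_smul : ∀ (n : ℤ) x, q (n • x) = n ^ 2 * q x

namespace IQ

variable {L : Type*} [AddCommGroup L] (Q : IQ L)

theorem b_add' (x y z : L) : Q.b x (y + z) = Q.b x y + Q.b x z := by
  rw [Q.b_comm, Q.b_add, Q.b_comm y, Q.b_comm z]

/-- `b x` as a homomorphism -/
def bh (x : L) : L →+ ℤ where
  toFun := Q.b x
  map_zero' := by
    have := Q.b_add' x 0 0
    rw [add_zero] at this
    linarith
  map_add' := Q.b_add' x

theorem b_smul' (n : ℤ) (x y : L) : Q.b x (n • y) = n * Q.b x y := by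
  have := (Q.bh x).map_zsmul n y
  rw [smul_eq_mul] at this
  exact this

theorem b_smul (n : ℤ) (x y : L) : Q.b (n • x) y = n * Q.b x y := by
  rw [Q.b_comm, Q.b_smul', Q.b_comm]

theorem b_self (x : L) : Q.b x x = 2 * Q.q x := by
  have h1 := Q.q_add x x
  have h2 := Q.q_smul 2 x
  rw [two_smul] at h2
  linarith

theorem b_sub (x y z : L) : Q.b (x - y) z = Q.b x z - Q.b y z := by
  have h := Q.b_add (x - y) y z
  rw [sub_add_cancel] at h
  linarith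

theorem b_sub' (x y z : L) : Q.b x (y - z) = Q.b x y - Q.b x z := by
  have h := Q.b_add' x (y - z) z
  rw [sub_add_cancel] at h
  linarith

theorem q_sub (x y : L) : Q.q (x - y) = Q.q x + Q.q y - Q.b x y := by
  have h := Q.q_add (x - y) y
  rw [sub_add_cancel, Q.b_sub, Q.b_self] at h
  linarith

/-- Hensel's lemma -/
theorem lift {p : ℕ} (hp : p.Prime) {z : L} (h : ∃ u, (p : ℤ) ∣ Q.q u ∧ ¬ (p : ℤ) ∣ Q.b u z)
    (N : ℕ) : ∃ u, (p : ℤ) ^ (N + 1) ∣ Q.q u ∧ ¬ (p : ℤ) ∣ Q.b u z := by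
  induction N with
  | zero => simpa using h
  | succ N ih =>
    obtain ⟨u, ⟨a, ha⟩, h2⟩ := ih
    obtain ⟨c, d, hcd⟩ : IsCoprime (p : ℤ) (Q.b u z) :=
      (Nat.prime_iff_prime_int.1 hp).coprime_iff_not_dvd.2 h2
    -- `c * p + d * b = 1`
    refine ⟨u + (-(Q.q u) * d) • z, ?_, ?_⟩
    · rw [Q.q_add, Q.b_smul', Q.q_smul]
      refine ⟨a * c + (p : ℤ) ^ N * a ^ 2 * d ^ 2 * Q.q z, ?_⟩
      have e1 : Q.q u + (-(Q.q u) * d) ^ 2 * Q.q z + (-(Q.q u) * d) * Q.b u z =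
          Q.q u * (1 - d * Q.b u z) + (Q.q u) ^ 2 * d ^ 2 * Q.q z := by ring
      have e2 : 1 - d * Q.b u z = c * p := by linear_combination - hcd
      rw [e1, e2, ha]
      ring
    · rw [Q.b_add, Q.b_smul, Q.b_self]
      intro h3
      apply h2
      have h4 : (p : ℤ) ∣ -(Q.q u) * d * (2 * Q.q z) := by
        rw [ha]
        exact ⟨-((p : ℤ) ^ N * a * d * (2 * Q.q z)), by ring⟩
      exact (dvd_add_left h4).1 h3

/-- the local step: an isotropic vector with unimodular partner, not too divisible against `w` -/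
theorem local1 {p : ℕ} (hp : p.Prime) {w z0 : L} {N : ℕ}
    (h0 : ¬ (p : ℤ) ^ (N + 1) ∣ Q.b w z0)
    (h : ∃ u z, (p : ℤ) ∣ Q.q u ∧ ¬ (p : ℤ) ∣ Q.b u z) :
    ∃ u z, (p : ℤ) ^ (N + 1) ∣ Q.q u ∧ ¬ (p : ℤ) ∣ Q.b u z ∧ ¬ (p : ℤ) ^ (N + 1) ∣ Q.b w u := by
  obtain ⟨u', z, h1, h2⟩ := h
  obtain ⟨u, h3, h4⟩ := Q.lift hp ⟨u', h1, h2⟩ N
  clear h1 h2 u'
  obtain ⟨P, hP⟩ : ∃ P : ℤ, P = (p : ℤ) ^ (N + 1) := ⟨_, rfl⟩
  have hpP : (p : ℤ) ∣ P := hP ▸ dvd_pow_self _ (Nat.succ_ne_zero N)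
  rw [← hP] at h0 h3 ⊢
  obtain ⟨c, d, hcd⟩ : IsCoprime P (Q.b u z) := by
    rw [hP]
    exact ((Nat.prime_iff_prime_int.1 hp).coprime_iff_not_dvd.2 h4).pow_left
  obtain ⟨a, ha⟩ := h3
  -- the partner
  obtain ⟨x, hx⟩ : ∃ x, x = d • z := ⟨_, rfl⟩
  have hux : Q.b u x = 1 - P * c := by
    rw [hx, Q.b_smul']
    linear_combination hcd
  obtain ⟨y, hy⟩ : ∃ y, y = x - (Q.q x) • u := ⟨_, rfl⟩
  have hxu : Q.b x u = 1 - P * c := (Q.b_comm _ _).trans hux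
  have huy : Q.b u y = 1 + P * (- c - 2 * Q.q x * a) := by
    rw [hy, Q.b_sub', Q.b_smul', Q.b_self, hux, ha]
    ring
  have hqy : Q.q y = P * (Q.q x * c + (Q.q x) ^ 2 * a) := by
    rw [hy, Q.q_sub, Q.q_smul, Q.b_smul', hxu, ha]
    ring
  obtain ⟨e, he⟩ : ∃ e, e = - c - 2 * Q.q x * a := ⟨_, rfl⟩
  obtain ⟨f, hf⟩ : ∃ f, f = Q.q x * c + (Q.q x) ^ 2 * a := ⟨_, rfl⟩
  rw [← he] at huy
  rw [← hf] at hqy
  have hyu : Q.b y u = 1 + P * e := (Q.b_comm _ _).trans huy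
  have hunit : ∀ g : ℤ, ¬ (p : ℤ) ∣ 1 + P * g := by
    intro g hg
    have h5 : (p : ℤ) ∣ 1 := (dvd_add_left (hpP.mul_right g)).1 hg
    exact (Nat.prime_iff_prime_int.1 hp).not_isUnit (isUnit_of_dvd_one h5)
  by_cases c1 : P ∣ Q.b w u
  swap
  · exact ⟨u, z, ⟨a, ha⟩, h4, c1⟩
  by_cases c2 : P ∣ Q.b w y
  swap
  · exact ⟨y, u, ⟨f, hqy⟩, by rw [hyu]; exact hunit e, c2⟩
  -- the transvection
  obtain ⟨v, hv⟩ : ∃ v, v = z0 - (Q.b z0 y) • u - (Q.b z0 u) • y := ⟨_, rfl⟩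
  have huz : Q.b u z0 = Q.b z0 u := Q.b_comm _ _
  have hyz : Q.b y z0 = Q.b z0 y := Q.b_comm _ _
  have huv : Q.b u v = P * (- Q.b z0 u * e - 2 * Q.b z0 y * a) := by
    rw [hv, Q.b_sub', Q.b_sub', Q.b_smul', Q.b_smul', Q.b_self, huy, huz, ha]
    ring
  have hvy : Q.b v y = P * (- Q.b z0 y * e - 2 * Q.b z0 u * f) := by
    rw [hv, Q.b_sub, Q.b_sub, Q.b_smul, Q.b_smul, Q.b_self, huy, hqy]
    ring
  refine ⟨u + v - (Q.q v) • y, y, ?_, ?_, ?_⟩
  · rw [Q.q_sub, Q.q_add, Q.q_smul, Q.b_smul', Q.b_add, huy, huv, hvy, hqy, ha]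
    refine ⟨a + (- Q.b z0 u * e - 2 * Q.b z0 y * a) + (Q.q v) ^ 2 * f
      - Q.q v * (e + (- Q.b z0 y * e - 2 * Q.b z0 u * f)), ?_⟩
    ring
  · rw [Q.b_sub, Q.b_add, Q.b_smul, Q.b_self, huy, hvy, hqy]
    have : 1 + P * e + P * (- Q.b z0 y * e - 2 * Q.b z0 u * f) - Q.q v * (2 * (P * f)) =
        1 + P * (e + (- Q.b z0 y * e - 2 * Q.b z0 u * f) - Q.q v * (2 * f)) := by ring
    rw [this]
    exact hunit _
  · rw [Q.b_sub', Q.b_add', Q.b_smul', hv, Q.b_sub', Q.b_sub', Q.b_smul', Q.b_smul']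
    intro h6
    apply h0
    obtain ⟨r, hr⟩ := c1
    obtain ⟨s, hs⟩ := c2
    obtain ⟨t, ht⟩ := h6
    rw [← hv] at ht
    rw [hr, hs] at ht
    exact ⟨t - r + Q.b z0 y * r + Q.b z0 u * s + Q.q v * s, by linear_combination ht⟩

/-- the local step, with the right product with `w` -/
theorem local2 {p : ℕ} (hp : p.Prime) {w z0 : L} {N : ℕ}
    (hdiv : ∀ z, Q.b w z0 ∣ Q.b w z)
    (h0 : ¬ (p : ℤ) ^ (N + 1) ∣ Q.b w z0) (hN : (p : ℤ) ^ N ∣ Q.b w z0)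
    (h : ∃ u z, (p : ℤ) ∣ Q.q u ∧ ¬ (p : ℤ) ∣ Q.b u z) :
    ∃ t z, Q.b w t = 0 ∧ (p : ℤ) ^ (N + 1) ∣ Q.q (z0 + t) ∧ ¬ (p : ℤ) ∣ Q.b (z0 + t) z := by
  obtain ⟨u, z, h1, h2, h3⟩ := Q.local1 hp h0 h
  obtain ⟨c, hc⟩ := hdiv u
  have hpi := Nat.prime_iff_prime_int.1 hp
  have hpc : ¬ (p : ℤ) ∣ c := by
    rintro ⟨d, rfl⟩
    obtain ⟨e, he⟩ := hN
    exact h3 ⟨e * d, by rw [hc, he]; ring⟩
  obtain ⟨r, s, hrs⟩ : IsCoprime ((p : ℤ) ^ (N + 1)) c := (hpi.coprime_iff_not_dvd.2 hpc).pow_left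
  -- `r * P + s * c = 1`
  have e0 : z0 + (s • u + (1 - s * c) • z0 - z0) = s • u + (r * (p : ℤ) ^ (N + 1)) • z0 := by
    have : 1 - s * c = r * (p : ℤ) ^ (N + 1) := by linear_combination - hrs
    rw [this]
    abel
  refine ⟨s • u + (1 - s * c) • z0 - z0, z, ?_, ?_, ?_⟩
  · rw [Q.b_sub', Q.b_add', Q.b_smul', Q.b_smul', hc]
    ring
  · rw [e0, Q.q_add, Q.q_smul, Q.q_smul, Q.b_smul', Q.b_smul]
    obtain ⟨a, ha⟩ := h1
    rw [ha]
    exact ⟨s ^ 2 * a + r ^ 2 * (p : ℤ) ^ (N + 1) * Q.q z0 + r * (s * Q.b u z0), by ring⟩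
  · rw [e0, Q.b_add, Q.b_smul, Q.b_smul]
    intro h4
    have h5 : (p : ℤ) ∣ r * (p : ℤ) ^ (N + 1) * Q.b z0 z :=
      ((dvd_pow_self _ (Nat.succ_ne_zero N)).mul_left r).mul_right _
    have h6 := (dvd_add_left h5).1 h4
    rcases hpi.dvd_or_dvd h6 with h7 | h7
    · have h8 : (p : ℤ) ∣ 1 := by
        rw [← hrs]
        exact dvd_add ((dvd_pow_self _ (Nat.succ_ne_zero N)).mul_left r) (h7.mul_right c)
      exact hpi.not_isUnit (isUnit_of_dvd_one h8)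
    · exact h2 h7

/-- the condition at `p` is a congruence condition -/
def GoodAt (p : ℕ) (N : ℕ) (u : L) : Prop :=
  (p : ℤ) ^ (N + 1) ∣ Q.q u ∧ ∃ z, ¬ (p : ℤ) ∣ Q.b u z

theorem GoodAt.congr {p N : ℕ} {u : L} (h : Q.GoodAt p N u) {c : ℤ}
    (hc : (p : ℤ) ^ (N + 1) ∣ c) (y : L) : Q.GoodAt p N (u + c • y) := by
  obtain ⟨h1, z, h2⟩ := h
  refine ⟨?_, z, ?_⟩
  · rw [Q.q_add, Q.q_smul, Q.b_smul']
    refine dvd_add (dvd_add h1 ?_) (hc.mul_right _)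
    rw [pow_two]
    exact (hc.mul_right _).mul_right _
  · rw [Q.b_add, Q.b_smul]
    intro h3
    have h4 : (p : ℤ) ∣ c * Q.b y z := ((dvd_pow_self _ (Nat.succ_ne_zero N)).trans hc).mul_right _
    exact h2 ((dvd_add_left h4).1 h3)

theorem glue {w z0 : L} (N : ℕ → ℕ) (S : Finset ℕ) (hS : ∀ p ∈ S, p.Prime)
    (h : ∀ p ∈ S, ∃ t, Q.b w t = 0 ∧ Q.GoodAt p (N p) (z0 + t)) :
    ∃ t, Q.b w t = 0 ∧ ∀ p ∈ S, Q.GoodAt p (N p) (z0 + t) := by
  classical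
  induction S using Finset.induction_on with
  | empty => exact ⟨0, (Q.bh w).map_zero, by simp⟩
  | insert p S hp ih =>
    obtain ⟨t, ht, hS'⟩ := ih (fun q hq => hS q (Finset.mem_insert_of_mem hq))
      (fun q hq => h q (Finset.mem_insert_of_mem hq))
    obtain ⟨t', ht', hp'⟩ := h p (Finset.mem_insert_self _ _)
    have hcop : IsCoprime ((p : ℤ) ^ (N p + 1)) (∏ q ∈ S, (q : ℤ) ^ (N q + 1)) := by
      refine IsCoprime.prod_right fun q hq => ?_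
      refine IsCoprime.pow ?_
      rw [Nat.isCoprime_iff_coprime]
      exact (Nat.coprime_primes (hS p (Finset.mem_insert_self _ _))
        (hS q (Finset.mem_insert_of_mem hq))).2 fun e => hp (e ▸ hq)
    obtain ⟨r, s, hrs⟩ := hcop
    set M := ∏ q ∈ S, (q : ℤ) ^ (N q + 1) with hM
    -- `t + (s * M) • (t' - t)`
    refine ⟨t + (s * M) • (t' - t), ?_, ?_⟩
    · rw [Q.b_add', Q.b_smul', Q.b_sub', ht, ht']
      ring
    · intro q hq
      rcases Finset.mem_insert.1 hq with rfl | hq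
      · have e1 : z0 + (t + (s * M) • (t' - t)) = (z0 + t') + (r * (q : ℤ) ^ (N q + 1)) • (t - t') := by
          have : s * M = 1 - r * (q : ℤ) ^ (N q + 1) := by linear_combination hrs
          rw [this, sub_smul, one_smul]
          simp only [smul_sub]
          abel
        rw [e1]
        exact hp'.congr _ (dvd_mul_left _ _) _
      · rw [← add_assoc]
        exact (hS' q hq).congr _ ((Finset.dvd_prod_of_mem (fun q : ℕ => (q : ℤ) ^ (N q + 1)) hq).mul_left s) _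

/-- **A Hasse principle.** If there is an isotropic vector which is not in the radical, and for
each prime number a nonsingular zero of `q` modulo `p`, then there is an isotropic vector `w'` with
`b(w', z) = 1` for some `z`. -/
theorem hasse {w : L} (hw : Q.q w = 0) (hw0 : ∃ z, Q.b w z ≠ 0)
    (hloc : ∀ p : ℕ, p.Prime → ∃ u z, (p : ℤ) ∣ Q.q u ∧ ¬ (p : ℤ) ∣ Q.b u z) :
    ∃ w' z, Q.q w' = 0 ∧ Q.b w' z = 1 := by
  classical
  obtain ⟨m, z0, hm0, hm, hdiv⟩ : ∃ (m : ℤ) (z0 : L), m ≠ 0 ∧ Q.b w z0 = m ∧ ∀ z, m ∣ Q.b w z := by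
    obtain ⟨g, hg⟩ := Int.subgroup_cyclic (Q.bh w).range
    have h1 : ∀ z, g ∣ Q.b w z := by
      intro z
      have : (Q.bh w) z ∈ (Q.bh w).range := ⟨z, rfl⟩
      rw [hg, AddSubgroup.mem_closure_singleton] at this
      obtain ⟨n, hn⟩ := this
      exact ⟨n, by rw [mul_comm, ← smul_eq_mul]; exact hn.symm⟩
    have h2 : g ∈ (Q.bh w).range := by
      rw [hg]; exact AddSubgroup.mem_closure_singleton.2 ⟨1, by simp⟩
    obtain ⟨z0, hz0⟩ := h2
    refine ⟨g, z0, ?_, hz0, h1⟩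
    rintro rfl
    obtain ⟨z, hz⟩ := hw0
    exact hz (zero_dvd_iff.1 (h1 z))
  let S := m.natAbs.primeFactors
  let N : ℕ → ℕ := fun p => m.natAbs.factorization p
  have hmn : m.natAbs ≠ 0 := Int.natAbs_ne_zero.2 hm0
  have hpow : ∀ (p k : ℕ), (p : ℤ) ^ k ∣ m ↔ p ^ k ∣ m.natAbs := by
    intro p k
    rw [← Int.natCast_pow, Int.natCast_dvd]
  obtain ⟨t, ht, hgood⟩ := Q.glue (w := w) (z0 := z0) N S (fun p hp => Nat.prime_of_mem_primeFactors hp)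
    (fun p hp => by
      have hpp := Nat.prime_of_mem_primeFactors hp
      obtain ⟨t, z, h1, h2, h3⟩ := Q.local2 hpp (w := w) (z0 := z0) (N := N p)
        (by rw [hm]; exact hdiv)
        (by rw [hm, hpow, hpp.pow_dvd_iff_le_factorization hmn]; exact Nat.not_succ_le_self _)
        (by rw [hm, hpow]; exact Nat.ordProj_dvd _ _) (hloc p hpp)
      exact ⟨t, h1, h2, z, h3⟩)
  obtain ⟨u, hu⟩ : ∃ u, u = z0 + t := ⟨_, rfl⟩
  rw [← hu] at hgood
  have hwu : Q.b w u = m := by rw [hu, Q.b_add', ht, hm, add_zero]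
  have hmq : m ∣ Q.q u := by
    rw [← Int.natAbs_dvd_natAbs, Nat.dvd_iff_prime_pow_dvd_dvd]
    intro p k hp hk
    rcases Nat.eq_zero_or_pos k with rfl | hk0
    · simp
    · have hpS : p ∈ S := Nat.mem_primeFactors.2 ⟨hp, (dvd_pow_self p hk0.ne').trans hk, hmn⟩
      have h1 := (hgood p hpS).1
      rw [← Int.natCast_pow, Int.natCast_dvd] at h1
      refine (pow_dvd_pow p ?_).trans h1
      exact ((hp.pow_dvd_iff_le_factorization hmn).1 hk).trans (Nat.le_succ _)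
  obtain ⟨s, hs⟩ := hmq
  obtain ⟨w', hw'⟩ : ∃ w', w' = u - s • w := ⟨_, rfl⟩
  have hq' : Q.q w' = 0 := by
    rw [hw', Q.q_sub, Q.q_smul, hw, Q.b_smul', Q.b_comm, hwu, hs]
    ring
  have hb' : ∀ z, Q.b w' z = Q.b u z - s * Q.b w z := by
    intro z
    rw [hw', Q.b_sub, Q.b_smul]
  refine ⟨w', ?_⟩
  obtain ⟨g, hg⟩ := Int.subgroup_cyclic (Q.bh w').range
  have h1 : ∀ z, g ∣ Q.b w' z := by
    intro z
    have : (Q.bh w') z ∈ (Q.bh w').range := ⟨z, rfl⟩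
    rw [hg, AddSubgroup.mem_closure_singleton] at this
    obtain ⟨n, hn⟩ := this
    exact ⟨n, by rw [mul_comm, ← smul_eq_mul]; exact hn.symm⟩
  have h2 : (1 : ℤ) ∈ (Q.bh w').range := by
    rw [hg, AddSubgroup.mem_closure_singleton]
    have hg1 : g.natAbs = 1 := by
      by_contra hne
      obtain ⟨p, hp, hpg⟩ := Nat.exists_prime_and_dvd hne
      have hpg' : (p : ℤ) ∣ g := Int.natCast_dvd.2 hpg
      by_cases hpm : (p : ℤ) ∣ m
      · have hpS : p ∈ S := Nat.mem_primeFactors.2 ⟨hp, Int.natCast_dvd.1 hpm, hmn⟩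
        obtain ⟨h3, z, h4⟩ := hgood p hpS
        have h5 : (p : ℤ) ∣ s := by
          -- `p ^ (N p + 1) ∣ m * s`
          rw [hs] at h3
          have h6 : ¬ (p : ℤ) ^ (N p + 1) ∣ m := by
            rw [hpow, hp.pow_dvd_iff_le_factorization hmn]; exact Nat.not_succ_le_self _
          obtain ⟨m', hm'⟩ : (p : ℤ) ^ (N p) ∣ m := by
            rw [hpow]; exact Nat.ordProj_dvd _ _
          have hpi := Nat.prime_iff_prime_int.1 hp
          have h7 : ¬ (p : ℤ) ∣ m' := by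
            rintro ⟨e, he⟩
            exact h6 ⟨e, by rw [hm', he]; ring⟩
          have h8 : (p : ℤ) ^ (N p) * p ∣ (p : ℤ) ^ (N p) * (m' * s) := by
            rw [← pow_succ, ← mul_assoc, ← hm']
            exact h3
          have h9 := Int.dvd_of_mul_dvd_mul_left (pow_ne_zero _ hpi.ne_zero) h8
          exact (hpi.dvd_or_dvd h9).resolve_left h7
        have h6 := hpg'.trans (h1 z)
        rw [hb' z] at h6
        exact h4 ((dvd_sub_left (h5.mul_right _)).1 h6)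
      · apply hpm
        have h3 := hpg'.trans (h1 w)
        rw [hb' w, Q.b_self, hw, Q.b_comm u w, hwu] at h3
        simpa using h3
    rcases Int.natAbs_eq g with h | h
    · exact ⟨1, by rw [h, hg1]; simp⟩
    · exact ⟨-1, by rw [h, hg1]; simp⟩
  obtain ⟨z, hz⟩ := h2
  exact ⟨z, hq', hz⟩

end IQ

end Pool.Agent.Q76.LG
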