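import Pool.Agent.Q76.LG.RankFour
import Pool.Agent.Q76.LG.Adm

/-!
# Cubic fourfolds with one admissible discriminant have infinitely many, in rank at least three
-/

set_option autoImplicit false

namespace Pool.Agent.Q76.LG

open Pool.Agent.Y95.Q Pool.Agent.Y95.Q.H4 Pool.Agent.Q76.FH

variable {X : CubicFourfold} {H : H4 X}

/-- the isotropic class of an admissible discriminant -/
theorem coprime_of_hasK3 (hH : H.IsCohomology) (h : H.HasK3) :
    ∃ (s : ℤ) (t : Fin 23 → ℤ), H.IsHodge t ∧ s ^ 2 + s * H.ip H.h t + cc H t = 0 ∧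
      IsCoprime s (H.ip H.h t) := by
  obtain ⟨v, hv, -, h6, h4, h9, hp⟩ := h
  have he := disc_even hH v
  obtain ⟨n, hn⟩ : ∃ n : ℕ, H.disc v = 2 * n := ⟨(H.disc v / 2).toNat, by omega⟩
  have hn0 : 0 < n := by omega
  obtain ⟨x, y, hxy, hc⟩ := exists_rep hn0 (fun h => h9 (by
      rw [hn]
      obtain ⟨c, rfl⟩ := h
      exact ⟨2 * c, by push_cast; ring⟩))
    (fun p h1 h2 => by
      by_cases h3 : p = 2
      · subst h3
        exfalso
        apply h4
        rw [hn]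
        obtain ⟨c, rfl⟩ := h2
        exact ⟨c, by push_cast; ring⟩
      · refine hp p h1 h3 ?_
        rw [hn]
        exact (Int.natCast_dvd_natCast.2 h2).mul_left _)
  obtain ⟨u, hu, h1, h2⟩ := exists_iso hH hv (m := x) (n := y) (by rw [hn, hxy])
  refine ⟨y, u, hu, cc_of_iso hH h1, ?_⟩
  rw [h2]
  obtain ⟨a, b, hab⟩ := hc
  exact ⟨a + b, a, by linear_combination hab⟩

/-- a primitive isotropic class gives an admissible discriminant -/
theorem exists_adm (hH : H.IsCohomology) {x : ℤ} {v : Fin 23 → ℤ} (hv : H.IsHodge v)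
    (h0 : x ^ 2 + x * H.ip H.h v + cc H v = 0) (hc : IsCoprime x (H.ip H.h v)) :
    ∃ (w : Fin 23 → ℤ) (M l : ℤ), 0 < M ∧ H.IsHodge w ∧ H.Saturated w ∧ v = M • w + l • H.h ∧
      M ^ 2 * H.disc w = H.disc v ∧ Admissible (H.disc w) := by
  have hd : H.disc v = 2 * ((H.ip H.h v + x) ^ 2 + (H.ip H.h v + x) * x + x ^ 2) := by
    rw [disc_cc hH]
    linear_combination (-6) * h0
  have hc' : IsCoprime (H.ip H.h v + x) x := by
    have := hc.symm.add_mul_left_left 1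
    rwa [mul_one] at this
  have hpos : 0 < H.disc v := by
    rw [hd]
    have h1 : ¬ (x = 0 ∧ H.ip H.h v = 0) := by
      rintro ⟨h1, h2⟩
      rw [h1, h2] at hc
      exact not_isCoprime_zero_zero hc
    by_contra hcon
    push Not at hcon
    apply h1
    have hx : x = 0 := by
      nlinarith [sq_nonneg (2 * H.ip H.h v + 3 * x), sq_nonneg x]
    refine ⟨hx, ?_⟩
    rw [hx] at hcon
    nlinarith [sq_nonneg (H.ip H.h v)]
  obtain ⟨w, M, l, hM, hs, hw⟩ := hH.exists_saturated v hpos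
  have hdw : M ^ 2 * H.disc w = H.disc v := by
    rw [hw, hH.disc_comb]
  have hwh : H.IsHodge w := by
    apply H.isHodge_of_smul hM.ne'
    have : M • w = v - l • H.h := by rw [hw]; abel
    rw [this]
    exact H.isHodge_sub hv (H.isHodge_smul _ hH.h_hodge)
  have hd2 : M ^ 2 * H.disc w = 2 * ((H.ip H.h v + x) ^ 2 + (H.ip H.h v + x) * x + x ^ 2) :=
    hdw.trans hd
  have hpw : 0 < H.disc w := by
    by_contra hcon
    push Not at hcon
    have : M ^ 2 * H.disc w ≤ 0 := mul_nonpos_of_nonneg_of_nonpos (by positivity) hcon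
    linarith
  exact ⟨w, M, l, hM, hwh, hs, hw, hdw, hH.six_lt hwh hpw, four_ndvd hc' hd2, nine_ndvd hc' hd2,
    fun p hp hp2 hpd => prime_ndvd hc' hd2 hp hp2 hpd⟩

/-- **Infinitely many admissible discriminants.** -/
theorem exists_large (hH : H.IsCohomology) (hr : 3 ≤ H.rank) (h : H.HasK3) (B : ℤ) :
    ∃ w, H.IsHodge w ∧ H.Saturated w ∧ Admissible (H.disc w) ∧ B < H.disc w := by
  obtain ⟨s, T, hT, h0, hc⟩ := coprime_of_hasK3 hH h
  obtain ⟨u, hu, hun, hperp⟩ := exists_perp (k := 2) (H := H) (by omega) ![H.h, T]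
  have hhu : H.ip H.h u = 0 := hperp 0
  have hTu : H.ip T u = 0 := hperp 1
  have huh : H.ip u H.h = 0 := (hH.comm _ _).trans hhu
  have huT : H.ip u T = 0 := (hH.comm _ _).trans hTu
  have hN := hH.pos u hu hun
  obtain ⟨n, hn⟩ : ∃ n, H.ip u u = 2 * n := by
    have h1 := hH.char u
    rw [huh, sub_zero] at h1
    obtain ⟨r, hr⟩ := h1
    exact ⟨r, by rw [hr]; ring⟩
  have hn0 : 0 < n := by linarith
  obtain ⟨a, ha⟩ : ∃ a, a = H.ip H.h T := ⟨_, rfl⟩
  obtain ⟨τ, hτ⟩ : ∃ τ, τ = H.ip T T := ⟨_, rfl⟩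
  have hTh : H.ip T H.h = a := (hH.comm _ _).trans ha.symm
  have hcc := two_cc hH T
  rw [← ha, ← hτ] at hcc
  rw [← ha] at h0 hc
  have iso : 2 * s ^ 2 + 2 * s * a + a ^ 2 - τ = 0 := by linarith
  -- the coefficients
  have hF : ¬ (2 * s + a = 0 ∧ s + a = 0) := by
    rintro ⟨h1, h2⟩
    have h3 : s = 0 := by linarith
    have h4 : a = 0 := by linarith
    rw [h3, h4] at hc
    exact not_isCoprime_zero_zero hc
  have hF2 : (2 * s + a) ^ 2 - (2 * s + a) * (s + a) + (s + a) ^ 2 ≠ 0 := by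
    intro h1
    apply hF
    have h2 : s + a = 0 := by
      nlinarith [sq_nonneg (2 * (2 * s + a) - (s + a)), sq_nonneg (s + a)]
    refine ⟨?_, h2⟩
    rw [h2] at h1
    have h3 : (2 * s + a) ^ 2 = 0 := by linarith
    exact pow_eq_zero_iff two_ne_zero |>.1 h3
  obtain ⟨α, β, hαβ, hΛ⟩ : ∃ α β : ℤ, α * (2 * s + a) + β * (s + a) = 1 ∧
      (α + 2 * β) * (2 * s + a) - (2 * α + β) * (s + a) ≠ 0 := by
    obtain ⟨p, q, hpq⟩ := hc
    -- `p s + q a = 1`
    have h1 : (p - q) * (2 * s + a) + (2 * q - p) * (s + a) = 1 := by linear_combination hpq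
    by_cases h2 : ((p - q) + 2 * (2 * q - p)) * (2 * s + a) -
        (2 * (p - q) + (2 * q - p)) * (s + a) = 0
    · refine ⟨(p - q) + (s + a), (2 * q - p) - (2 * s + a), by linear_combination h1, ?_⟩
      intro h3
      apply hF2
      have h4 : 2 * ((2 * s + a) ^ 2 - (2 * s + a) * (s + a) + (s + a) ^ 2) = 0 := by
        linear_combination h2 - h3
      linarith
    · exact ⟨_, _, h1, h2⟩
  obtain ⟨c, hc0⟩ : ∃ c, c = (α + 2 * β) * (2 * s + a) - (2 * α + β) * (s + a) := ⟨_, rfl⟩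
  rw [← hc0] at hΛ
  obtain ⟨z, hz⟩ : ∃ z, z = α ^ 2 + α * β + β ^ 2 := ⟨_, rfl⟩
  -- the discriminant of `T`
  obtain ⟨D, hD⟩ : ∃ D, D = 3 * τ - a ^ 2 := ⟨_, rfl⟩
  have hD0 : 0 < D := by
    have h1 : D = 2 * ((2 * s + a) ^ 2 - (2 * s + a) * (s + a) + (s + a) ^ 2) := by
      rw [hD]
      linear_combination (-3) * iso
    rw [h1]
    have h2 : 0 ≤ (2 * s + a) ^ 2 - (2 * s + a) * (s + a) + (s + a) ^ 2 := by
      nlinarith [sq_nonneg (2 * (2 * s + a) - (s + a)), sq_nonneg (s + a)]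
    have h3 := lt_of_le_of_ne h2 (Ne.symm hF2)
    linarith
  -- the parameter
  obtain ⟨j, hj⟩ : ∃ j : ℤ, j = (2 * n * D) ^ 2 * |B| + 1 := ⟨_, rfl⟩
  have hj1 : 1 ≤ j := by
    rw [hj]
    have : 0 ≤ (2 * n * D) ^ 2 * |B| := by positivity
    linarith
  obtain ⟨κ, hκ⟩ : ∃ κ, κ = c ^ 2 * j ^ 2 * n := ⟨_, rfl⟩
  obtain ⟨T', hT'⟩ : ∃ T', T' = (1 - κ * z) • T + (c * j) • u + (κ * β) • H.h := ⟨_, rfl⟩
  obtain ⟨s', hs'⟩ : ∃ s', s' = (1 - κ * z) * s + κ * (α - β) := ⟨_, rfl⟩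
  obtain ⟨a', ha'⟩ : ∃ a', a' = (1 - κ * z) * a + κ * β * 3 := ⟨_, rfl⟩
  have hT'H : H.IsHodge T' := by
    rw [hT']
    exact H.isHodge_add (H.isHodge_add (H.isHodge_smul _ hT) (H.isHodge_smul _ hu))
      (H.isHodge_smul _ hH.h_hodge)
  have hhT' : H.ip H.h T' = a' := by
    rw [hT', ip_add_right, ip_add_right, ip_smul_right, ip_smul_right, ip_smul_right, ← ha, hhu,
      hH.h_self, ha']
    ring
  have hTT' : H.ip T' T' = (1 - κ * z) ^ 2 * τ + (c * j) ^ 2 * (2 * n) + (κ * β) ^ 2 * 3 +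
      2 * (1 - κ * z) * (κ * β) * a := by
    rw [hT']
    simp only [ip_add_left, ip_add_right, ip_smul_left, ip_smul_right, ← ha, ← hτ, hTh, hhu, huh,
      hTu, huT, hH.h_self, hn]
    ring
  have hcc' := two_cc hH T'
  rw [hhT', hTT'] at hcc'
  have h0' : s' ^ 2 + s' * a' + cc H T' = 0 := by
    have h1 : 2 * (s' ^ 2 + s' * a' + cc H T') = 0 := by
      have h2 : 2 * (s' ^ 2 + s' * a' + cc H T') = 2 * s' ^ 2 + 2 * s' * a' + 2 * cc H T' := by
        ring
      rw [h2, hcc', hs', ha', hz]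
      rw [hz] at *
      linear_combination (1 - κ * (α ^ 2 + α * β + β ^ 2)) ^ 2 * iso +
        2 * (1 - κ * (α ^ 2 + α * β + β ^ 2)) * κ * hαβ + 2 * hκ
    linarith
  -- coprimality
  obtain ⟨E1, hE1⟩ : ∃ E1, E1 = 2 * α + β - z * (2 * s + a) := ⟨_, rfl⟩
  obtain ⟨E2, hE2⟩ : ∃ E2, E2 = α + 2 * β - z * (s + a) := ⟨_, rfl⟩
  have hF1' : 2 * s' + a' = (2 * s + a) + κ * E1 := by
    rw [hs', ha', hE1]; ring
  have hF2' : s' + a' = (s + a) + κ * E2 := by
    rw [hs', ha', hE2]; ring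
  have hc' : IsCoprime s' a' := by
    have hL : E2 * (2 * s' + a') - E1 * (s' + a') = c := by
      rw [hF1', hF2', hE1, hE2, hc0]; ring
    obtain ⟨k, hk⟩ : ∃ k, k = c * j ^ 2 * n := ⟨_, rfl⟩
    have hκk : κ = c * k := by rw [hκ, hk]; ring
    obtain ⟨A, hA⟩ : ∃ A, A = α - (α * E1 + β * E2) * k * E2 := ⟨_, rfl⟩
    obtain ⟨A', hA'⟩ : ∃ A', A' = β + (α * E1 + β * E2) * k * E1 := ⟨_, rfl⟩
    have h1 : A * (2 * s' + a') + A' * (s' + a') = 1 := by
      have h2 : A * (2 * s' + a') + A' * (s' + a') = α * (2 * s' + a') + β * (s' + a') -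
          (α * E1 + β * E2) * k * (E2 * (2 * s' + a') - E1 * (s' + a')) := by
        rw [hA, hA']; ring
      rw [h2, hL, hF1', hF2', hκk]
      linear_combination hαβ
    exact ⟨2 * A + A', A + A', by linear_combination h1⟩
  -- the saturated class
  obtain ⟨w, M, l, hM, hw, hws, hwT, hdw, hadm⟩ := exists_adm hH hT'H (x := s')
    (by rw [hhT']; exact h0') (by rw [hhT']; exact hc')
  refine ⟨w, hw, hws, hadm, ?_⟩
  -- `M` divides `2 n D`
  have e1 : c * j * (2 * n) = M * H.ip u w := by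
    have h1 : H.ip u T' = M * H.ip u w := by
      rw [hwT, ip_add_right, ip_smul_right, ip_smul_right, huh]; ring
    rw [← h1, hT', ip_add_right, ip_add_right, ip_smul_right, ip_smul_right, ip_smul_right, huT,
      huh, hn]
    ring
  have e2 : (1 - κ * z) * D = M * (3 * H.ip T w - a * H.ip H.h w) := by
    have h1 : 3 * H.ip T T' - a * H.ip H.h T' = M * (3 * H.ip T w - a * H.ip H.h w) := by
      rw [hwT, ip_add_right, ip_add_right, ip_smul_right, ip_smul_right, ip_smul_right,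
        ip_smul_right, hTh, hH.h_self]
      ring
    rw [← h1, hT', ip_add_right, ip_add_right, ip_add_right, ip_add_right, ip_smul_right,
      ip_smul_right, ip_smul_right, ip_smul_right, ip_smul_right, ip_smul_right, ← hτ, hTu, hTh,
      ← ha, hhu, hH.h_self, hD]
    ring
  have hMd : M ∣ 2 * n * D := by
    refine ⟨H.ip u w * D * (c * j * n * z) + 2 * n * (3 * H.ip T w - a * H.ip H.h w), ?_⟩
    linear_combination (D * (c * j * n * z)) * e1 + (2 * n) * e2 + 2 * n * D * z * hκ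
  have hMle : M ≤ 2 * n * D := Int.le_of_dvd (by positivity) hMd
  -- the discriminant of `T'`
  have hdT : H.disc T' = (1 - κ * z) ^ 2 * D + 3 * (c * j) ^ 2 * (2 * n) := by
    rw [disc, hhT', hTT', ha', hD]
    ring
  have hc2 : 1 ≤ c ^ 2 := by
    have := sq_nonneg c
    have h1 : c ^ 2 ≠ 0 := pow_ne_zero 2 hΛ
    omega
  have hbig : j ≤ H.disc T' := by
    rw [hdT]
    have h1 : 0 ≤ (1 - κ * z) ^ 2 * D := by positivity
    have h2 : j ≤ j ^ 2 := by
      rw [pow_two]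
      exact le_mul_of_one_le_left (by linarith) hj1
    have h3 : j ^ 2 ≤ 3 * (c * j) ^ 2 * (2 * n) := by
      have h4 : 3 * (c * j) ^ 2 * (2 * n) = c ^ 2 * (6 * n) * j ^ 2 := by ring
      rw [h4]
      have h5 : 1 ≤ c ^ 2 * (6 * n) := one_le_mul_of_one_le_of_one_le hc2 (by linarith)
      exact le_mul_of_one_le_left (sq_nonneg j) h5
    linarith
  by_contra hcon
  push Not at hcon
  have h1 : H.disc T' ≤ (2 * n * D) ^ 2 * |B| := by
    rw [← hdw]
    have h2 : M ^ 2 ≤ (2 * n * D) ^ 2 := pow_le_pow_left₀ hM.le hMle 2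
    have h3 : H.disc w ≤ |B| := hcon.trans (le_abs_self B)
    have h4 : 0 ≤ H.disc w := by
      have := hadm.1
      linarith
    calc M ^ 2 * H.disc w ≤ (2 * n * D) ^ 2 * H.disc w := mul_le_mul_of_nonneg_right h2 h4
      _ ≤ (2 * n * D) ^ 2 * |B| := mul_le_mul_of_nonneg_left h3 (sq_nonneg _)
  linarith

end Pool.Agent.Q76.LG
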