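import Pool.Agent.Q76.LG.RankThree

/-!
# Hodge classes from Meyer's theorem on indefinite quadratic forms in five variables
-/

set_option autoImplicit false

namespace Pool.Agent.Q76.LG

open Pool.Agent.Y95.Q Pool.Agent.Y95.Q.H4 Pool.Agent.Q76.FH

/-- Meyer's theorem (1884) for diagonal forms: a form `a_0 x_0^2 + ⋯ + a_4 x_4^2` with integer
coefficients, not all of the same sign, has a nontrivial integral zero. -/
def Meyer : Prop :=
  ∀ a : Fin 5 → ℤ, (∃ i, 0 < a i) → (∃ i, a i < 0) →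
    ∃ x : Fin 5 → ℤ, x ≠ 0 ∧ ∑ i, a i * x i ^ 2 = 0

variable {X : CubicFourfold} {H : H4 X}

/-- Hodge classes orthogonal to `h` and to each other -/
theorem exists_orth (hH : H.IsCohomology) : ∀ n : ℕ, n < H.rank →
    ∃ v : Fin n → Fin 23 → ℤ, (∀ i, H.IsHodge (v i)) ∧ (∀ i, v i ≠ 0) ∧
      (∀ i, H.ip H.h (v i) = 0) ∧ ∀ i j, i ≠ j → H.ip (v i) (v j) = 0 := by
  intro n
  induction n with
  | zero => exact fun _ => ⟨fun i => i.elim0, fun i => i.elim0, fun i => i.elim0,
      fun i => i.elim0, fun i => i.elim0⟩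
  | succ n ih =>
    intro hr
    obtain ⟨v, h1, h2, h3, h4⟩ := ih (by omega)
    obtain ⟨w, hw, hw0, hp⟩ := exists_perp (H := H) hr (Fin.cons H.h v : Fin (n + 1) → Fin 23 → ℤ)
    have hph : H.ip H.h w = 0 := by simpa using hp 0
    have hpv : ∀ i, H.ip (v i) w = 0 := fun i => by simpa using hp i.succ
    refine ⟨Fin.cons w v, ?_, ?_, ?_, ?_⟩
    · intro i
      refine Fin.cases ?_ (fun i => ?_) i
      · simpa using hw
      · simpa using h1 i
    · intro i
      refine Fin.cases ?_ (fun i => ?_) i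
      · simpa using hw0
      · simpa using h2 i
    · intro i
      refine Fin.cases ?_ (fun i => ?_) i
      · simpa using hph
      · simpa using h3 i
    · intro i j
      refine Fin.cases ?_ (fun i => ?_) i
      · refine Fin.cases ?_ (fun j => ?_) j
        · intro h; exact absurd rfl h
        · intro _
          simp only [Fin.cons_zero, Fin.cons_succ]
          rw [hH.comm]
          exact hpv j
      · refine Fin.cases ?_ (fun j => ?_) j
        · intro _
          simp only [Fin.cons_zero, Fin.cons_succ]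
          exact hpv i
        · intro h
          simp only [Fin.cons_succ]
          exact h4 i j fun h' => h (by rw [h'])

/-- in rank at least five some Hodge class has discriminant `2 k^2 ≠ 0` -/
theorem exists_square_disc (hM : Meyer) (hH : H.IsCohomology) (hr : 5 ≤ H.rank) :
    ∃ (v : Fin 23 → ℤ) (k : ℤ), H.IsHodge v ∧ k ≠ 0 ∧ H.disc v = 2 * k ^ 2 := by
  obtain ⟨v, h1, h2, h3, h4⟩ := exists_orth hH 4 (by omega)
  have hpos : ∀ i, 0 < H.ip (v i) (v i) := fun i => hH.pos _ (h1 i) (h2 i)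
  obtain ⟨x, hx0, hx⟩ := hM ![-6, H.ip (v 0) (v 0), H.ip (v 1) (v 1), H.ip (v 2) (v 2),
    H.ip (v 3) (v 3)] ⟨1, hpos 0⟩ ⟨0, by norm_num⟩
  simp only [Fin.sum_univ_five, Matrix.cons_val] at hx
  obtain ⟨l, hl⟩ : ∃ l, l = x 0 • H.h + (x 1 • v 0 + (x 2 • v 1 + (x 3 • v 2 + x 4 • v 3))) :=
    ⟨_, rfl⟩
  have e1 : H.ip H.h l = 3 * x 0 := by
    rw [hl]
    simp only [ip_add_right, ip_smul_right, hH.h_self, h3]
    ring
  have h3' : ∀ i, H.ip (v i) H.h = 0 := fun i => by rw [hH.comm]; exact h3 i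
  have e2 : H.ip l l = 3 * x 0 ^ 2 + (x 1 ^ 2 * H.ip (v 0) (v 0) + x 2 ^ 2 * H.ip (v 1) (v 1) +
      x 3 ^ 2 * H.ip (v 2) (v 2) + x 4 ^ 2 * H.ip (v 3) (v 3)) := by
    rw [hl]
    simp only [ip_add_right, ip_smul_right, ip_add_left, ip_smul_left, hH.h_self, h3, h3',
      h4 0 1 (by decide), h4 0 2 (by decide), h4 0 3 (by decide), h4 1 0 (by decide),
      h4 1 2 (by decide), h4 1 3 (by decide), h4 2 0 (by decide), h4 2 1 (by decide),
      h4 2 3 (by decide), h4 3 0 (by decide), h4 3 1 (by decide), h4 3 2 (by decide)]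
    ring
  have hlh : H.IsHodge l := by
    rw [hl]
    exact H.isHodge_add (H.isHodge_smul _ hH.h_hodge) (H.isHodge_add (H.isHodge_smul _ (h1 0))
      (H.isHodge_add (H.isHodge_smul _ (h1 1)) (H.isHodge_add (H.isHodge_smul _ (h1 2))
        (H.isHodge_smul _ (h1 3)))))
  refine ⟨l, 3 * x 0, hlh, ?_, ?_⟩
  · intro h0
    have h5 : x 0 = 0 := by omega
    rw [h5] at hx
    apply hx0
    have q1 := mul_nonneg (hpos 0).le (sq_nonneg (x 1))
    have q2 := mul_nonneg (hpos 1).le (sq_nonneg (x 2))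
    have q3 := mul_nonneg (hpos 2).le (sq_nonneg (x 3))
    have q4 := mul_nonneg (hpos 3).le (sq_nonneg (x 4))
    have z : ∀ (c y : ℤ), 0 < c → c * y ^ 2 = 0 → y = 0 := by
      intro c y hc h
      rcases mul_eq_zero.1 h with h | h
      · omega
      · exact pow_eq_zero_iff (two_ne_zero) |>.1 h
    have y1 : x 1 = 0 := z _ _ (hpos 0) (by linarith)
    have y2 : x 2 = 0 := z _ _ (hpos 1) (by linarith)
    have y3 : x 3 = 0 := z _ _ (hpos 2) (by linarith)
    have y4 : x 4 = 0 := z _ _ (hpos 3) (by linarith)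
    funext i
    fin_cases i
    exacts [h5, y1, y2, y3, y4]
  · unfold disc
    rw [e1, e2]
    linear_combination 3 * hx

/-- in rank at least four some Hodge class has discriminant `2 (m^2 + m n + n^2) ≠ 0` -/
theorem exists_twisted (hM : Meyer) (hH : H.IsCohomology) (hr : 4 ≤ H.rank) :
    ∃ v, H.IsHodge v ∧ H.disc v ≠ 0 ∧ ∃ m n : ℤ, H.disc v = 2 * (m ^ 2 + m * n + n ^ 2) := by
  obtain ⟨v, h1, h2, h3, h4⟩ := exists_orth hH 3 (by omega)
  have hpos : ∀ i, 0 < H.ip (v i) (v i) := fun i => hH.pos _ (h1 i) (h2 i)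
  obtain ⟨x, hx0, hx⟩ := hM ![3 * H.ip (v 0) (v 0), 3 * H.ip (v 1) (v 1), 3 * H.ip (v 2) (v 2),
    -2, -6] ⟨0, by have := hpos 0; simpa using this⟩ ⟨3, by simp⟩
  simp only [Fin.sum_univ_five, Matrix.cons_val] at hx
  obtain ⟨l, hl⟩ : ∃ l, l = x 0 • v 0 + (x 1 • v 1 + x 2 • v 2) := ⟨_, rfl⟩
  have e1 : H.ip H.h l = 0 := by
    rw [hl]
    simp only [ip_add_right, ip_smul_right, h3]
    ring
  have e2 : H.ip l l = x 0 ^ 2 * H.ip (v 0) (v 0) + x 1 ^ 2 * H.ip (v 1) (v 1) +
      x 2 ^ 2 * H.ip (v 2) (v 2) := by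
    rw [hl]
    simp only [ip_add_right, ip_smul_right, ip_add_left, ip_smul_left,
      h4 0 1 (by decide), h4 0 2 (by decide), h4 1 0 (by decide),
      h4 1 2 (by decide), h4 2 0 (by decide), h4 2 1 (by decide)]
    ring
  have hlh : H.IsHodge l := by
    rw [hl]
    exact H.isHodge_add (H.isHodge_smul _ (h1 0)) (H.isHodge_add (H.isHodge_smul _ (h1 1))
      (H.isHodge_smul _ (h1 2)))
  have hd : H.disc l = 2 * (x 3 ^ 2 + 3 * x 4 ^ 2) := by
    unfold disc
    rw [e1, e2]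
    linear_combination hx
  refine ⟨l, hlh, ?_, x 3 - x 4, 2 * x 4, ?_⟩
  · intro h0
    rw [hd] at h0
    apply hx0
    have z3 : x 3 = 0 := by nlinarith [sq_nonneg (x 3), sq_nonneg (x 4)]
    have z4 : x 4 = 0 := by nlinarith [sq_nonneg (x 3), sq_nonneg (x 4)]
    rw [z3, z4] at hx
    have q1 := mul_nonneg (hpos 0).le (sq_nonneg (x 0))
    have q2 := mul_nonneg (hpos 1).le (sq_nonneg (x 1))
    have q3 := mul_nonneg (hpos 2).le (sq_nonneg (x 2))
    have z : ∀ (c y : ℤ), 0 < c → c * y ^ 2 = 0 → y = 0 := by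
      intro c y hc h
      rcases mul_eq_zero.1 h with h | h
      · omega
      · exact pow_eq_zero_iff (two_ne_zero) |>.1 h
    have y0 : x 0 = 0 := z _ _ (hpos 0) (by linarith)
    have y1 : x 1 = 0 := z _ _ (hpos 1) (by linarith)
    have y2 : x 2 = 0 := z _ _ (hpos 2) (by linarith)
    funext i
    fin_cases i
    exacts [y0, y1, y2, z3, z4]
  · rw [hd]; ring

/-- **In rank at least five Addington's and Hassett's criteria are equivalent.** -/
theorem fanoHilb_iff_of_meyer (hM : Meyer) (hH : H.IsCohomology) (hr : 5 ≤ H.rank) :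
    FanoHilb H ↔ H.HasK3 := by
  obtain ⟨v, k, hv, hk, hd⟩ := exists_square_disc hM hH hr
  exact fanoHilb_iff hH (by omega) hv hk hd

end Pool.Agent.Q76.LG
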