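import Pool.Agent.Y95.Q.K3
import Pool.Agent.Q76.LG.Hasse

/-!
# The algebraic Mukai lattice of a cubic fourfold
-/

set_option autoImplicit false

namespace Pool.Agent.Q76.LG

open Pool.Agent.Y95.Q Pool.Agent.Y95.Q.H4

variable {X : CubicFourfold} {H : H4 X}

/-- the group of Hodge classes -/
def hodge (H : H4 X) : AddSubgroup (Fin 23 → ℤ) where
  carrier := {v | H.IsHodge v}
  add_mem' := fun ha hb => H.isHodge_add ha hb
  zero_mem' := H.isHodge_zero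
  neg_mem' := fun h => H.isHodge_neg h

/-- half of `(h.v)^2 - v.v` -/
def cc (H : H4 X) (v : Fin 23 → ℤ) : ℤ := (H.ip H.h v ^ 2 - H.ip v v) / 2

theorem two_cc (hH : H.IsCohomology) (v : Fin 23 → ℤ) :
    2 * cc H v = H.ip H.h v ^ 2 - H.ip v v := by
  have h1 := hH.char v
  rw [hH.comm v H.h] at h1
  have h2 := Int.even_mul_pred_self (H.ip H.h v)
  have h3 : Even (H.ip H.h v ^ 2 - H.ip v v) := by
    have e : H.ip H.h v ^ 2 - H.ip v v = H.ip H.h v * (H.ip H.h v - 1) -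
      (H.ip v v - H.ip H.h v) := by ring
    rw [e]
    exact h2.sub h1
  rw [cc, Int.mul_ediv_cancel' h3.two_dvd]

/-- the bilinear form of the algebraic Mukai lattice -/
def pair (H : H4 X) (x : ℤ) (v : Fin 23 → ℤ) (y : ℤ) (u : Fin 23 → ℤ) : ℤ :=
  2 * x * y + x * H.ip H.h u + y * H.ip H.h v + H.ip H.h v * H.ip H.h u - H.ip v u

/-- the algebraic Mukai lattice -/
def muk (hH : H.IsCohomology) : IQ (ℤ × hodge H) where
  q w := w.1 ^ 2 + w.1 * H.ip H.h w.2 + cc H w.2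
  b w w' := pair H w.1 w.2 w'.1 w'.2
  b_add := by
    rintro ⟨x, v⟩ ⟨y, u⟩ ⟨z, t⟩
    simp only [pair, Prod.mk_add_mk, AddSubgroup.coe_add, ip_add_left, ip_add_right]
    ring
  b_comm := by
    rintro ⟨x, v⟩ ⟨y, u⟩
    simp only [pair]
    rw [hH.comm (u : Fin 23 → ℤ) v]
    ring
  q_add := by
    rintro ⟨x, v⟩ ⟨y, u⟩
    have h1 := two_cc hH (v : Fin 23 → ℤ)
    have h2 := two_cc hH (u : Fin 23 → ℤ)
    have h3 := two_cc hH ((v : Fin 23 → ℤ) + u)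
    simp only [pair, Prod.mk_add_mk, AddSubgroup.coe_add, ip_add_left, ip_add_right,
      hH.comm (u : Fin 23 → ℤ) v] at h1 h2 h3 ⊢
    linarith
  q_smul := by
    rintro n ⟨x, v⟩
    have h1 := two_cc hH (v : Fin 23 → ℤ)
    have h3 := two_cc hH (n • (v : Fin 23 → ℤ))
    have e : ((n • (x, v) : ℤ × hodge H).2 : Fin 23 → ℤ) = n • (v : Fin 23 → ℤ) := rfl
    have e' : (n • (x, v) : ℤ × hodge H).1 = n * x := rfl
    rw [e, e']
    simp only [ip_smul_left, ip_smul_right] at h1 h3 ⊢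
    have h4 : 2 * cc H (n • (v : Fin 23 → ℤ)) = 2 * (n ^ 2 * cc H (v : Fin 23 → ℤ)) := by
      linear_combination h3 - n ^ 2 * h1
    have h5 := mul_left_cancel₀ (two_ne_zero) h4
    rw [h5]
    ring

/-- there is a hyperbolic plane in the algebraic Mukai lattice -/
def IsK3 (H : H4 X) : Prop :=
  ∃ x v y u, H.IsHodge v ∧ H.IsHodge u ∧ pair H x v x v = 0 ∧ pair H x v y u = 1

/-- there is an isotropic class in the algebraic Mukai lattice -/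
def IsTwistedK3 (H : H4 X) : Prop :=
  ∃ x v, H.IsHodge v ∧ (x ≠ 0 ∨ v ≠ 0) ∧ pair H x v x v = 0

theorem isK3_of_local (hH : H.IsCohomology) (ht : IsTwistedK3 H)
    (hloc : ∀ p : ℕ, p.Prime → ∃ u z, (p : ℤ) ∣ (muk hH).q u ∧ ¬ (p : ℤ) ∣ (muk hH).b u z) :
    IsK3 H := by
  obtain ⟨x, v, hv, hne, h0⟩ := ht
  have hq : (muk hH).q (x, ⟨v, hv⟩) = 0 := by
    have h1 := (muk hH).b_self (x, ⟨v, hv⟩)
    have h2 : (muk hH).b (x, ⟨v, hv⟩) (x, ⟨v, hv⟩) = pair H x v x v := rfl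
    rw [h2, h0] at h1
    linarith
  obtain ⟨⟨y, ⟨u, hu⟩⟩, ⟨z, ⟨t, ht⟩⟩, h1, h2⟩ := (muk hH).hasse hq (by
    by_contra hcon
    push Not at hcon
    have h1 : pair H x v 1 0 = 0 := hcon (1, 0)
    have h2 : pair H x v 0 H.h = 0 := hcon (0, ⟨H.h, hH.h_hodge⟩)
    have h3 : pair H x v 0 v = 0 := hcon (0, ⟨v, hv⟩)
    simp only [pair, ip_zero_right, hH.h_self, hH.comm v H.h] at h1 h2 h3
    have ha : H.ip H.h v = 0 := by linarith
    have hx : x = 0 := by linarith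
    rw [ha, hx] at h3
    have hv0 : v ≠ 0 := by
      rcases hne with h | h
      · exact absurd hx h
      · exact h
    have := hH.pos v hv hv0
    linarith) hloc
  refine ⟨y, u, z, t, hu, ht, ?_, h2⟩
  have h3 := (muk hH).b_self (y, ⟨u, hu⟩)
  rw [h1] at h3
  exact h3

/-- the discriminant -/
theorem disc_cc (hH : H.IsCohomology) (v : Fin 23 → ℤ) :
    H.disc v = 2 * (H.ip H.h v ^ 2 - 3 * cc H v) := by
  have h1 := two_cc hH v
  rw [disc]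
  linarith

theorem q_eq (hH : H.IsCohomology) (x : ℤ) {v : Fin 23 → ℤ} (hv : H.IsHodge v) :
    (muk hH).q (x, ⟨v, hv⟩) = x ^ 2 + x * H.ip H.h v + cc H v := rfl

theorem b_eq (hH : H.IsCohomology) (x y : ℤ) {v u : Fin 23 → ℤ} (hv : H.IsHodge v)
    (hu : H.IsHodge u) : (muk hH).b (x, ⟨v, hv⟩) (y, ⟨u, hu⟩) =
      2 * x * y + x * H.ip H.h u + y * H.ip H.h v + H.ip H.h v * H.ip H.h u - H.ip v u := rfl

theorem b_one (hH : H.IsCohomology) (x : ℤ) {v : Fin 23 → ℤ} (hv : H.IsHodge v) :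
    (muk hH).b (x, ⟨v, hv⟩) (1, ⟨0, H.isHodge_zero⟩) = 2 * x + H.ip H.h v := by
  rw [b_eq]
  simp only [ip_zero_right]
  ring

theorem b_h (hH : H.IsCohomology) (x : ℤ) {v : Fin 23 → ℤ} (hv : H.IsHodge v) :
    (muk hH).b (x, ⟨v, hv⟩) (0, ⟨H.h, hH.h_hodge⟩) = 3 * x + 2 * H.ip H.h v := by
  rw [b_eq]
  simp only [hH.h_self, hH.comm v H.h]
  ring

theorem cc_add_h (hH : H.IsCohomology) (y : ℤ) (v : Fin 23 → ℤ) :
    cc H (v + y • H.h) = cc H v + 2 * H.ip H.h v * y + 3 * y ^ 2 := by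
  have h1 := two_cc hH v
  have h2 := two_cc hH (v + y • H.h)
  simp only [ip_add_left, ip_add_right, ip_smul_left, ip_smul_right, hH.h_self,
    hH.comm v H.h] at h2
  linarith

theorem local_two (hH : H.IsCohomology) (h : ∃ v, H.IsHodge v ∧ ¬ 4 ∣ H.disc v) :
    ∃ u z, ((2 : ℕ) : ℤ) ∣ (muk hH).q u ∧ ¬ ((2 : ℕ) : ℤ) ∣ (muk hH).b u z := by
  obtain ⟨v, hv, h4⟩ := h
  rw [disc_cc hH] at h4
  obtain ⟨a, ha⟩ : ∃ a, a = H.ip H.h v := ⟨_, rfl⟩
  obtain ⟨c, hc⟩ : ∃ c, c = cc H v := ⟨_, rfl⟩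
  rw [← ha, ← hc] at h4
  have hsq : a ^ 2 % 2 = a % 2 := by
    rcases Int.emod_two_eq_zero_or_one a with h | h
    · rw [pow_two, Int.mul_emod, h]; norm_num
    · rw [pow_two, Int.mul_emod, h]; norm_num
  rcases Int.emod_two_eq_zero_or_one a with h | h
  · refine ⟨(1, ⟨v, hv⟩), (0, ⟨H.h, hH.h_hodge⟩), ?_, ?_⟩
    · rw [q_eq, ← ha, ← hc]
      push_cast
      omega
    · rw [b_h, ← ha]
      push_cast
      omega
  · refine ⟨(0, ⟨v, hv⟩), (1, ⟨0, H.isHodge_zero⟩), ?_, ?_⟩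
    · rw [q_eq, ← ha, ← hc]
      have : (0 : ℤ) ^ 2 + 0 * a + c = c := by ring
      rw [this]
      push_cast
      omega
    · rw [b_one, ← ha]
      push_cast
      omega

theorem local_three (hH : H.IsCohomology)
    (h : ∃ v, H.IsHodge v ∧ H.disc v % 9 ≠ 0 ∧ H.disc v % 9 ≠ 3) :
    ∃ u z, ((3 : ℕ) : ℤ) ∣ (muk hH).q u ∧ ¬ ((3 : ℕ) : ℤ) ∣ (muk hH).b u z := by
  obtain ⟨v, hv, h0, h3⟩ := h
  rw [disc_cc hH] at h0 h3
  obtain ⟨a, ha⟩ : ∃ a, a = H.ip H.h v := ⟨_, rfl⟩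
  obtain ⟨c, hc⟩ : ∃ c, c = cc H v := ⟨_, rfl⟩
  rw [← ha, ← hc] at h0 h3
  by_cases ha3 : a % 3 = 0
  · obtain ⟨a', rfl⟩ := Int.dvd_of_emod_eq_zero ha3
    have h2 : (2 * ((3 * a') ^ 2 - 3 * c)) = 9 * (2 * a' ^ 2) - 6 * c := by ring
    rw [h2] at h0 h3
    refine ⟨(1, ⟨v, hv⟩), (1, ⟨0, H.isHodge_zero⟩), ?_, ?_⟩
    · rw [q_eq, ← ha, ← hc]
      push_cast
      omega
    · rw [b_one, ← ha]
      push_cast
      omega
  · have hsq : (a ^ 2) % 3 = 1 := by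
      rcases (show a % 3 = 1 ∨ a % 3 = 2 by omega) with h | h
      · rw [pow_two, Int.mul_emod, h]; norm_num
      · rw [pow_two, Int.mul_emod, h]; norm_num
    have hu : H.IsHodge (v + (a * c) • H.h) := H.isHodge_add hv (H.isHodge_smul _ hH.h_hodge)
    have hau : H.ip H.h (v + (a * c) • H.h) = a + 3 * (a * c) := by
      rw [ip_add_right, ip_smul_right, hH.h_self, ← ha]
      ring
    refine ⟨(0, ⟨v + (a * c) • H.h, hu⟩), (1, ⟨0, H.isHodge_zero⟩), ?_, ?_⟩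
    · rw [q_eq, cc_add_h hH, ← ha, ← hc]
      have e : (0 : ℤ) ^ 2 + 0 * H.ip H.h (v + (a * c) • H.h) +
          (c + 2 * a * (a * c) + 3 * (a * c) ^ 2) = c * (1 + 2 * a ^ 2) + 3 * (a * c) ^ 2 := by ring
      rw [e]
      push_cast
      refine dvd_add ?_ (dvd_mul_right _ _)
      refine Dvd.dvd.mul_left ?_ c
      omega
    · rw [b_one, hau]
      push_cast
      omega

/-- cube roots of unity -/
theorem exists_omega {p : ℕ} (hp : p.Prime) (h : p % 3 = 1) :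
    ∃ x : ZMod p, x ^ 2 + x + 1 = 0 := by
  have : Fact p.Prime := ⟨hp⟩
  have h1 : 3 ∣ Fintype.card (ZMod p)ˣ := by
    rw [ZMod.card_units_eq_totient, Nat.totient_prime hp]
    have := hp.two_le
    omega
  have : Fact (Nat.Prime 3) := ⟨Nat.prime_three⟩
  obtain ⟨x, hx⟩ := exists_prime_orderOf_dvd_card 3 h1
  refine ⟨(x : ZMod p), ?_⟩
  have h2 : (x : ZMod p) ^ 3 = 1 := by
    rw [← Units.val_pow_eq_pow_val, ← hx, pow_orderOf_eq_one, Units.val_one]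
  have h3 : (x : ZMod p) ≠ 1 := by
    intro h4
    have h5 : x = 1 := Units.ext h4
    rw [h5, orderOf_one] at hx
    norm_num at hx
  have h4 : ((x : ZMod p) - 1) * ((x : ZMod p) ^ 2 + x + 1) = 0 := by
    linear_combination h2
  exact (mul_eq_zero.1 h4).resolve_left (sub_ne_zero.2 h3)

theorem local_one_mod (hH : H.IsCohomology) {p : ℕ} (hp : p.Prime) (h : p % 3 = 1) :
    ∃ u z, (p : ℤ) ∣ (muk hH).q u ∧ ¬ (p : ℤ) ∣ (muk hH).b u z := by
  obtain ⟨w, hw⟩ := exists_omega hp h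
  obtain ⟨x, rfl⟩ := ZMod.intCast_surjective w
  have hcch : cc H H.h = 3 := by
    have := two_cc hH H.h
    rw [hH.h_self] at this
    linarith
  have hx : (p : ℤ) ∣ x ^ 2 + x + 1 := by
    rw [← ZMod.intCast_zmod_eq_zero_iff_dvd]
    push_cast
    exact hw
  by_cases h1 : (p : ℤ) ∣ 2 * x + 1
  · refine ⟨(x - 1, ⟨H.h, hH.h_hodge⟩), (0, ⟨H.h, hH.h_hodge⟩), ?_, ?_⟩
    · rw [q_eq, hcch, hH.h_self]
      have e : (x - 1) ^ 2 + (x - 1) * 3 + 3 = x ^ 2 + x + 1 := by ring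
      rwa [e]
    · rw [b_h, hH.h_self]
      intro h2
      have h3 : (p : ℤ) ∣ 2 * (3 * (x - 1) + 2 * 3) - 3 * (2 * x + 1) :=
        (h2.mul_left 2).sub (h1.mul_left 3)
      have e : 2 * (3 * (x - 1) + 2 * 3) - 3 * (2 * x + 1) = 3 := by ring
      rw [e] at h3
      have h4 : p ∣ 3 := by exact_mod_cast h3
      have h5 := (Nat.prime_dvd_prime_iff_eq hp Nat.prime_three).1 h4
      rw [h5] at h
      norm_num at h
  · refine ⟨(x - 1, ⟨H.h, hH.h_hodge⟩), (1, ⟨0, H.isHodge_zero⟩), ?_, ?_⟩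
    · rw [q_eq, hcch, hH.h_self]
      have e : (x - 1) ^ 2 + (x - 1) * 3 + 3 = x ^ 2 + x + 1 := by ring
      rwa [e]
    · rw [b_one, hH.h_self]
      have e : 2 * (x - 1) + 3 = 2 * x + 1 := by ring
      rwa [e]

theorem exists_conic {p : ℕ} (hp : p.Prime) (hp2 : p ≠ 2) (hp3 : p ≠ 3) (D : ZMod p) :
    ∃ x y : ZMod p, 3 * x ^ 2 + y ^ 2 = D := by
  have : Fact p.Prime := ⟨hp⟩
  have h3 : (3 : ZMod p) ≠ 0 := by
    intro h
    have h5 : ((3 : ℕ) : ZMod p) = 0 := by exact_mod_cast h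
    rw [ZMod.natCast_eq_zero_iff] at h5
    exact hp3 ((Nat.prime_dvd_prime_iff_eq hp Nat.prime_three).1 h5)
  obtain ⟨x, y, h⟩ := FiniteField.exists_root_sum_quadratic
    (f := Polynomial.C 3 * Polynomial.X ^ 2) (g := Polynomial.X ^ 2 - Polynomial.C D)
    (R := ZMod p) (by rw [Polynomial.degree_C_mul_X_pow 2 h3]; norm_num)
    (by rw [Polynomial.degree_X_pow_sub_C (by norm_num)]; norm_num)
    (by rw [ZMod.card]; exact (hp.eq_two_or_odd).resolve_left hp2)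
  refine ⟨x, y, ?_⟩
  simp at h
  linear_combination h

theorem local_two_mod (hH : H.IsCohomology) {p : ℕ} (hp : p.Prime) (hp2 : p ≠ 2) (hp3 : p ≠ 3)
    (h : ∃ v, H.IsHodge v ∧ ¬ (p : ℤ) ∣ H.disc v) :
    ∃ u z, (p : ℤ) ∣ (muk hH).q u ∧ ¬ (p : ℤ) ∣ (muk hH).b u z := by
  have : Fact p.Prime := ⟨hp⟩
  obtain ⟨v, hv, hd⟩ := h
  obtain ⟨a, ha⟩ : ∃ a, a = H.ip H.h v := ⟨_, rfl⟩
  obtain ⟨c, hc⟩ : ∃ c, c = cc H v := ⟨_, rfl⟩
  rw [disc_cc hH, ← ha, ← hc] at hd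
  have h2 : (2 : ZMod p) ≠ 0 := by
    intro h
    have h5 : ((2 : ℕ) : ZMod p) = 0 := by exact_mod_cast h
    rw [ZMod.natCast_eq_zero_iff] at h5
    exact hp2 ((Nat.prime_dvd_prime_iff_eq hp Nat.prime_two).1 h5)
  have h3 : (3 : ZMod p) ≠ 0 := by
    intro h
    have h5 : ((3 : ℕ) : ZMod p) = 0 := by exact_mod_cast h
    rw [ZMod.natCast_eq_zero_iff] at h5
    exact hp3 ((Nat.prime_dvd_prime_iff_eq hp Nat.prime_three).1 h5)
  obtain ⟨D, hD⟩ : ∃ D : ZMod p, D = 2 * ((a : ZMod p) ^ 2 - 3 * (c : ZMod p)) := ⟨_, rfl⟩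
  have hD0 : D ≠ 0 := by
    intro h0
    apply hd
    rw [← ZMod.intCast_zmod_eq_zero_iff_dvd]
    push_cast
    rw [← hD, h0]
  obtain ⟨r, s, hrs⟩ := exists_conic hp hp2 hp3 (2 * D)
  obtain ⟨y, hy⟩ := ZMod.intCast_surjective ((s - a) / 3 : ZMod p)
  obtain ⟨x, hx⟩ := ZMod.intCast_surjective ((r - s) / 2 : ZMod p)
  have hy' : 3 * (y : ZMod p) = s - a := by rw [hy]; field_simp
  have hx' : 2 * (x : ZMod p) = r - s := by rw [hx]; field_simp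
  have hu : H.IsHodge (v + y • H.h) := H.isHodge_add hv (H.isHodge_smul _ hH.h_hodge)
  have hau : H.ip H.h (v + y • H.h) = a + 3 * y := by
    rw [ip_add_right, ip_smul_right, hH.h_self, ← ha]
    ring
  have hq : (p : ℤ) ∣ (muk hH).q (x, ⟨v + y • H.h, hu⟩) := by
    rw [q_eq, hau, cc_add_h hH, ← ha, ← hc, ← ZMod.intCast_zmod_eq_zero_iff_dvd]
    push_cast
    have h12 : (12 : ZMod p) ≠ 0 := by
      have : (12 : ZMod p) = 2 * 2 * 3 := by norm_num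
      rw [this]
      exact mul_ne_zero (mul_ne_zero h2 h2) h3
    refine (mul_eq_zero.1 (?_ : (12 : ZMod p) * _ = 0)).resolve_left h12
    obtain ⟨A, hA⟩ : ∃ A : ZMod p, A = a + 3 * y := ⟨_, rfl⟩
    have hAs : A = s := by rw [hA, hy']; ring
    have e : (12 : ZMod p) * ((x : ZMod p) ^ 2 + x * (a + 3 * y) + (c + 2 * a * y + 3 * (y : ZMod p) ^ 2))
        = 3 * (2 * x + (a + 3 * y)) ^ 2 + (a + 3 * (y : ZMod p)) ^ 2 - 2 * (2 * ((a : ZMod p) ^ 2 - 3 * c)) := by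
      ring
    rw [e, ← hD, ← hA, hAs, hx']
    linear_combination hrs
  by_cases h1 : (p : ℤ) ∣ 2 * x + (a + 3 * y)
  · refine ⟨_, (0, ⟨H.h, hH.h_hodge⟩), hq, ?_⟩
    rw [b_h, hau]
    intro h4
    rw [← ZMod.intCast_zmod_eq_zero_iff_dvd] at h1 h4
    push_cast at h1 h4
    have hr : r = 0 := by linear_combination h1 - hx' - hy'
    have hs : s = 0 := by
      linear_combination 2 * h4 - 3 * h1 - hy'
    rw [hr, hs] at hrs
    have : 2 * D = 0 := by rw [← hrs]; ring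
    rcases mul_eq_zero.1 this with h | h
    · exact h2 h
    · exact hD0 h
  · refine ⟨_, (1, ⟨0, H.isHodge_zero⟩), hq, ?_⟩
    rw [b_one, hau]
    exact h1

end Pool.Agent.Q76.LG
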