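import Pool.Agent.Q76.LG.Hasse

/-!
# Isotropic vectors with a product `1` with a given root
-/

set_option autoImplicit false

namespace Pool.Agent.Q76.LG

/-- a conic modulo a prime number -/
theorem conic_mod {p : ℕ} (hp : p.Prime) (hp2 : p ≠ 2) {A B C D E : ℤ}
    (hA : ¬ (p : ℤ) ∣ A) (hD : ¬ (p : ℤ) ∣ D) :
    ∃ x y : ℤ, (p : ℤ) ∣ (A * x ^ 2 + B * x) + (D * y ^ 2 + E * y) + C := by
  have : Fact p.Prime := ⟨hp⟩
  have hA' : ((A : ℤ) : ZMod p) ≠ 0 := fun h => hA ((ZMod.intCast_zmod_eq_zero_iff_dvd _ _).1 h)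
  have hD' : ((D : ℤ) : ZMod p) ≠ 0 := fun h => hD ((ZMod.intCast_zmod_eq_zero_iff_dvd _ _).1 h)
  obtain ⟨x, y, hxy⟩ := FiniteField.exists_root_sum_quadratic (R := ZMod p)
    (f := Polynomial.C (A : ZMod p) * Polynomial.X ^ 2 + Polynomial.C (B : ZMod p) * Polynomial.X +
      Polynomial.C (C : ZMod p))
    (g := Polynomial.C (D : ZMod p) * Polynomial.X ^ 2 + Polynomial.C (E : ZMod p) * Polynomial.X +
      Polynomial.C 0)
    (Polynomial.degree_quadratic hA') (Polynomial.degree_quadratic hD') (by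
      rw [ZMod.card]
      exact (hp.eq_two_or_odd.resolve_left hp2))
  obtain ⟨x', rfl⟩ := ZMod.intCast_surjective x
  obtain ⟨y', rfl⟩ := ZMod.intCast_surjective y
  refine ⟨x', y', ?_⟩
  rw [← ZMod.intCast_zmod_eq_zero_iff_dvd]
  simp only [Polynomial.eval_add, Polynomial.eval_mul, Polynomial.eval_C, Polynomial.eval_pow,
    Polynomial.eval_X] at hxy
  push_cast
  linear_combination hxy

namespace IQ

variable {L : Type*} [AddCommGroup L] (Q : IQ L)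

/-- gluing, in an affine hyperplane -/
theorem glue_one {r x0 : L} (hx0 : Q.b x0 r = 1) (N : ℕ) (v : ℕ → L) (S : Finset ℕ)
    (hS : ∀ p ∈ S, p.Prime) (hv : ∀ p ∈ S, Q.b (v p) r = 1) :
    ∃ w, Q.b w r = 1 ∧ ∀ p ∈ S, ∃ z, w = v p + ((p : ℤ) ^ N) • z := by
  classical
  induction S using Finset.induction_on with
  | empty => exact ⟨x0, hx0, by simp⟩
  | insert p S hp ih =>
    obtain ⟨w, hw, hwS⟩ := ih (fun q hq => hS q (Finset.mem_insert_of_mem hq))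
      (fun q hq => hv q (Finset.mem_insert_of_mem hq))
    have hcop : IsCoprime ((p : ℤ) ^ N) (∏ q ∈ S, ((q : ℤ) ^ N)) := by
      refine IsCoprime.prod_right fun q hq => IsCoprime.pow ?_
      rw [Nat.isCoprime_iff_coprime]
      exact (Nat.coprime_primes (hS p (Finset.mem_insert_self _ _))
        (hS q (Finset.mem_insert_of_mem hq))).2 fun e => hp (e ▸ hq)
    obtain ⟨r', s, hrs⟩ := hcop
    set M := ∏ q ∈ S, ((q : ℤ) ^ N) with hM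
    refine ⟨w + (s * M) • (v p - w), ?_, fun q hq => ?_⟩
    · rw [Q.b_add, Q.b_smul, Q.b_sub, hw, hv p (Finset.mem_insert_self _ _)]; ring
    rcases Finset.mem_insert.1 hq with rfl | hq
    · refine ⟨r' • (w - v q), ?_⟩
      have h1 : (s * M) = 1 - r' * (q : ℤ) ^ N := by linear_combination hrs
      rw [h1, smul_smul]
      module
    · obtain ⟨c, hc⟩ : ((q : ℤ) ^ N) ∣ M := Finset.dvd_prod_of_mem (fun q : ℕ => ((q : ℤ) ^ N)) hq
      obtain ⟨z, hz⟩ := hwS q hq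
      refine ⟨z + (s * c) • (v p - w), ?_⟩
      have h2 : (s * M) = (q : ℤ) ^ N * (s * c) := by rw [hc]; ring
      rw [h2, mul_smul, smul_add, ← add_assoc, ← hz]

/-- a local isotropic vector -/
theorem local_one {r r2 e w : L} (hr : Q.q r = 1) (hr2 : Q.q r2 = 1) (hrr : Q.b r r2 = 1)
    (her : Q.b e r = 0) (het : Q.b e r2 ≠ 0) (hw : Q.q w = 0)
    (hc : IsCoprime (Q.b w r) (Q.b w r2)) {p : ℕ} (hp : p.Prime) :
    ∃ v, Q.q v = 0 ∧ ¬ (p : ℤ) ∣ Q.b v r ∧ Q.b v e ≠ 0 := by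
  have hpi := Nat.prime_iff_prime_int.1 hp
  have hrs : Q.b r r = 2 := by rw [Q.b_self, hr]; ring
  have hrs2 : Q.b r2 r2 = 2 := by rw [Q.b_self, hr2]; ring
  have hrr' : Q.b r2 r = 1 := (Q.b_comm _ _).trans hrr
  have her' : Q.b r e = 0 := (Q.b_comm _ _).trans her
  -- first
  obtain ⟨v, hv, hvr⟩ : ∃ v, Q.q v = 0 ∧ ¬ (p : ℤ) ∣ Q.b v r := by
    by_cases h : (p : ℤ) ∣ Q.b w r
    · refine ⟨w - (Q.b w r - Q.b w r2) • (r - r2), ?_, ?_⟩
      · rw [Q.q_sub, Q.q_smul, Q.q_sub, Q.b_smul', Q.b_sub', hr, hr2, hrr, hw]; ring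
      · rw [Q.b_sub, Q.b_smul, Q.b_sub, hrs, hrr']
        have h1 : Q.b w r - (Q.b w r - Q.b w r2) * (2 - 1) = Q.b w r2 := by ring
        rw [h1]
        exact fun h2 => hpi.not_isUnit (hc.isUnit_of_dvd' h h2)
    · exact ⟨w, hw, h⟩
  by_cases h0 : Q.b v e = 0
  swap
  · exact ⟨v, hv, hvr, h0⟩
  obtain ⟨a, ha⟩ : ∃ a, a = Q.b v r := ⟨_, rfl⟩
  obtain ⟨a', ha'⟩ : ∃ a', a' = Q.b v r2 := ⟨_, rfl⟩
  rw [← ha] at hvr
  refine ⟨(1 + (p : ℤ) + p ^ 2) • v - (a + p * a') • (r + (p : ℤ) • r2), ?_, ?_, ?_⟩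
  · rw [Q.q_sub, Q.q_smul, Q.q_smul, Q.b_smul, Q.b_smul', Q.b_add', Q.b_smul', Q.q_add,
      Q.q_smul, Q.b_smul', hv, hr, hr2, hrr, ← ha, ← ha']
    ring
  · rw [Q.b_sub, Q.b_smul, Q.b_smul, Q.b_add, Q.b_smul, hrs, hrr', ← ha]
    intro h
    apply hvr
    have h1 : (1 + (p : ℤ) + p ^ 2) * a - (a + p * a') * (2 + p * 1) =
        -a + p * (p * a - 2 * a' - p * a') := by ring
    rw [h1] at h
    have h2 := (dvd_add_left (dvd_mul_right (p : ℤ) _)).1 h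
    exact (dvd_neg.1 h2)
  · rw [Q.b_sub, Q.b_smul, Q.b_smul, Q.b_add, Q.b_smul, h0, her', Q.b_comm r2 e]
    have hp0 : (p : ℤ) ≠ 0 := by exact_mod_cast hp.ne_zero
    have h1 : a + p * a' ≠ 0 := by
      intro h2
      apply hvr
      exact ⟨-a', by linear_combination h2⟩
    have h3 : (1 + (p : ℤ) + p ^ 2) * 0 - (a + p * a') * (0 + p * Q.b e r2) =
        -((a + p * a') * (p * Q.b e r2)) := by ring
    rw [h3]
    exact neg_ne_zero.2 (mul_ne_zero h1 (mul_ne_zero hp0 het))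

/-- **An isotropic vector with the product `1` with the root `r`.** -/
theorem exists_one {r r2 e w u1 u2 : L} (hr : Q.q r = 1) (hr2 : Q.q r2 = 1)
    (hrr : Q.b r r2 = 1) (he : Q.q e = 0) (her : Q.b e r = 0) (het : Q.b e r2 ≠ 0)
    (hw : Q.q w = 0) (hc : IsCoprime (Q.b w r) (Q.b w r2))
    (h1r : Q.b u1 r = 0) (h2r : Q.b u2 r = 0) (h1e : Q.b u1 e = 0) (h2e : Q.b u2 e = 0)
    (h12 : Q.b u1 u2 = 0) (hq1 : Q.q u1 ≠ 0) (hq2 : Q.q u2 ≠ 0) :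
    ∃ z, Q.q z = 0 ∧ Q.b z r = 1 := by
  classical
  have hrs : Q.b r r = 2 := by rw [Q.b_self, hr]; ring
  have hrr' : Q.b r2 r = 1 := (Q.b_comm _ _).trans hrr
  have her' : Q.b r e = 0 := (Q.b_comm _ _).trans her
  obtain ⟨t, ht⟩ : ∃ t, t = Q.b e r2 := ⟨_, rfl⟩
  rw [← ht] at het
  have ht' : Q.b r2 e = t := (Q.b_comm _ _).trans ht.symm
  set S := (2 * t).natAbs.primeFactors with hS
  have h2t : (2 * t).natAbs ≠ 0 := by
    rw [Int.natAbs_ne_zero]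
    exact mul_ne_zero two_ne_zero het
  have hSp : ∀ p ∈ S, p.Prime := fun p hp => Nat.prime_of_mem_primeFactors hp
  -- the local vectors
  have hloc : ∀ p : ℕ, p.Prime → ∃ v, Q.q v = 0 ∧ ¬ (p : ℤ) ∣ Q.b v r ∧ Q.b v e ≠ 0 :=
    fun p hp => Q.local_one hr hr2 hrr her (by rw [← ht]; exact het) hw hc hp
  choose! V hV0 hVr hVe using hloc
  -- the exponent
  obtain ⟨N, hN⟩ : ∃ N : ℕ, ∀ p ∈ S, (Q.b (V p) e).natAbs ≤ N :=
    ⟨∑ p ∈ S, (Q.b (V p) e).natAbs, fun p hp =>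
      Finset.single_le_sum (f := fun p => (Q.b (V p) e).natAbs) (fun _ _ => Nat.zero_le _) hp⟩
  have hNd : ∀ p ∈ S, ¬ ((p : ℤ) ^ N) ∣ Q.b (V p) e := by
    intro p hp h
    have h1 : p ^ N ∣ (Q.b (V p) e).natAbs := by
      have := Int.natAbs_dvd_natAbs.2 h
      rwa [Int.natAbs_pow, Int.natAbs_natCast] at this
    have h2 := Nat.le_of_dvd (Int.natAbs_pos.2 (hVe p (hSp p hp))) h1
    have h3 : N < p ^ N := Nat.lt_pow_self (hSp p hp).one_lt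
    exact absurd (h2.trans (hN p hp)) (by omega)
  -- scaling
  have hsc : ∀ p : ℕ, p.Prime → ∃ α : ℤ, ((p : ℤ) ^ N) ∣ α * Q.b (V p) r - 1 := by
    intro p hp
    have h1 : IsCoprime ((p : ℤ) ^ N) (Q.b (V p) r) :=
      ((Nat.prime_iff_prime_int.1 hp).coprime_iff_not_dvd.2 (hVr p hp)).pow_left
    obtain ⟨x, y, hxy⟩ := h1
    exact ⟨y, -x, by linear_combination hxy⟩
  choose! α hα using hsc
  -- the vectors in the hyperplane
  let W : ℕ → L := fun p => α p • V p - (α p * Q.b (V p) r - 1) • r2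
  have hWr : ∀ p, Q.b (W p) r = 1 := by
    intro p
    simp only [W]
    rw [Q.b_sub, Q.b_smul, Q.b_smul, hrr']; ring
  have hWq : ∀ p ∈ S, ((p : ℤ) ^ N) ∣ Q.q (W p) := by
    intro p hp
    obtain ⟨c, hc⟩ := hα p (hSp p hp)
    simp only [W]
    rw [Q.q_sub, Q.q_smul, Q.q_smul, Q.b_smul, Q.b_smul', hV0 p (hSp p hp), hc]
    exact ⟨(p : ℤ) ^ N * c ^ 2 * Q.q r2 - α p * c * Q.b (V p) r2, by ring⟩
  have hαp : ∀ p ∈ S, IsCoprime ((p : ℤ) ^ N) (α p) := by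
    intro p hp
    obtain ⟨c, hc⟩ := hα p (hSp p hp)
    exact ⟨-c, Q.b (V p) r, by linear_combination hc⟩
  have hWe : ∀ p ∈ S, ¬ ((p : ℤ) ^ N) ∣ Q.b (W p) e := by
    intro p hp h
    simp only [W] at h
    rw [Q.b_sub, Q.b_smul, Q.b_smul] at h
    have h1 := (dvd_sub_left ((hα p (hSp p hp)).mul_right _)).1 h
    exact hNd p hp ((hαp p hp).dvd_of_dvd_mul_left h1)
  obtain ⟨w1, hw1r, hw1⟩ := Q.glue_one hrr' N W S hSp (fun p _ => hWr p)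
  have hw1q : ∀ p ∈ S, ((p : ℤ) ^ N) ∣ Q.q w1 := by
    intro p hp
    obtain ⟨z, hz⟩ := hw1 p hp
    rw [hz, Q.q_add, Q.q_smul, Q.b_smul']
    refine dvd_add (dvd_add (hWq p hp) ?_) (dvd_mul_right _ _)
    exact ⟨(p : ℤ) ^ N * Q.q z, by ring⟩
  have hw1e : ∀ p ∈ S, ¬ ((p : ℤ) ^ N) ∣ Q.b w1 e := by
    intro p hp h
    obtain ⟨z, hz⟩ := hw1 p hp
    rw [hz, Q.b_add, Q.b_smul] at h
    exact hWe p hp ((dvd_add_left (dvd_mul_right _ _)).1 h)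
  -- the modulus
  obtain ⟨M, hM⟩ : ∃ M : ℤ, M = ∏ p ∈ S, (p : ℤ) ^ N := ⟨_, rfl⟩
  have hM0 : M ≠ 0 := by
    rw [hM]
    exact Finset.prod_ne_zero_iff.2 fun p hp => pow_ne_zero _ (by exact_mod_cast (hSp p hp).ne_zero)
  have hMq : M ∣ Q.q w1 := by
    rw [hM]
    refine Finset.prod_dvd_of_coprime ?_ hw1q
    intro p hp p' hp' hne
    refine IsCoprime.pow ?_
    rw [Nat.isCoprime_iff_coprime]
    exact (Nat.coprime_primes (hSp p hp) (hSp p' hp')).2 hne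
  -- the gcd
  obtain ⟨g, hg⟩ : ∃ g : ℕ, g = Int.gcd (Q.b w1 e) (M * (2 * t)) := ⟨_, rfl⟩
  have hMt : M * (2 * t) ≠ 0 := mul_ne_zero hM0 (mul_ne_zero two_ne_zero het)
  have hg0 : g ≠ 0 := by
    rw [hg]
    intro h
    exact hMt (Int.gcd_eq_zero_iff.1 h).2
  have hg1 : (g : ℤ) ∣ Q.b w1 e := by rw [hg]; exact Int.gcd_dvd_left _ _
  have hg2 : (g : ℤ) ∣ M * (2 * t) := by rw [hg]; exact Int.gcd_dvd_right _ _
  have hmemS : ∀ p : ℕ, p.Prime → (p : ℤ) ∣ M * (2 * t) → p ∈ S := by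
    intro p hp hd
    have hpi := Nat.prime_iff_prime_int.1 hp
    rcases hpi.dvd_or_dvd hd with h | h
    · rw [hM] at h
      obtain ⟨q', hq', hd'⟩ := (Prime.dvd_finsetProd_iff hpi _).1 h
      have h3 := hpi.dvd_of_dvd_pow hd'
      have h4 : p ∣ q' := by exact_mod_cast h3
      rw [(Nat.prime_dvd_prime_iff_eq hp (hSp q' hq')).1 h4]
      exact hq'
    · exact Nat.mem_primeFactors.2 ⟨hp, by
        rw [← Int.natCast_dvd]
        exact h, h2t⟩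
  have hgM : (g : ℤ) ∣ M := by
    rw [Int.natCast_dvd, Nat.dvd_iff_prime_pow_dvd_dvd]
    intro p k hp hk
    rcases Nat.eq_zero_or_pos k with h0 | h0
    · rw [h0, pow_zero]; exact one_dvd _
    have hk' : ((p : ℤ) ^ k) ∣ (g : ℤ) := by exact_mod_cast hk
    have hpS : p ∈ S := hmemS p hp
      ((dvd_pow_self (p : ℤ) (by omega)).trans (hk'.trans hg2))
    have hkN : k ≤ N := by
      by_contra hcon
      exact hw1e p hpS ((pow_dvd_pow (p : ℤ) (by omega : N ≤ k)).trans (hk'.trans hg1))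
    have h1 : ((p : ℤ) ^ k) ∣ M := by
      rw [hM]
      exact (pow_dvd_pow (p : ℤ) hkN).trans
        (Finset.dvd_prod_of_mem (fun q : ℕ => ((q : ℤ) ^ N)) hpS)
    have h2 := Int.natAbs_dvd_natAbs.2 h1
    rwa [Int.natAbs_pow, Int.natAbs_natCast] at h2
  -- Dirichlet
  obtain ⟨c1, hc1⟩ := hg1
  obtain ⟨K, hK⟩ := hg2
  have hg0' : (g : ℤ) ≠ 0 := by exact_mod_cast hg0
  have hcK : IsCoprime c1 K := by
    have h1 : (g : ℤ) = Q.b w1 e * Int.gcdA (Q.b w1 e) (M * (2 * t)) +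
        M * (2 * t) * Int.gcdB (Q.b w1 e) (M * (2 * t)) := by
      rw [hg]; exact Int.gcd_eq_gcd_ab _ _
    obtain ⟨x, hx⟩ : ∃ x, x = Int.gcdA (Q.b w1 e) (M * (2 * t)) := ⟨_, rfl⟩
    obtain ⟨y, hy⟩ : ∃ y, y = Int.gcdB (Q.b w1 e) (M * (2 * t)) := ⟨_, rfl⟩
    rw [← hx, ← hy, hc1, hK] at h1
    refine ⟨x, y, ?_⟩
    have h2 : (g : ℤ) * (x * c1 + y * K) = g * 1 := by linear_combination -h1
    exact mul_left_cancel₀ hg0' h2
  have hK0 : K ≠ 0 := by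
    rintro rfl
    rw [mul_zero] at hK
    exact hMt hK
  obtain ⟨P, hPb, hP, hPc⟩ := Nat.forall_exists_prime_gt_and_zmodEq
    (2 + M.natAbs + (Q.q u1).natAbs + (Q.q u2).natAbs) (q := K.natAbs) (a := c1)
    (Int.natAbs_ne_zero.2 hK0) (by
      rw [Int.isCoprime_iff_gcd_eq_one] at hcK ⊢
      rw [Int.gcd_def] at hcK ⊢
      rwa [Int.natAbs_natCast])
  have hPi := Nat.prime_iff_prime_int.1 hP
  have hlarge : ∀ z : ℤ, z ≠ 0 → z.natAbs < P → ¬ (P : ℤ) ∣ z := by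
    intro z hz hlt hd
    have h1 := Nat.le_of_dvd (Int.natAbs_pos.2 hz) (Int.natCast_dvd.1 hd)
    omega
  have hPM : ¬ (P : ℤ) ∣ M := hlarge M hM0 (by omega)
  have hPq1 : ¬ (P : ℤ) ∣ Q.q u1 := hlarge _ hq1 (by omega)
  have hPq2 : ¬ (P : ℤ) ∣ Q.q u2 := hlarge _ hq2 (by omega)
  obtain ⟨x, hx⟩ : ∃ x, (P : ℤ) = c1 + K * x := by
    have h1 : ((K.natAbs : ℕ) : ℤ) ∣ c1 - P := (Int.modEq_iff_dvd.1 hPc)
    rw [Int.natAbs_dvd] at h1
    obtain ⟨y, hy⟩ := h1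
    exact ⟨-y, by linear_combination -hy⟩
  -- the vector with `b(w0, e) = g P`
  obtain ⟨w0, hw0⟩ : ∃ w0, w0 = w1 + (M * x) • ((2 : ℤ) • r2 - r) := ⟨_, rfl⟩
  have hw0r : Q.b w0 r = 1 := by
    rw [hw0, Q.b_add, Q.b_smul, Q.b_sub, Q.b_smul, hw1r, hrr', hrs]; ring
  have hw0e : Q.b w0 e = g * P := by
    rw [hw0, Q.b_add, Q.b_smul, Q.b_sub, Q.b_smul, ht', her', hc1, hx]
    linear_combination x * hK
  have hw0q : M ∣ Q.q w0 := by
    rw [hw0, Q.q_add, Q.q_smul, Q.b_smul']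
    refine dvd_add (dvd_add hMq ?_) ?_
    · exact ⟨M * x ^ 2 * Q.q ((2 : ℤ) • r2 - r), by ring⟩
    · exact ⟨x * Q.b w1 ((2 : ℤ) • r2 - r), by ring⟩
  -- the conic
  obtain ⟨s1, s2, hs⟩ := conic_mod hP (by omega) (A := M ^ 2 * Q.q u1) (B := M * Q.b w0 u1)
    (C := Q.q w0) (D := M ^ 2 * Q.q u2) (E := M * Q.b w0 u2)
    (fun h => by
      rcases hPi.dvd_or_dvd h with h | h
      · exact hPM (hPi.dvd_of_dvd_pow h)
      · exact hPq1 h)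
    (fun h => by
      rcases hPi.dvd_or_dvd h with h | h
      · exact hPM (hPi.dvd_of_dvd_pow h)
      · exact hPq2 h)
  obtain ⟨v, hv⟩ : ∃ v, v = w0 + ((M * s1) • u1 + (M * s2) • u2) := ⟨_, rfl⟩
  have hvr : Q.b v r = 1 := by
    rw [hv, Q.b_add, Q.b_add, Q.b_smul, Q.b_smul, h1r, h2r, hw0r]; ring
  have hve : Q.b v e = g * P := by
    rw [hv, Q.b_add, Q.b_add, Q.b_smul, Q.b_smul, h1e, h2e, hw0e]; ring
  have hvq : Q.q v = (M ^ 2 * Q.q u1 * s1 ^ 2 + M * Q.b w0 u1 * s1) +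
      (M ^ 2 * Q.q u2 * s2 ^ 2 + M * Q.b w0 u2 * s2) + Q.q w0 := by
    rw [hv, Q.q_add, Q.q_add, Q.q_smul, Q.q_smul, Q.b_smul, Q.b_smul', h12, Q.b_add', Q.b_smul',
      Q.b_smul']
    ring
  have hd1 : (P : ℤ) ∣ Q.q v := by rw [hvq]; exact hs
  have hd2 : (g : ℤ) ∣ Q.q v := by
    refine hgM.trans ?_
    rw [hvq]
    refine dvd_add (dvd_add ?_ ?_) hw0q
    · exact ⟨M * Q.q u1 * s1 ^ 2 + Q.b w0 u1 * s1, by ring⟩
    · exact ⟨M * Q.q u2 * s2 ^ 2 + Q.b w0 u2 * s2, by ring⟩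
  have hcop : IsCoprime (g : ℤ) (P : ℤ) := by
    rw [isCoprime_comm]
    exact hPi.coprime_iff_not_dvd.2 fun h => hPM (h.trans hgM)
  obtain ⟨y, hy⟩ := hcop.mul_dvd hd2 hd1
  refine ⟨v - y • e, ?_, ?_⟩
  · rw [Q.q_sub, Q.q_smul, Q.b_smul', he, hve, hy]; ring
  · rw [Q.b_sub, Q.b_smul, hvr, her]; ring

end IQ

end Pool.Agent.Q76.LG
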