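import Mathlib

/-!
# Prime numbers in a residue class modulo which a given number is a square
-/

set_option autoImplicit false

namespace Pool.Agent.Q76.LG

open NumberTheorySymbols jacobiSym

/-- the last step -/
theorem prime_of_class {n : ℤ} (hn : n ≠ 0) {c1 K : ℤ} (hK : K ≠ 0) (bound : ℕ) {a : ℕ}
    (ha : Odd a) (hac : (4 * n.natAbs * K.natAbs).Coprime a) (haK : K ∣ (a : ℤ) - c1)
    (hJ : J(n | a) = 1) :
    ∃ P > bound, P.Prime ∧ K ∣ (P : ℤ) - c1 ∧ ∃ y : ℤ, (P : ℤ) ∣ y ^ 2 - n := by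
  have hm : 4 * n.natAbs * K.natAbs ≠ 0 :=
    mul_ne_zero (mul_ne_zero (by norm_num) (Int.natAbs_ne_zero.2 hn)) (Int.natAbs_ne_zero.2 hK)
  obtain ⟨P, hPb, hP, hPa⟩ := Nat.forall_exists_prime_gt_and_modEq (bound + 2) hm hac.symm
  have : Fact P.Prime := ⟨hP⟩
  have hPodd : Odd P := hP.odd_of_ne_two (by omega)
  refine ⟨P, by omega, hP, ?_, ?_⟩
  · have h1 : ((K.natAbs : ℕ) : ℤ) ∣ (P : ℤ) - a := by
      have h2 : P ≡ a [MOD K.natAbs] := hPa.of_mul_left _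
      exact (Nat.modEq_iff_dvd.1 h2.symm)
    rw [Int.natAbs_dvd] at h1
    have h3 : (P : ℤ) - c1 = ((P : ℤ) - a) + (a - c1) := by ring
    rw [h3]
    exact dvd_add h1 haK
  · have h1 : J(n | P) = 1 := by
      rw [jacobiSym.mod_right n hPodd, ← hJ, jacobiSym.mod_right n ha]
      congr 1
      exact hPa.of_mul_right _
    obtain ⟨s, hs⟩ := ZMod.isSquare_of_jacobiSym_eq_one h1
    obtain ⟨y, rfl⟩ := ZMod.intCast_surjective s
    refine ⟨y, ?_⟩
    rw [← ZMod.intCast_zmod_eq_zero_iff_dvd]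
    push_cast
    linear_combination -hs

/-- **A prime number in a residue class modulo which `n` is a square.** -/
theorem exists_prime_sq {n n' : ℤ} {p v : ℕ} (hp : p.Prime) (hp2 : p ≠ 2) (hv : Odd v)
    (hn : n = (p : ℤ) ^ v * n') (hn' : ¬ (p : ℤ) ∣ n') {c1 K : ℤ} (hK : K ≠ 0)
    (hcK : IsCoprime c1 K) (hpK : ¬ (p : ℤ) ∣ K) (bound : ℕ) :
    ∃ P > bound, P.Prime ∧ K ∣ (P : ℤ) - c1 ∧ ∃ y : ℤ, (P : ℤ) ∣ y ^ 2 - n := by
  have : Fact p.Prime := ⟨hp⟩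
  have hpi := Nat.prime_iff_prime_int.1 hp
  have hn'0 : n' ≠ 0 := fun h => hn' (h ▸ dvd_zero _)
  have hn0 : n ≠ 0 := by
    rw [hn]
    exact mul_ne_zero (pow_ne_zero _ (by exact_mod_cast hp.ne_zero)) hn'0
  have hK0 := Int.natAbs_ne_zero.2 hK
  obtain ⟨P0, hP0b, hP0, hP0c⟩ := Nat.forall_exists_prime_gt_and_zmodEq
    (bound + 2 + n.natAbs + K.natAbs) (q := K.natAbs) (a := c1) hK0 (by
      rw [Int.isCoprime_iff_gcd_eq_one] at hcK ⊢
      rw [Int.gcd_def] at hcK ⊢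
      rwa [Int.natAbs_natCast])
  have : Fact P0.Prime := ⟨hP0⟩
  have hP0K : K ∣ (P0 : ℤ) - c1 := by
    have h1 : ((K.natAbs : ℕ) : ℤ) ∣ c1 - P0 := (Int.modEq_iff_dvd.1 hP0c)
    rw [Int.natAbs_dvd] at h1
    have h2 := dvd_neg.2 h1
    rwa [neg_sub] at h2
  have hlarge : ∀ z : ℕ, z ≠ 0 → z < P0 → z.Coprime P0 := by
    intro z hz hlt
    rw [Nat.coprime_comm]
    exact (Nat.Prime.coprime_iff_not_dvd hP0).2 fun hd =>
      absurd (Nat.le_of_dvd (Nat.pos_of_ne_zero hz) hd) (by omega)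
  have hP0n : n.natAbs.Coprime P0 := hlarge _ (Int.natAbs_ne_zero.2 hn0) (by omega)
  have hP0k : K.natAbs.Coprime P0 := hlarge _ hK0 (by omega)
  have hP02 : (2 : ℕ).Coprime P0 := hlarge 2 (by norm_num) (by omega)
  have hP04 : (4 : ℕ).Coprime P0 := by
    have : (4 : ℕ) = 2 * 2 := by norm_num
    rw [this]
    exact Nat.Coprime.mul_left hP02 hP02
  have hP0odd : Odd P0 := hP0.odd_of_ne_two (by omega)
  have hgcd : n.gcd P0 = 1 := by
    rw [Int.gcd_def, Int.natAbs_natCast]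
    exact hP0n
  rcases jacobiSym.eq_one_or_neg_one hgcd with hJ | hJ
  · exact prime_of_class hn0 hK bound hP0odd
      (Nat.Coprime.mul_left (Nat.Coprime.mul_left hP04 hP0n) hP0k) hP0K hJ
  -- a nonresidue modulo `p`
  have hchar : ringChar (ZMod p) ≠ 2 := by
    rw [ZMod.ringChar_zmod_n]
    exact hp2
  obtain ⟨r, hr⟩ := FiniteField.exists_nonsquare hchar
  obtain ⟨r', rfl⟩ : ∃ r' : ℕ, (r' : ZMod p) = r := ⟨r.val, ZMod.natCast_zmod_val r⟩
  have hcop : (4 * n'.natAbs * K.natAbs).Coprime p := by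
    rw [Nat.coprime_comm, Nat.Prime.coprime_iff_not_dvd hp]
    intro h
    rcases (Nat.Prime.dvd_mul hp).1 h with h | h
    · rcases (Nat.Prime.dvd_mul hp).1 h with h | h
      · have h4 : p ∣ 2 ^ 2 := by simpa using h
        exact hp2 ((Nat.prime_dvd_prime_iff_eq hp Nat.prime_two).1 (hp.dvd_of_dvd_pow h4))
      · exact hn' (Int.natCast_dvd.2 h)
    · exact hpK (Int.natCast_dvd.2 h)
  obtain ⟨b, hb1, hb2⟩ := Nat.chineseRemainder hcop 1 r'
  have hb4 : b ≡ 1 [MOD 4] := (hb1.of_mul_right _).of_mul_right _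
  have hb4' : b % 4 = 1 := hb4
  have hbodd : Odd b := Nat.odd_iff.2 (by omega)
  have hpodd : Odd p := hp.odd_of_ne_two hp2
  have hbn : b ≡ 1 [MOD 4 * n'.natAbs] := hb1.of_mul_right _
  have hbk : b ≡ 1 [MOD K.natAbs] := hb1.of_mul_left _
  have hJ1 : J(n' | b) = 1 := by
    rw [jacobiSym.mod_right n' hbodd]
    have h1 : b % (4 * n'.natAbs) = 1 % (4 * n'.natAbs) := hbn
    rw [h1, ← jacobiSym.mod_right n' odd_one, jacobiSym.one_right]
  have hbr : ((b : ℤ) : ZMod p) = (r' : ZMod p) := by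
    have h1 := (ZMod.natCast_eq_natCast_iff b r' p).2 hb2
    push_cast
    exact h1
  have hJ2 : J((p : ℤ) | b) = -1 := by
    rw [← jacobiSym.quadratic_reciprocity_one_mod_four hb4' hpodd,
      ← jacobiSym.legendreSym.to_jacobiSym p (b : ℤ), legendreSym.eq_neg_one_iff, hbr]
    exact hr
  have hJ3 : J(n | b) = -1 := by
    rw [hn, jacobiSym.mul_left, jacobiSym.pow_left, hJ1, hJ2, hv.neg_one_pow]
    norm_num
  have hb0 : b ≠ 0 := by
    rintro rfl
    norm_num at hb4'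
  have hJ4 : J(n | P0 * b) = 1 := by
    rw [jacobiSym.mul_right' n hP0.ne_zero hb0, hJ, hJ3]; norm_num
  -- coprimality
  have hc1 : ∀ m : ℕ, b ≡ 1 [MOD m] → m.Coprime b := by
    intro m hm
    have h1 : Nat.gcd b m = Nat.gcd 1 m := hm.gcd_eq
    rw [Nat.gcd_one_left] at h1
    rw [Nat.coprime_comm]
    exact h1
  have hpb : p.Coprime b := by
    rw [Nat.Prime.coprime_iff_not_dvd hp]
    intro h
    apply hr
    rw [← hbr]
    have h2 : ((b : ℤ) : ZMod p) = 0 := by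
      push_cast
      exact (ZMod.natCast_eq_zero_iff b p).2 h
    rw [h2]
    exact ⟨0, by ring⟩
  have hnb : n.natAbs.Coprime b := by
    rw [hn, Int.natAbs_mul, Int.natAbs_pow, Int.natAbs_natCast]
    exact Nat.Coprime.mul_left (Nat.Coprime.pow_left _ hpb) (hc1 _ (hbn.of_mul_left _))
  refine prime_of_class hn0 hK bound (hP0odd.mul hbodd) ?_ ?_ hJ4
  · refine Nat.Coprime.mul_right ?_ ?_
    · exact Nat.Coprime.mul_left (Nat.Coprime.mul_left hP04 hP0n) hP0k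
    · exact Nat.Coprime.mul_left (Nat.Coprime.mul_left (hc1 _ hb4) hnb) (hc1 _ hbk)
  · have h1 : ((K.natAbs : ℕ) : ℤ) ∣ (b : ℤ) - 1 := by
      have h2 := Nat.modEq_iff_dvd.1 hbk.symm
      exact_mod_cast h2
    rw [Int.natAbs_dvd] at h1
    push_cast
    have h3 : (P0 : ℤ) * b - c1 = P0 * (b - 1) + (P0 - c1) := by ring
    rw [h3]
    exact dvd_add (h1.mul_left _) hP0K

/-- a quadratic equation modulo a prime number -/
theorem quad_mod {p : ℕ} (hp : p.Prime) (hp2 : p ≠ 2) {A B C y : ℤ} (hA : ¬ (p : ℤ) ∣ A)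
    (hd : (p : ℤ) ∣ y ^ 2 - (B ^ 2 - 4 * A * C)) : ∃ x : ℤ, (p : ℤ) ∣ A * x ^ 2 + B * x + C := by
  have : Fact p.Prime := ⟨hp⟩
  have hA' : ((A : ℤ) : ZMod p) ≠ 0 := fun h => hA ((ZMod.intCast_zmod_eq_zero_iff_dvd _ _).1 h)
  have h2 : (2 : ZMod p) ≠ 0 := by
    intro h4
    have h5 : ((2 : ℕ) : ZMod p) = 0 := by exact_mod_cast h4
    rw [ZMod.natCast_eq_zero_iff] at h5
    exact hp2 ((Nat.prime_dvd_prime_iff_eq hp Nat.prime_two).1 h5)
  have : NeZero (2 : ZMod p) := ⟨h2⟩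
  rw [← ZMod.intCast_zmod_eq_zero_iff_dvd] at hd
  push_cast at hd
  obtain ⟨x, hx⟩ := exists_quadratic_eq_zero (a := (A : ZMod p)) (b := (B : ZMod p))
    (c := (C : ZMod p)) hA' ⟨(y : ZMod p), by
      unfold discrim
      linear_combination -hd⟩
  obtain ⟨x', rfl⟩ := ZMod.intCast_surjective x
  refine ⟨x', ?_⟩
  rw [← ZMod.intCast_zmod_eq_zero_iff_dvd]
  push_cast
  linear_combination hx

end Pool.Agent.Q76.LG
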