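import Pool.Agent.Q76.LG.One
import Pool.Agent.Q76.LG.Sq

/-!
# Isotropic vectors with a product `1` with a given root, in rank four
-/

set_option autoImplicit false

namespace Pool.Agent.Q76.LG

/-- the prime number, for a square -/
theorem exists_prime_of_square {n y : ℤ} (hn : n = y ^ 2) {c1 K : ℤ} (hK : K ≠ 0)
    (hcK : IsCoprime c1 K) (bound : ℕ) :
    ∃ P > bound, P.Prime ∧ K ∣ (P : ℤ) - c1 ∧ ∃ y : ℤ, (P : ℤ) ∣ y ^ 2 - n := by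
  obtain ⟨P, hPb, hP, hPc⟩ := Nat.forall_exists_prime_gt_and_zmodEq
    bound (q := K.natAbs) (a := c1) (Int.natAbs_ne_zero.2 hK) (by
      rw [Int.isCoprime_iff_gcd_eq_one] at hcK ⊢
      rw [Int.gcd_def] at hcK ⊢
      rwa [Int.natAbs_natCast])
  refine ⟨P, hPb, hP, ?_, y, by rw [hn, sub_self]; exact dvd_zero _⟩
  have h1 : ((K.natAbs : ℕ) : ℤ) ∣ c1 - P := (Int.modEq_iff_dvd.1 hPc)
  rw [Int.natAbs_dvd] at h1
  have h2 := dvd_neg.2 h1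
  rwa [neg_sub] at h2

namespace IQ

variable {L : Type*} [AddCommGroup L] (Q : IQ L)

/-- the preparation -/
theorem prep {r r2 e w : L} (hr : Q.q r = 1) (hr2 : Q.q r2 = 1)
    (hrr : Q.b r r2 = 1) (her : Q.b e r = 0) (het : Q.b e r2 ≠ 0)
    (hw : Q.q w = 0) (hc : IsCoprime (Q.b w r) (Q.b w r2)) :
    ∃ (M : ℤ) (g : ℕ) (c1 K : ℤ) (w1 : L), M ≠ 0 ∧ (g : ℤ) ≠ 0 ∧ K ≠ 0 ∧ IsCoprime c1 K ∧
      M ∣ Q.q w1 ∧ Q.b w1 r = 1 ∧ Q.b w1 e = g * c1 ∧ M * (2 * Q.b e r2) = g * K ∧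
      (g : ℤ) ∣ M ∧ ∀ p : ℕ, p.Prime → (p : ℤ) ∣ M * (2 * Q.b e r2) → (p : ℤ) ∣ 2 * Q.b e r2 := by
  classical
  have hrs : Q.b r r = 2 := by rw [Q.b_self, hr]; ring
  have hrr' : Q.b r2 r = 1 := (Q.b_comm _ _).trans hrr
  have her' : Q.b r e = 0 := (Q.b_comm _ _).trans her
  obtain ⟨t, ht⟩ : ∃ t, t = Q.b e r2 := ⟨_, rfl⟩
  rw [← ht] at het
  have ht' : Q.b r2 e = t := (Q.b_comm _ _).trans ht.symm
  set S := (2 * t).natAbs.primeFactors with hS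
  have h2t : (2 * t).natAbs ≠ 0 := by
    rw [Int.natAbs_ne_zero]
    exact mul_ne_zero two_ne_zero het
  have hSp : ∀ p ∈ S, p.Prime := fun p hp => Nat.prime_of_mem_primeFactors hp
  -- the local vectors
  have hloc : ∀ p : ℕ, p.Prime → ∃ v, Q.q v = 0 ∧ ¬ (p : ℤ) ∣ Q.b v r ∧ Q.b v e ≠ 0 :=
    fun p hp => Q.local_one hr hr2 hrr her (by rw [← ht]; exact het) hw hc hp
  choose! V hV0 hVr hVe using hloc
  -- the exponent
  obtain ⟨N, hN⟩ : ∃ N : ℕ, ∀ p ∈ S, (Q.b (V p) e).natAbs ≤ N :=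
    ⟨∑ p ∈ S, (Q.b (V p) e).natAbs, fun p hp =>
      Finset.single_le_sum (f := fun p => (Q.b (V p) e).natAbs) (fun _ _ => Nat.zero_le _) hp⟩
  have hNd : ∀ p ∈ S, ¬ ((p : ℤ) ^ N) ∣ Q.b (V p) e := by
    intro p hp h
    have h1 : p ^ N ∣ (Q.b (V p) e).natAbs := by
      have := Int.natAbs_dvd_natAbs.2 h
      rwa [Int.natAbs_pow, Int.natAbs_natCast] at this
    have h2 := Nat.le_of_dvd (Int.natAbs_pos.2 (hVe p (hSp p hp))) h1
    have h3 : N < p ^ N := Nat.lt_pow_self (hSp p hp).one_lt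
    exact absurd (h2.trans (hN p hp)) (by omega)
  -- scaling
  have hsc : ∀ p : ℕ, p.Prime → ∃ α : ℤ, ((p : ℤ) ^ N) ∣ α * Q.b (V p) r - 1 := by
    intro p hp
    have h1 : IsCoprime ((p : ℤ) ^ N) (Q.b (V p) r) :=
      ((Nat.prime_iff_prime_int.1 hp).coprime_iff_not_dvd.2 (hVr p hp)).pow_left
    obtain ⟨x, y, hxy⟩ := h1
    exact ⟨y, -x, by linear_combination hxy⟩
  choose! α hα using hsc
  -- the vectors in the hyperplane
  let W : ℕ → L := fun p => α p • V p - (α p * Q.b (V p) r - 1) • r2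
  have hWr : ∀ p, Q.b (W p) r = 1 := by
    intro p
    simp only [W]
    rw [Q.b_sub, Q.b_smul, Q.b_smul, hrr']; ring
  have hWq : ∀ p ∈ S, ((p : ℤ) ^ N) ∣ Q.q (W p) := by
    intro p hp
    obtain ⟨c, hc⟩ := hα p (hSp p hp)
    simp only [W]
    rw [Q.q_sub, Q.q_smul, Q.q_smul, Q.b_smul, Q.b_smul', hV0 p (hSp p hp), hc]
    exact ⟨(p : ℤ) ^ N * c ^ 2 * Q.q r2 - α p * c * Q.b (V p) r2, by ring⟩
  have hαp : ∀ p ∈ S, IsCoprime ((p : ℤ) ^ N) (α p) := by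
    intro p hp
    obtain ⟨c, hc⟩ := hα p (hSp p hp)
    exact ⟨-c, Q.b (V p) r, by linear_combination hc⟩
  have hWe : ∀ p ∈ S, ¬ ((p : ℤ) ^ N) ∣ Q.b (W p) e := by
    intro p hp h
    simp only [W] at h
    rw [Q.b_sub, Q.b_smul, Q.b_smul] at h
    have h1 := (dvd_sub_left ((hα p (hSp p hp)).mul_right _)).1 h
    exact hNd p hp ((hαp p hp).dvd_of_dvd_mul_left h1)
  obtain ⟨w1, hw1r, hw1⟩ := Q.glue_one hrr' N W S hSp (fun p _ => hWr p)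
  have hw1q : ∀ p ∈ S, ((p : ℤ) ^ N) ∣ Q.q w1 := by
    intro p hp
    obtain ⟨z, hz⟩ := hw1 p hp
    rw [hz, Q.q_add, Q.q_smul, Q.b_smul']
    refine dvd_add (dvd_add (hWq p hp) ?_) (dvd_mul_right _ _)
    exact ⟨(p : ℤ) ^ N * Q.q z, by ring⟩
  have hw1e : ∀ p ∈ S, ¬ ((p : ℤ) ^ N) ∣ Q.b w1 e := by
    intro p hp h
    obtain ⟨z, hz⟩ := hw1 p hp
    rw [hz, Q.b_add, Q.b_smul] at h
    exact hWe p hp ((dvd_add_left (dvd_mul_right _ _)).1 h)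
  -- the modulus
  obtain ⟨M, hM⟩ : ∃ M : ℤ, M = ∏ p ∈ S, (p : ℤ) ^ N := ⟨_, rfl⟩
  have hM0 : M ≠ 0 := by
    rw [hM]
    exact Finset.prod_ne_zero_iff.2 fun p hp => pow_ne_zero _ (by exact_mod_cast (hSp p hp).ne_zero)
  have hMq : M ∣ Q.q w1 := by
    rw [hM]
    refine Finset.prod_dvd_of_coprime ?_ hw1q
    intro p hp p' hp' hne
    refine IsCoprime.pow ?_
    rw [Nat.isCoprime_iff_coprime]
    exact (Nat.coprime_primes (hSp p hp) (hSp p' hp')).2 hne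
  -- the gcd
  obtain ⟨g, hg⟩ : ∃ g : ℕ, g = Int.gcd (Q.b w1 e) (M * (2 * t)) := ⟨_, rfl⟩
  have hMt : M * (2 * t) ≠ 0 := mul_ne_zero hM0 (mul_ne_zero two_ne_zero het)
  have hg0 : g ≠ 0 := by
    rw [hg]
    intro h
    exact hMt (Int.gcd_eq_zero_iff.1 h).2
  have hg1 : (g : ℤ) ∣ Q.b w1 e := by rw [hg]; exact Int.gcd_dvd_left _ _
  have hg2 : (g : ℤ) ∣ M * (2 * t) := by rw [hg]; exact Int.gcd_dvd_right _ _
  have hmemS : ∀ p : ℕ, p.Prime → (p : ℤ) ∣ M * (2 * t) → p ∈ S := by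
    intro p hp hd
    have hpi := Nat.prime_iff_prime_int.1 hp
    rcases hpi.dvd_or_dvd hd with h | h
    · rw [hM] at h
      obtain ⟨q', hq', hd'⟩ := (Prime.dvd_finsetProd_iff hpi _).1 h
      have h3 := hpi.dvd_of_dvd_pow hd'
      have h4 : p ∣ q' := by exact_mod_cast h3
      rw [(Nat.prime_dvd_prime_iff_eq hp (hSp q' hq')).1 h4]
      exact hq'
    · exact Nat.mem_primeFactors.2 ⟨hp, by
        rw [← Int.natCast_dvd]
        exact h, h2t⟩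
  have hgM : (g : ℤ) ∣ M := by
    rw [Int.natCast_dvd, Nat.dvd_iff_prime_pow_dvd_dvd]
    intro p k hp hk
    rcases Nat.eq_zero_or_pos k with h0 | h0
    · rw [h0, pow_zero]; exact one_dvd _
    have hk' : ((p : ℤ) ^ k) ∣ (g : ℤ) := by exact_mod_cast hk
    have hpS : p ∈ S := hmemS p hp
      ((dvd_pow_self (p : ℤ) (by omega)).trans (hk'.trans hg2))
    have hkN : k ≤ N := by
      by_contra hcon
      exact hw1e p hpS ((pow_dvd_pow (p : ℤ) (by omega : N ≤ k)).trans (hk'.trans hg1))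
    have h1 : ((p : ℤ) ^ k) ∣ M := by
      rw [hM]
      exact (pow_dvd_pow (p : ℤ) hkN).trans
        (Finset.dvd_prod_of_mem (fun q : ℕ => ((q : ℤ) ^ N)) hpS)
    have h2 := Int.natAbs_dvd_natAbs.2 h1
    rwa [Int.natAbs_pow, Int.natAbs_natCast] at h2
  -- Dirichlet
  obtain ⟨c1, hc1⟩ := hg1
  obtain ⟨K, hK⟩ := hg2
  have hg0' : (g : ℤ) ≠ 0 := by exact_mod_cast hg0
  have hcK : IsCoprime c1 K := by
    have h1 : (g : ℤ) = Q.b w1 e * Int.gcdA (Q.b w1 e) (M * (2 * t)) +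
        M * (2 * t) * Int.gcdB (Q.b w1 e) (M * (2 * t)) := by
      rw [hg]; exact Int.gcd_eq_gcd_ab _ _
    obtain ⟨x, hx⟩ : ∃ x, x = Int.gcdA (Q.b w1 e) (M * (2 * t)) := ⟨_, rfl⟩
    obtain ⟨y, hy⟩ : ∃ y, y = Int.gcdB (Q.b w1 e) (M * (2 * t)) := ⟨_, rfl⟩
    rw [← hx, ← hy, hc1, hK] at h1
    refine ⟨x, y, ?_⟩
    have h2 : (g : ℤ) * (x * c1 + y * K) = g * 1 := by linear_combination -h1
    exact mul_left_cancel₀ hg0' h2
  have hK0 : K ≠ 0 := by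
    rintro rfl
    rw [mul_zero] at hK
    exact hMt hK
  refine ⟨M, g, c1, K, w1, hM0, hg0', hK0, hcK, hMq, hw1r, hc1, ?_, hgM, fun p hp hd => ?_⟩
  · rw [← ht]; exact hK
  · rw [← ht] at hd ⊢
    exact Int.natCast_dvd.2 (Nat.dvd_of_mem_primeFactors (hmemS p hp hd))

/-- the discriminant modulo `P` -/
theorem disc_mod {r r2 e u w : L} {P : ℕ} (hP : P.Prime) {D A B C E t : ℤ}
    (hr : Q.q r = 1) (hr2 : Q.q r2 = 1) (hrr : Q.b r r2 = 1) (he : Q.q e = 0)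
    (her : Q.b e r = 0) (ht : Q.b e r2 = t) (hur : Q.b u r = 0) (hue : Q.b u e = 0)
    (hwr : Q.b w r = 1) (hPe : (P : ℤ) ∣ Q.b w e) (hPt : ¬ (P : ℤ) ∣ t) (hPD : ¬ (P : ℤ) ∣ D)
    (h : D • w = A • r + B • u + (C • e + E • r2)) :
    (P : ℤ) ∣ Q.b w u ^ 2 - 4 * Q.q u * Q.q w + Q.q u := by
  have hPi := Nat.prime_iff_prime_int.1 hP
  have hrs : Q.b r r = 2 := by rw [Q.b_self, hr]; ring
  have hre : Q.b r e = 0 := (Q.b_comm _ _).trans her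
  have hru : Q.b r u = 0 := (Q.b_comm _ _).trans hur
  have hr2r : Q.b r2 r = 1 := (Q.b_comm _ _).trans hrr
  have hr2e : Q.b r2 e = t := (Q.b_comm _ _).trans ht
  have heu : Q.b e u = 0 := (Q.b_comm _ _).trans hue
  have hee : Q.b e e = 0 := by rw [Q.b_self, he]; ring
  have huu : Q.b u u = 2 * Q.q u := Q.b_self u
  have e1 : D = 2 * A + E := by
    have h1 : Q.b (D • w) r = Q.b (A • r + B • u + (C • e + E • r2)) r := by rw [h]
    rw [Q.b_smul, Q.b_add, Q.b_add, Q.b_add, Q.b_smul, Q.b_smul, Q.b_smul, Q.b_smul, hwr, hrs, hur,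
      her, hr2r] at h1
    linear_combination h1
  have e2 : D * Q.b w e = E * t := by
    have h1 : Q.b (D • w) e = Q.b (A • r + B • u + (C • e + E • r2)) e := by rw [h]
    rw [Q.b_smul, Q.b_add, Q.b_add, Q.b_add, Q.b_smul, Q.b_smul, Q.b_smul, Q.b_smul, hre, hue,
      hee, hr2e] at h1
    linear_combination h1
  have e3 : D * Q.b w u = B * (2 * Q.q u) + E * Q.b r2 u := by
    have h1 : Q.b (D • w) u = Q.b (A • r + B • u + (C • e + E • r2)) u := by rw [h]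
    rw [Q.b_smul, Q.b_add, Q.b_add, Q.b_add, Q.b_smul, Q.b_smul, Q.b_smul, Q.b_smul, hru, huu,
      heu] at h1
    linear_combination h1
  have e4 : D ^ 2 * Q.q w = A ^ 2 + B ^ 2 * Q.q u + E * (E + A + B * Q.b u r2 + C * t) := by
    have h1 : Q.q (D • w) = Q.q (A • r + B • u + (C • e + E • r2)) := by rw [h]
    simp only [Q.q_smul, Q.q_add, Q.b_add, Q.b_add', Q.b_smul, Q.b_smul', hr, hr2, he, hru, hre,
      hrr, hue, ht] at h1
    linear_combination h1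
  have hE : (P : ℤ) ∣ E := by
    have h1 : (P : ℤ) ∣ E * t := by
      rw [← e2]
      exact hPe.mul_left _
    exact (hPi.dvd_or_dvd h1).resolve_right hPt
  obtain ⟨E', hE'⟩ := hE
  have key : (P : ℤ) ∣ D ^ 2 * (Q.b w u ^ 2 - 4 * Q.q u * Q.q w + Q.q u) := by
    have h1 : D ^ 2 * (Q.b w u ^ 2 - 4 * Q.q u * Q.q w + Q.q u) =
        (D * Q.b w u) ^ 2 - 4 * Q.q u * (D ^ 2 * Q.q w) + D ^ 2 * Q.q u := by ring
    rw [h1, e3, e4, e1]
    have h2 : (B * (2 * Q.q u) + E * Q.b r2 u) ^ 2 -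
        4 * Q.q u * (A ^ 2 + B ^ 2 * Q.q u + E * (E + A + B * Q.b u r2 + C * t)) +
        (2 * A + E) ^ 2 * Q.q u = E * (2 * (B * (2 * Q.q u)) * Q.b r2 u + E * Q.b r2 u ^ 2 -
          4 * Q.q u * (E + A + B * Q.b u r2 + C * t) + (4 * A + E) * Q.q u) := by ring
    rw [h2, hE']
    exact ⟨E' * (2 * (B * (2 * Q.q u)) * Q.b r2 u + P * E' * Q.b r2 u ^ 2 -
          4 * Q.q u * (P * E' + A + B * Q.b u r2 + C * t) + (4 * A + P * E') * Q.q u), by ring⟩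
  rcases hPi.dvd_or_dvd key with h1 | h1
  · exact absurd (hPi.dvd_of_dvd_pow h1) hPD
  · exact h1

/-- **An isotropic vector with the product `1` with the root `r`, in rank four.** -/
theorem exists_one_of {r r2 e w u : L} (hr : Q.q r = 1) (hr2 : Q.q r2 = 1)
    (hrr : Q.b r r2 = 1) (he : Q.q e = 0) (her : Q.b e r = 0) (het : Q.b e r2 ≠ 0)
    (hw : Q.q w = 0) (hc : IsCoprime (Q.b w r) (Q.b w r2))
    (hur : Q.b u r = 0) (hue : Q.b u e = 0)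
    (hrel : ∀ w, ∃ D A B C E : ℤ, D ≠ 0 ∧ D • w = A • r + B • u + (C • e + E • r2))
    (hn0 : Q.q u ≠ 0)
    (hprime : ∀ (c1 K : ℤ) (bound : ℕ), K ≠ 0 → IsCoprime c1 K →
      (∀ p : ℕ, p.Prime → (p : ℤ) ∣ K → (p : ℤ) ∣ 2 * Q.b e r2) →
      ∃ P > bound, P.Prime ∧ K ∣ (P : ℤ) - c1 ∧ ∃ y : ℤ, (P : ℤ) ∣ y ^ 2 - -Q.q u) :
    ∃ z, Q.q z = 0 ∧ Q.b z r = 1 := by
  obtain ⟨M, g, c1, K, w1, hM0, hg0, hK0, hcK, hMq, hw1r, hc1, hK, hgM, hMp⟩ :=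
    Q.prep hr hr2 hrr her het hw hc
  have hrs : Q.b r r = 2 := by rw [Q.b_self, hr]; ring
  have hrr' : Q.b r2 r = 1 := (Q.b_comm _ _).trans hrr
  have her' : Q.b r e = 0 := (Q.b_comm _ _).trans her
  obtain ⟨t, ht⟩ : ∃ t, t = Q.b e r2 := ⟨_, rfl⟩
  rw [← ht] at het hK hMp hprime
  have ht' : Q.b r2 e = t := (Q.b_comm _ _).trans ht.symm
  obtain ⟨D, A, B, C, E, hD0, hrel1⟩ := hrel w1
  obtain ⟨P, hPb, hP, hPK, y, hy⟩ := hprime c1 K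
    (2 + M.natAbs + (Q.q u).natAbs + D.natAbs + t.natAbs) hK0 hcK
    (fun p hp h => hMp p hp (hK ▸ h.mul_left _))
  have hPi := Nat.prime_iff_prime_int.1 hP
  have hlarge : ∀ z : ℤ, z ≠ 0 → z.natAbs < P → ¬ (P : ℤ) ∣ z := by
    intro z hz hlt hd
    have h1 := Nat.le_of_dvd (Int.natAbs_pos.2 hz) (Int.natCast_dvd.1 hd)
    omega
  have hPM : ¬ (P : ℤ) ∣ M := hlarge M hM0 (by omega)
  have hPq : ¬ (P : ℤ) ∣ Q.q u := hlarge _ hn0 (by omega)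
  have hPD : ¬ (P : ℤ) ∣ D := hlarge _ hD0 (by omega)
  have hPt : ¬ (P : ℤ) ∣ t := hlarge _ het (by omega)
  obtain ⟨x, hx⟩ := hPK
  obtain ⟨w0, hw0⟩ : ∃ w0, w0 = w1 + (M * x) • ((2 : ℤ) • r2 - r) := ⟨_, rfl⟩
  have hw0r : Q.b w0 r = 1 := by
    rw [hw0, Q.b_add, Q.b_smul, Q.b_sub, Q.b_smul, hw1r, hrr', hrs]; ring
  have hw0e : Q.b w0 e = g * P := by
    rw [hw0, Q.b_add, Q.b_smul, Q.b_sub, Q.b_smul, ht', her', hc1]
    linear_combination x * hK - g * hx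
  have hw0q : M ∣ Q.q w0 := by
    rw [hw0, Q.q_add, Q.q_smul, Q.b_smul']
    refine dvd_add (dvd_add hMq ?_) ?_
    · exact ⟨M * x ^ 2 * Q.q ((2 : ℤ) • r2 - r), by ring⟩
    · exact ⟨x * Q.b w1 ((2 : ℤ) • r2 - r), by ring⟩
  have hrel0 : D • w0 = (A - D * M * x) • r + B • u + (C • e + (E + 2 * (D * M * x)) • r2) := by
    rw [hw0, smul_add, hrel1]
    module
  have hdisc := Q.disc_mod hP hr hr2 hrr he her ht.symm hur hue hw0r
    (by rw [hw0e]; exact dvd_mul_left _ _) hPt hPD hrel0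
  obtain ⟨s, hs⟩ := quad_mod hP (by omega) (A := M ^ 2 * Q.q u) (B := M * Q.b w0 u)
    (C := Q.q w0) (y := M * y)
    (fun h => by
      rcases hPi.dvd_or_dvd h with h | h
      · exact hPM (hPi.dvd_of_dvd_pow h)
      · exact hPq h)
    (by
      have h1 : (M * y) ^ 2 - ((M * Q.b w0 u) ^ 2 - 4 * (M ^ 2 * Q.q u) * Q.q w0) =
          M ^ 2 * (y ^ 2 - -Q.q u) - M ^ 2 * (Q.b w0 u ^ 2 - 4 * Q.q u * Q.q w0 + Q.q u) := by ring
      rw [h1]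
      exact dvd_sub (hy.mul_left _) (hdisc.mul_left _))
  obtain ⟨v', hv'⟩ : ∃ v', v' = w0 + (M * s) • u := ⟨_, rfl⟩
  have hvr : Q.b v' r = 1 := by
    rw [hv', Q.b_add, Q.b_smul, hur, hw0r]; ring
  have hve : Q.b v' e = g * P := by
    rw [hv', Q.b_add, Q.b_smul, hue, hw0e]; ring
  have hvq : Q.q v' = M ^ 2 * Q.q u * s ^ 2 + M * Q.b w0 u * s + Q.q w0 := by
    rw [hv', Q.q_add, Q.q_smul, Q.b_smul']
    ring
  have hd1 : (P : ℤ) ∣ Q.q v' := by rw [hvq]; exact hs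
  have hd2 : (g : ℤ) ∣ Q.q v' := by
    refine hgM.trans ?_
    rw [hvq]
    refine dvd_add ?_ hw0q
    exact ⟨M * Q.q u * s ^ 2 + Q.b w0 u * s, by ring⟩
  have hcop : IsCoprime (g : ℤ) (P : ℤ) := by
    rw [isCoprime_comm]
    exact hPi.coprime_iff_not_dvd.2 fun h => hPM (h.trans hgM)
  obtain ⟨k, hk⟩ := hcop.mul_dvd hd2 hd1
  refine ⟨v' - k • e, ?_, ?_⟩
  · rw [Q.q_sub, Q.q_smul, Q.b_smul', he, hve, hk]; ring
  · rw [Q.b_sub, Q.b_smul, hvr, her]; ring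

end IQ

end Pool.Agent.Q76.LG
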