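import Pool.Agent.Q76.LG.AT
import Pool.Agent.Q76.LG.One
import Pool.Agent.Q76.FH.Crit

/-!
# Addington's and Hassett's criteria are equivalent in `C_{2 k^2}` when the rank is at least four
-/

set_option autoImplicit false

namespace Pool.Agent.Q76.LG

open Pool.Agent.Y95.Q Pool.Agent.Y95.Q.H4 Pool.Agent.Q76.FH

variable {X : CubicFourfold} {H : H4 X}

theorem isHodge_of_mem_span {v : Fin 23 → ℤ} (hv : v ∈ Submodule.span ℤ {v | H.IsHodge v}) :
    H.IsHodge v := by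
  induction hv using Submodule.span_induction with
  | mem x hx => exact hx
  | zero => exact H.isHodge_zero
  | add x y _ _ hx hy => exact H.isHodge_add hx hy
  | smul a x _ hx => exact H.isHodge_smul a hx

/-- Hodge classes orthogonal to fewer classes than the rank -/
theorem exists_perp {k : ℕ} (hr : k < H.rank) (φ : Fin k → Fin 23 → ℤ) :
    ∃ v, H.IsHodge v ∧ v ≠ 0 ∧ ∀ i, H.ip (φ i) v = 0 := by
  by_contra hcon
  push Not at hcon
  let f : Submodule.span ℤ {v | H.IsHodge v} →ₗ[ℤ] (Fin k → ℤ) :=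
    { toFun := fun v i => H.ip (φ i) v
      map_add' := fun u v => by
        funext i
        simp [ip_add_right]
      map_smul' := fun n v => by
        funext i
        exact H.ip_smul_right n (φ i) v.1 }
  have hinj : Function.Injective f := by
    rw [← LinearMap.ker_eq_bot, Submodule.eq_bot_iff]
    rintro ⟨v, hv⟩ hz
    by_contra hne
    have hv0 : v ≠ 0 := fun h => hne (Subtype.ext h)
    obtain ⟨i, hi⟩ := hcon v (isHodge_of_mem_span hv) hv0
    exact hi (congrFun (LinearMap.mem_ker.1 hz) i)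
  have h1 := LinearMap.finrank_le_finrank_of_injective hinj
  rw [Module.finrank_fin_fun] at h1
  unfold H4.rank at hr
  omega

/-- an isotropic class in the Mukai lattice which is primitive against `A_2` -/
theorem exists_coprime (hH : H.IsCohomology) (h : IsK3 H) :
    ∃ (s : ℤ) (t : Fin 23 → ℤ) (ht : H.IsHodge t), (muk hH).q (s, ⟨t, ht⟩) = 0 ∧
      IsCoprime (2 * s + H.ip H.h t) (s + H.ip H.h t) := by
  obtain ⟨x, v, y, u, hv, hu, h0, h1⟩ := h
  have hq : (muk hH).q (x, ⟨v, hv⟩) = 0 := by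
    have h2 := cc_of_iso hH h0
    rw [q_eq]
    exact h2
  obtain ⟨e, he⟩ : ∃ e : ℤ × hodge H, e = (x, ⟨v, hv⟩) := ⟨_, rfl⟩
  obtain ⟨z, hz⟩ : ∃ z : ℤ × hodge H, z = (y, ⟨u, hu⟩) := ⟨_, rfl⟩
  rw [← he] at hq
  have hez : (muk hH).b e z = 1 := by rw [he, hz]; exact h1
  have hze : (muk hH).b z e = 1 := ((muk hH).b_comm _ _).trans hez
  have hf : (muk hH).q (z - (muk hH).q z • e) = 0 := by
    rw [(muk hH).q_sub, (muk hH).q_smul, (muk hH).b_smul', hq, hze]
    ring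
  have hef : (muk hH).b e (z - (muk hH).q z • e) = 1 := by
    rw [(muk hH).b_sub', (muk hH).b_smul', (muk hH).b_self, hq, hez]
    ring
  have hcch : cc H H.h = 3 := by
    have := two_cc hH H.h
    rw [hH.h_self] at this
    linarith
  have b1 : ∀ (s : ℤ) {t : Fin 23 → ℤ} (ht : H.IsHodge t),
      (muk hH).b (s, ⟨t, ht⟩) (1, ⟨0, H.isHodge_zero⟩) = 2 * s + H.ip H.h t := fun s t ht =>
    b_one hH s ht
  have b2 : ∀ (s : ℤ) {t : Fin 23 → ℤ} (ht : H.IsHodge t),
      (muk hH).b (s, ⟨t, ht⟩) (-1, ⟨H.h, hH.h_hodge⟩) = s + H.ip H.h t := by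
    intro s t ht
    rw [b_eq]
    simp only [hH.h_self, hH.comm t H.h]
    ring
  obtain ⟨⟨s, ⟨t, ht⟩⟩, hw0, hwc⟩ := (muk hH).exists_prim (l := (1, ⟨0, H.isHodge_zero⟩))
    (l' := (-1, ⟨H.h, hH.h_hodge⟩)) (e := e) (f := z - (muk hH).q z • e)
    (by
      rw [q_eq]
      simp only [ip_zero_right, cc]
      norm_num)
    (by
      rw [q_eq, hcch, hH.h_self]
      norm_num)
    (by
      rw [b2, ip_zero_right, add_zero])
    (by
      rintro ⟨s, ⟨t, ht⟩⟩ h2 h3 h4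
      replace h3 := (b1 s ht).symm.trans h3
      replace h4 := (b2 s ht).symm.trans h4
      replace h2 := (q_eq hH s ht).symm.trans h2
      have ha : H.ip H.h t = 0 := by linarith
      have hs : s = 0 := by linarith
      have ht0 : t = 0 := by
        by_contra hne
        have h5 := hH.pos t ht hne
        have h6 := two_cc hH t
        rw [ha] at h6
        rw [hs, ha] at h2
        linarith
      subst hs
      subst ht0
      rfl) hq hf hef
  refine ⟨s, t, ht, hw0, ?_⟩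
  obtain ⟨α, β, hαβ⟩ := hwc
  exact ⟨α, β, (congrArg₂ (fun a b => α * a + β * b) (b1 s ht) (b2 s ht)).symm.trans hαβ⟩

/-- **Addington's criterion from a hyperbolic plane, an isotropic class on `F(X)` and two
orthogonal classes.** -/
theorem fanoHilb_of_isK3 (hH : H.IsCohomology) (h : IsK3 H) {l v1 v2 : Fin 23 → ℤ}
    (hl : H.IsHodge l) (hl0 : H.ip H.h l ≠ 0) (hll : H.ip l l = H.ip H.h l ^ 2)
    (hv1 : H.IsHodge v1) (hv2 : H.IsHodge v2) (h1 : H.ip H.h v1 = 0) (h2 : H.ip H.h v2 = 0)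
    (hl1 : H.ip l v1 = 0) (hl2 : H.ip l v2 = 0) (h12 : H.ip v1 v2 = 0) (hn1 : v1 ≠ 0)
    (hn2 : v2 ≠ 0) : FanoHilb H := by
  obtain ⟨m, hm⟩ : ∃ m, m = H.ip H.h l := ⟨_, rfl⟩
  rw [← hm] at hl0 hll
  obtain ⟨s, t, ht, hq, hc⟩ := exists_coprime hH h
  have hcch : cc H H.h = 3 := by
    have := two_cc hH H.h
    rw [hH.h_self] at this
    linarith
  have b1 : ∀ (s : ℤ) {t : Fin 23 → ℤ} (ht : H.IsHodge t),
      (muk hH).b (s, ⟨t, ht⟩) (1, ⟨0, H.isHodge_zero⟩) = 2 * s + H.ip H.h t := fun s t ht =>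
    b_one hH s ht
  have b2 : ∀ (s : ℤ) {t : Fin 23 → ℤ} (ht : H.IsHodge t),
      (muk hH).b (s, ⟨t, ht⟩) (-1, ⟨H.h, hH.h_hodge⟩) = s + H.ip H.h t := by
    intro s t ht
    rw [b_eq]
    simp only [hH.h_self, hH.comm t H.h]
    ring
  have hml : H.ip H.h l = m := hm.symm
  have be : ∀ {v : Fin 23 → ℤ} (hv : H.IsHodge v), H.ip H.h v = 0 → H.ip l v = 0 →
      (muk hH).b (0, ⟨v, hv⟩) (-m, ⟨l, hl⟩) = 0 := by
    intro v hv e1 e2
    rw [b_eq]
    simp only [e1, hml, hH.comm v l, e2]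
    ring
  have qv : ∀ {v : Fin 23 → ℤ} (hv : H.IsHodge v), H.ip H.h v = 0 → v ≠ 0 →
      (muk hH).q (0, ⟨v, hv⟩) ≠ 0 := by
    intro v hv e1 hne h0
    have h5 := hH.pos v hv hne
    have h6 := two_cc hH v
    rw [e1] at h6
    replace h0 := (q_eq hH 0 hv).symm.trans h0
    rw [e1] at h0
    linarith
  obtain ⟨⟨s', ⟨T, hT⟩⟩, hz0, hz1⟩ := (muk hH).exists_one (r := (-1, ⟨H.h, hH.h_hodge⟩))
    (r2 := (1, ⟨0, H.isHodge_zero⟩)) (e := (-m, ⟨l, hl⟩)) (w := (s, ⟨t, ht⟩))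
    (u1 := (0, ⟨v1, hv1⟩)) (u2 := (0, ⟨v2, hv2⟩))
    (by
      rw [q_eq, hcch, hH.h_self]
      norm_num)
    (by
      rw [q_eq]
      simp only [ip_zero_right, cc]
      norm_num)
    (by
      rw [b1, hH.h_self]; norm_num)
    (by
      rw [q_eq]
      have h6 := two_cc hH l
      rw [hml, hll] at h6
      rw [hml]
      have h7 : cc H l = 0 := by linarith
      rw [h7]; ring)
    (by rw [b2, hml]; ring)
    (by
      rw [b1, hml]
      intro h0
      apply hl0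
      linarith)
    hq
    (by
      rw [b2, b1]
      exact hc.symm)
    (by rw [b2, h1]; ring)
    (by rw [b2, h2]; ring)
    (be hv1 h1 hl1) (be hv2 h2 hl2)
    (by
      rw [b_eq]
      simp only [h1, h2, h12]
      ring)
    (qv hv1 h1 hn1) (qv hv2 h2 hn2)
  replace hz0 := (q_eq hH s' hT).symm.trans hz0
  replace hz1 := (b2 s' hT).symm.trans hz1
  refine fanoHilb_of_disc hH hT (n := s') ?_
  rw [disc_cc hH]
  have h3 : H.ip H.h T = 1 - s' := by linarith
  rw [h3] at hz0 ⊢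
  linear_combination (-6) * hz0

/-- **The two criteria are equivalent.** -/
theorem fanoHilb_iff (hH : H.IsCohomology) (hr : 4 ≤ H.rank) {v : Fin 23 → ℤ} {k : ℤ}
    (hv : H.IsHodge v) (hk : k ≠ 0) (hd : H.disc v = 2 * k ^ 2) : FanoHilb H ↔ H.HasK3 := by
  refine ⟨hasK3_of_fanoHilb hH, fun h => ?_⟩
  -- the hyperbolic plane
  have ht : ∃ v, H.IsHodge v ∧ H.disc v ≠ 0 ∧ ∃ m n : ℤ, H.disc v = 2 * (m ^ 2 + m * n + n ^ 2) :=
    ⟨v, hv, by rw [hd]; positivity, k, 0, by rw [hd]; ring⟩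
  have hK : IsK3 H := (crit hH).2 ⟨(twisted_iff hH).2 ht, (hasK3_iff hH ht).1 h⟩
  -- the isotropic class
  obtain ⟨ε, x, hε, hx, hl⟩ := exists_isotropic hH hd
  have hml : H.ip H.h (x • H.h + v) = ε * k := by
    rw [ip_add_right, ip_smul_right, hH.h_self]
    linear_combination hx
  have hlH : H.IsHodge (x • H.h + v) := H.isHodge_add (H.isHodge_smul _ hH.h_hodge) hv
  obtain ⟨l, hl'⟩ : ∃ l, l = x • H.h + v := ⟨_, rfl⟩
  rw [← hl'] at hl hml hlH
  obtain ⟨v1, hv1, hn1, hp1⟩ := exists_perp (k := 2) (H := H) (by omega) ![H.h, l]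
  obtain ⟨v2, hv2, hn2, hp2⟩ := exists_perp (k := 3) (H := H) (by omega) ![H.h, l, v1]
  refine fanoHilb_of_isK3 hH hK hlH ?_ ?_ hv1 hv2 (hp1 0) (hp2 0) (hp1 1) (hp2 1) (hp2 2) hn1 hn2
  · rw [hml]
    intro h0
    rcases mul_eq_zero.1 h0 with h0 | h0
    · rw [h0] at hε; norm_num at hε
    · exact hk h0
  · rw [hl, hml]
    linear_combination (-k ^ 2) * hε

end Pool.Agent.Q76.LG
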