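import Pool.Agent.Q76.LG.RankFour
import Pool.Agent.Q76.LG.OneP

/-!
# Addington's and Hassett's criteria in `C_{2 k^2}`, rank three
-/

set_option autoImplicit false

namespace Pool.Agent.Q76.LG

open Pool.Agent.Y95.Q Pool.Agent.Y95.Q.H4 Pool.Agent.Q76.FH

variable {X : CubicFourfold} {H : H4 X}

/-- **Addington's criterion from a hyperbolic plane, an isotropic class on `F(X)` and one
orthogonal class.** -/
theorem fanoHilb_of_isK3' (hH : H.IsCohomology) (h : IsK3 H) {l u : Fin 23 → ℤ}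
    (hl : H.IsHodge l) (hl0 : H.ip H.h l ≠ 0) (hll : H.ip l l = H.ip H.h l ^ 2)
    (hu : H.IsHodge u) (hhu : H.ip H.h u = 0) (hlu : H.ip l u = 0) (hun : u ≠ 0)
    (hprime : ∀ (c1 K : ℤ) (bound : ℕ), K ≠ 0 → IsCoprime c1 K →
      (∀ p : ℕ, p.Prime → (p : ℤ) ∣ K → (p : ℤ) ∣ 2 * H.ip H.h l) →
      ∃ P > bound, P.Prime ∧ K ∣ (P : ℤ) - c1 ∧ ∃ y : ℤ, (P : ℤ) ∣ 2 * y ^ 2 - H.ip u u) :
    FanoHilb H := by
  by_cases hex : ∃ v, H.IsHodge v ∧ v ≠ 0 ∧ H.ip H.h v = 0 ∧ H.ip l v = 0 ∧ H.ip u v = 0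
  · obtain ⟨v, hv, hv0, h1, h2, h3⟩ := hex
    exact fanoHilb_of_isK3 hH h hl hl0 hll hu hv hhu h1 hlu h2 h3 hun hv0
  push Not at hex
  obtain ⟨m, hm⟩ : ∃ m, m = H.ip H.h l := ⟨_, rfl⟩
  rw [← hm] at hl0 hll hprime
  obtain ⟨s, t, ht, hq, hc⟩ := exists_coprime hH h
  have hcch : cc H H.h = 3 := by
    have := two_cc hH H.h
    rw [hH.h_self] at this
    linarith
  have b1 : ∀ (s : ℤ) {t : Fin 23 → ℤ} (ht : H.IsHodge t),
      (muk hH).b (s, ⟨t, ht⟩) (1, ⟨0, H.isHodge_zero⟩) = 2 * s + H.ip H.h t := fun s t ht =>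
    b_one hH s ht
  have b2 : ∀ (s : ℤ) {t : Fin 23 → ℤ} (ht : H.IsHodge t),
      (muk hH).b (s, ⟨t, ht⟩) (-1, ⟨H.h, hH.h_hodge⟩) = s + H.ip H.h t := by
    intro s t ht
    rw [b_eq]
    simp only [hH.h_self, hH.comm t H.h]
    ring
  have hml : H.ip H.h l = m := hm.symm
  have hlh : H.ip l H.h = m := (hH.comm _ _).trans hml
  have hul : H.ip u l = 0 := (hH.comm _ _).trans hlu
  have huh : H.ip u H.h = 0 := (hH.comm _ _).trans hhu
  have hpos := hH.pos u hu hun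
  have hqu : (muk hH).q (0, ⟨u, hu⟩) = cc H u := by
    rw [q_eq, hhu]; ring
  have hcu := two_cc hH u
  rw [hhu] at hcu
  have her2 : (muk hH).b (-m, ⟨l, hl⟩) (1, ⟨0, H.isHodge_zero⟩) = -m := by
    rw [b1, hml]; ring
  obtain ⟨⟨s', ⟨T, hT⟩⟩, hz0, hz1⟩ := (muk hH).exists_one_of (r := (-1, ⟨H.h, hH.h_hodge⟩))
    (r2 := (1, ⟨0, H.isHodge_zero⟩)) (e := (-m, ⟨l, hl⟩)) (w := (s, ⟨t, ht⟩))
    (u := (0, ⟨u, hu⟩))
    (by
      rw [q_eq, hcch, hH.h_self]
      norm_num)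
    (by
      rw [q_eq]
      simp only [ip_zero_right, cc]
      norm_num)
    (by
      rw [b1, hH.h_self]; norm_num)
    (by
      rw [q_eq]
      have h6 := two_cc hH l
      rw [hml, hll] at h6
      rw [hml]
      have h7 : cc H l = 0 := by linarith
      rw [h7]; ring)
    (by rw [b2, hml]; ring)
    (by
      rw [her2]
      exact neg_ne_zero.2 hl0)
    hq
    (by
      rw [b2, b1]
      exact hc.symm)
    (by rw [b2, hhu]; ring)
    (by
      rw [b_eq]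
      simp only [hhu, hml, hul]
      ring)
    (by
      rintro ⟨σ, ⟨τ, hτ⟩⟩
      obtain ⟨N, hN⟩ : ∃ N, N = H.ip u u := ⟨_, rfl⟩
      obtain ⟨a, ha⟩ : ∃ a, a = H.ip H.h τ := ⟨_, rfl⟩
      obtain ⟨b, hb⟩ : ∃ b, b = H.ip l τ := ⟨_, rfl⟩
      obtain ⟨c, hc'⟩ : ∃ c, c = H.ip u τ := ⟨_, rfl⟩
      obtain ⟨A, hA⟩ : ∃ A, A = N * (m ^ 2 * a - m * b) := ⟨_, rfl⟩
      obtain ⟨B, hB⟩ : ∃ B, B = 2 * m ^ 2 * c := ⟨_, rfl⟩
      obtain ⟨C, hC⟩ : ∃ C, C = N * (3 * b - m * a) := ⟨_, rfl⟩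
      obtain ⟨D, hD⟩ : ∃ D, D = 2 * m ^ 2 * N := ⟨_, rfl⟩
      have hD0 : D ≠ 0 := by
        rw [hD, hN]
        exact mul_ne_zero (mul_ne_zero two_ne_zero (pow_ne_zero 2 hl0)) hpos.ne'
      have hz : D • τ - A • H.h - B • u - C • l = 0 := by
        by_contra hne
        refine hex _ ?_ hne ?_ ?_ ?_
        · exact H.isHodge_sub (H.isHodge_sub (H.isHodge_sub (H.isHodge_smul _ hτ)
            (H.isHodge_smul _ hH.h_hodge)) (H.isHodge_smul _ hu)) (H.isHodge_smul _ hl)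
        · rw [ip_sub_right, ip_sub_right, ip_sub_right, ip_smul_right, ip_smul_right,
            ip_smul_right, ip_smul_right, ← ha, hH.h_self, hhu, hml, hD, hA, hB, hC]
          ring
        · rw [ip_sub_right, ip_sub_right, ip_sub_right, ip_smul_right, ip_smul_right,
            ip_smul_right, ip_smul_right, ← hb, hlh, hlu, hll, hD, hA, hB, hC]
          ring
        · rw [ip_sub_right, ip_sub_right, ip_sub_right, ip_smul_right, ip_smul_right,
            ip_smul_right, ip_smul_right, ← hc', huh, ← hN, hul, hD, hA, hB, hC]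
          ring
      refine ⟨D, A, B, C, D * σ + A + m * C, hD0, ?_⟩
      have hz' : D • τ = A • H.h + B • u + C • l := by
        rw [sub_sub, sub_sub, sub_eq_zero] at hz
        rw [hz]; abel
      apply Prod.ext
      · simp only [Prod.smul_mk, Prod.mk_add_mk, smul_eq_mul]
        ring
      · apply Subtype.ext
        simp only [Prod.smul_mk, Prod.mk_add_mk]
        change D • τ = A • H.h + B • u + (C • l + (D * σ + A + m * C) • (0 : Fin 23 → ℤ))
        rw [hz', smul_zero, add_zero])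
    (by
      rw [hqu]
      intro h0
      rw [h0] at hcu
      linarith)
    (by
      intro c1 K bound hK hcK hp
      rw [her2] at hp
      obtain ⟨P, hPb, hP, hPK, y, hy⟩ := hprime c1 K (bound + 2) hK hcK fun p h1 h2 => by
        have h3 := hp p h1 h2
        rwa [mul_neg, dvd_neg] at h3
      refine ⟨P, by omega, hP, hPK, y, ?_⟩
      rw [hqu]
      have h1 : 2 * y ^ 2 - H.ip u u = 2 * (y ^ 2 - -cc H u) := by linarith
      rw [h1] at hy
      rcases (Nat.prime_iff_prime_int.1 hP).dvd_or_dvd hy with h2 | h2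
      · have h3 := Int.le_of_dvd (by norm_num) h2
        omega
      · exact h2)
  replace hz0 := (q_eq hH s' hT).symm.trans hz0
  replace hz1 := (b2 s' hT).symm.trans hz1
  refine fanoHilb_of_disc hH hT (n := s') ?_
  rw [disc_cc hH]
  have h3 : H.ip H.h T = 1 - s' := by linarith
  rw [h3] at hz0 ⊢
  linear_combination (-6) * hz0

/-- the hypothesis in rank three -/
def Good3 {X : CubicFourfold} (H : H4 X) (v : Fin 23 → ℤ) (k : ℤ) : Prop :=
  ∃ u, H.IsHodge u ∧ u ≠ 0 ∧ H.ip H.h u = 0 ∧ H.ip v u = 0 ∧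
    ((∃ y : ℤ, H.ip u u = 2 * y ^ 2) ∨ ∃ (p a : ℕ) (n : ℤ), p.Prime ∧ p ≠ 2 ∧ ¬ (p : ℤ) ∣ k ∧
      Odd a ∧ ¬ (p : ℤ) ∣ n ∧ H.ip u u = (p : ℤ) ^ a * n)

/-- **The two criteria are equivalent.** -/
theorem fanoHilb_iff' (hH : H.IsCohomology) {v : Fin 23 → ℤ} {k : ℤ}
    (hv : H.IsHodge v) (hk : k ≠ 0) (hd : H.disc v = 2 * k ^ 2) (h : 4 ≤ H.rank ∨ Good3 H v k) :
    FanoHilb H ↔ H.HasK3 := by
  rcases h with h | ⟨u, hu, hu0, hhu, hvu, hcase⟩
  · exact fanoHilb_iff hH h hv hk hd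
  refine ⟨hasK3_of_fanoHilb hH, fun h => ?_⟩
  have ht : ∃ v, H.IsHodge v ∧ H.disc v ≠ 0 ∧ ∃ m n : ℤ, H.disc v = 2 * (m ^ 2 + m * n + n ^ 2) :=
    ⟨v, hv, by rw [hd]; positivity, k, 0, by rw [hd]; ring⟩
  have hK : IsK3 H := (crit hH).2 ⟨(twisted_iff hH).2 ht, (hasK3_iff hH ht).1 h⟩
  obtain ⟨ε, x, hε, hx, hl⟩ := exists_isotropic hH hd
  have hml : H.ip H.h (x • H.h + v) = ε * k := by
    rw [ip_add_right, ip_smul_right, hH.h_self]
    linear_combination hx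
  have hlH : H.IsHodge (x • H.h + v) := H.isHodge_add (H.isHodge_smul _ hH.h_hodge) hv
  have hlu : H.ip (x • H.h + v) u = 0 := by
    rw [ip_add_left, ip_smul_left, hhu, hvu]; ring
  obtain ⟨l, hl'⟩ : ∃ l, l = x • H.h + v := ⟨_, rfl⟩
  rw [← hl'] at hl hml hlH hlu
  refine fanoHilb_of_isK3' hH hK hlH ?_ ?_ hu hhu hlu hu0 ?_
  · rw [hml]
    intro h0
    rcases mul_eq_zero.1 h0 with h0 | h0
    · rw [h0] at hε; norm_num at hε
    · exact hk h0
  · rw [hl, hml]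
    linear_combination (-k ^ 2) * hε
  · intro c1 K bound hK0 hcK hp
    rcases hcase with ⟨y, hy⟩ | ⟨p, a, n, hp1, hp2, hpk, ha, hpn, hn⟩
    · obtain ⟨P, h1, h2, h3, z, hz⟩ := exists_prime_of_square (n := y ^ 2) rfl hK0 hcK bound
      refine ⟨P, h1, h2, h3, z, ?_⟩
      rw [hy]
      have : 2 * z ^ 2 - 2 * y ^ 2 = 2 * (z ^ 2 - y ^ 2) := by ring
      rw [this]
      exact hz.mul_left _
    · have hpi := Nat.prime_iff_prime_int.1 hp1
      have h2u : (2 : ℤ) ∣ H.ip u u := by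
        have h1 := hH.char u
        rw [hH.comm u H.h, hhu, sub_zero] at h1
        exact h1.two_dvd
      have h2n : (2 : ℤ) ∣ n := by
        rw [hn] at h2u
        rcases Int.prime_two.dvd_or_dvd h2u with h1 | h1
        · have h4 := Int.prime_two.dvd_of_dvd_pow h1
          have h5 : 2 ∣ p := by exact_mod_cast h4
          exact absurd ((Nat.prime_dvd_prime_iff_eq Nat.prime_two hp1).1 h5).symm hp2
        · exact h1
      obtain ⟨n', hn'⟩ := h2n
      have hpK : ¬ (p : ℤ) ∣ K := by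
        intro h1
        have h3 := hp p hp1 h1
        rw [hml] at h3
        rcases hpi.dvd_or_dvd h3 with h4 | h4
        · have h5 : p ∣ 2 := by exact_mod_cast h4
          exact hp2 ((Nat.prime_dvd_prime_iff_eq hp1 Nat.prime_two).1 h5)
        · rcases hpi.dvd_or_dvd h4 with h5 | h5
          · have h6 : (p : ℤ) ∣ 1 := by
              rw [← hε]
              exact h5.mul_left _
            exact hpi.not_isUnit (isUnit_of_dvd_one h6)
          · exact hpk h5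
      obtain ⟨P, h1, h2, h3, z, hz⟩ := exists_prime_sq (n := (p : ℤ) ^ a * n') (n' := n') hp1 hp2 ha
        rfl (fun h1 => hpn (hn' ▸ h1.mul_left _)) hK0 hcK hpK bound
      refine ⟨P, h1, h2, h3, z, ?_⟩
      rw [hn, hn']
      have : 2 * z ^ 2 - (p : ℤ) ^ a * (2 * n') = 2 * (z ^ 2 - (p : ℤ) ^ a * n') := by ring
      rw [this]
      exact hz.mul_left _

end Pool.Agent.Q76.LG
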